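import Pool.Agent.Lib.MP_b63a06_co.Graph

set_option autoImplicit false

/-!
# MP_b63a06_co: cubelike graphs, frames (helper65)

Notation of `Cube.lean`, `Count.lean`, `Graph.lean`: `V` is a finite group with `x + x = 0`, `A` a
finite set with `0 ∈ A`, `MaxAv A W`: `W` is a subgroup of maximal order with `A ∩ W = {0}`,
`Sgl A W a`: `a` is the only element of `A` in `a + W`, `Conf A W s t` (conflict): `s`, `t` are single
and `s + t ∉ A`, `XX A W s t = {x ∈ W | s + t + x ∈ A}`, `mm A W v = |A ∩ (v + W)|`.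
-/

namespace Pool.Agent.Lib.MP_b63a06_co.FR

open Pool.Agent.Lib.MP_b63a06_co

/-- The numbers of `0, e₀, e₁, e₂, e₃, e₄ = e₀ + e₁ + e₂ + e₃` (`i` is the number of
`∑ e_b` over the bits `b` of `i`). -/
def EE : Finset ℕ := {0, 1, 2, 4, 8, 15}

/-- The numbers of the sums of two of the five `e_b`. -/
def NF : Finset ℕ := {3, 5, 6, 7, 9, 10, 11, 12, 13, 14}

/-- The patterns with seven elements (supersets of a translate of one of them are all patterns with
at most seven elements, see `SpecFNA`). -/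
def TT : List (List ℕ) :=
  [[0, 1, 2, 3, 4, 8, 15], [0, 1, 2, 4, 5, 8, 15], [0, 1, 2, 4, 6, 8, 15], [0, 1, 2, 4, 7, 8, 15],
   [0, 1, 2, 4, 8, 9, 15], [0, 1, 2, 4, 8, 10, 15], [0, 1, 2, 4, 8, 11, 15],
   [0, 1, 2, 4, 8, 12, 15], [0, 1, 2, 4, 8, 13, 15], [0, 1, 2, 4, 8, 14, 15],
   [0, 2, 4, 6, 7, 8, 15], [0, 2, 4, 8, 10, 11, 15], [0, 2, 4, 8, 12, 13, 15],
   [0, 1, 4, 5, 7, 8, 15], [0, 1, 4, 8, 9, 11, 15], [0, 1, 4, 8, 12, 14, 15],
   [0, 1, 2, 3, 7, 8, 15], [0, 1, 2, 8, 9, 13, 15], [0, 1, 2, 8, 10, 14, 15],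
   [0, 1, 2, 3, 4, 11, 15], [0, 1, 2, 4, 5, 13, 15], [0, 1, 2, 4, 6, 14, 15],
   [0, 1, 2, 3, 4, 8, 12], [0, 1, 2, 4, 5, 8, 10], [0, 1, 2, 4, 6, 8, 9]]

section Group

variable {V : Type} [AddCommGroup V]

/-- `∑ e b` over the bits `b < n` of `i` -/
def gg (e : ℕ → V) (n i : ℕ) : V := ∑ b ∈ Finset.range n, if i.testBit b then e b else 0

theorem gg_zero (e : ℕ → V) (n : ℕ) : gg e n 0 = 0 := by
  unfold gg
  refine Finset.sum_eq_zero fun b _ => ?_
  rw [Nat.zero_testBit]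
  rfl

theorem gg_xor (h2 : Two V) (e : ℕ → V) (n i j : ℕ) :
    gg e n (i ^^^ j) = gg e n i + gg e n j := by
  unfold gg
  rw [← Finset.sum_add_distrib]
  refine Finset.sum_congr rfl fun b _ => ?_
  rw [Nat.testBit_xor]
  cases i.testBit b <;> cases j.testBit b <;> simp [h2 (e b)]

theorem gg_pow (e : ℕ → V) (n b : ℕ) (hb : b < n) : gg e n (2 ^ b) = e b := by
  unfold gg
  rw [Finset.sum_eq_single b]
  · rw [Nat.testBit_two_pow_self]
    rfl
  · intro c _ hc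
    rw [Nat.testBit_two_pow_of_ne (Ne.symm hc)]
    rfl
  · intro h
    exact absurd (Finset.mem_range.2 hb) h

theorem gg_succ (e : ℕ → V) (n i : ℕ) :
    gg e (n + 1) i = gg e n i + if i.testBit n then e n else 0 := by
  unfold gg
  rw [Finset.sum_range_succ]

theorem gg_congr (e e' : ℕ → V) (n i : ℕ) (h : ∀ b < n, e b = e' b) : gg e n i = gg e' n i := by
  unfold gg
  exact Finset.sum_congr rfl fun b hb => by rw [h b (Finset.mem_range.1 hb)]

/-- the subgroup generated by `e 0, .., e 3` -/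
def DD (h2 : Two V) (e : ℕ → V) : AddSubgroup V where
  carrier := {x | ∃ i, i < 16 ∧ x = gg e 4 i}
  zero_mem' := ⟨0, by norm_num, (gg_zero e 4).symm⟩
  add_mem' := by
    rintro x y ⟨i, hi, rfl⟩ ⟨j, hj, rfl⟩
    exact ⟨i ^^^ j, Nat.xor_lt_two_pow (n := 4) hi hj, (gg_xor h2 e 4 i j).symm⟩
  neg_mem' := by
    rintro x ⟨i, hi, rfl⟩
    exact ⟨i, hi, h2.neg _⟩

theorem mem_DD (h2 : Two V) (e : ℕ → V) (x : V) : x ∈ DD h2 e ↔ ∃ i, i < 16 ∧ x = gg e 4 i := Iff.rfl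

theorem gg_inj (h2 : Two V) (e : ℕ → V) (n : ℕ) (h : ∀ i < 2 ^ n, gg e n i = 0 → i = 0) (i j : ℕ)
    (hi : i < 2 ^ n) (hj : j < 2 ^ n) (hij : gg e n i = gg e n j) : i = j := by
  have h1 : gg e n (i ^^^ j) = 0 := by rw [gg_xor h2, hij, h2]
  have h3 := h _ (Nat.xor_lt_two_pow hi hj) h1
  exact Nat.xor_eq_zero_iff.1 h3

/-- `R` is a complement of `DD e` in `F` -/
structure Cpl (F : AddSubgroup V) (e : ℕ → V) (R : AddSubgroup V) : Prop where
  le : R ≤ F
  dj : ∀ i, i < 16 → gg e 4 i ∈ R → i = 0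
  gen : ∀ x ∈ F, ∃ i, i < 16 ∧ x + gg e 4 i ∈ R

/-- the basis vectors after a flip -/
noncomputable def fl (F₁ : AddSubgroup V) (γ : V) (e : ℕ → V) (b : ℕ) : V := by
  classical
  exact if e b ∈ F₁ then e b else γ + e b

end Group

section Main

variable {V : Type} [AddCommGroup V] [Fintype V] [DecidableEq V]

/-- a frame: `A ∩ F = {0, e 0, e 1, e 2, e 3, e 0 + e 1 + e 2 + e 3}`, the `e b` are independent and `F`
has four times the order of a maximal avoiding subgroup -/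
structure Frame (A : Finset V) (F : AddSubgroup V) (e : ℕ → V) : Prop where
  mem : ∀ b, b < 4 → e b ∈ F
  inj : ∀ i, i < 16 → gg e 4 i = 0 → i = 0
  cut : ∀ a, (a ∈ A ∧ a ∈ F) ↔ ∃ i ∈ EE, a = gg e 4 i
  big : ∀ W : AddSubgroup V, MaxAv A W → Nat.card F = 4 * Nat.card W

/-- `α` is a centre: `A ∩ (α + F) = α + (A ∩ F)` -/
def Cen (A : Finset V) (F : AddSubgroup V) (e : ℕ → V) (α : V) : Prop :=
  ∀ a, (a ∈ A ∧ a + α ∈ F) ↔ ∃ i ∈ EE, a = α + gg e 4 i

open Classical in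
/-- the pattern of `v + F` -/
noncomputable def QQ (A : Finset V) (F : AddSubgroup V) (v : V) : Finset V :=
  Finset.univ.filter (fun q => q ∈ F ∧ v + q ∈ A)

theorem mem_QQ (A : Finset V) (F : AddSubgroup V) (v q : V) : q ∈ QQ A F v ↔ q ∈ F ∧ v + q ∈ A := by
  unfold QQ
  simp

open Classical in
/-- the set of centres -/
noncomputable def CE (A : Finset V) (F : AddSubgroup V) (e : ℕ → V) : Finset V :=
  Finset.univ.filter (fun α => Cen A F e α)

theorem mem_CE (A : Finset V) (F : AddSubgroup V) (e : ℕ → V) (α : V) :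
    α ∈ CE A F e ↔ Cen A F e α := by
  unfold CE
  simp

/-- a conflict of centres -/
structure Conf1 (A : Finset V) (F : AddSubgroup V) (e : ℕ → V) (α β : V) : Prop where
  fr : Frame A F e
  ca : Cen A F e α
  cb : Cen A F e β
  no : α + β ∉ A

/-- the Cayley graph with connection set `A ∖ {0}` has a proper colouring with `k` colours -/
def ColA (A : Finset V) (k : ℕ) : Prop :=
  ∃ c : V → Fin k, ∀ x y, x ≠ y → x + y ∈ A → c x ≠ c y

end Main

end Pool.Agent.Lib.MP_b63a06_co.FR
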