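import Pool.Agent.Lib.MP_b63a06_co.FR.Spec

section
set_option autoImplicit false

/-!
# MP_b63a06_co: the number of centres of a frame (helper53)
-/

namespace Pool.Agent.Lib.MP_b63a06_co.FR

open Pool.Agent.Lib.MP_b63a06_co

namespace CNTM

variable {V : Type} [AddCommGroup V] [Fintype V] [DecidableEq V]

/-- the number of elements of the pattern is the number of elements of `A` in the coset -/
theorem card_QQ (h2 : Two V) (A : Finset V) (F : AddSubgroup V) (v : V) :
    (QQ A F v).card = mm A F v := by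
  have h1 : QQ A F v = XX A F v 0 := by
    ext x
    rw [mem_QQ, mem_XX, add_zero]
  rw [h1, card_XX h2 A F v 0, add_zero]

theorem sum_QQ (h2 : Two V) (A : Finset V) (F : AddSubgroup V) :
    ∑ v : V, (QQ A F v).card = A.card * Nat.card F := by
  rw [← sum_mm h2 A F]
  exact Finset.sum_congr rfl fun v _ => card_QQ h2 A F v

end CNTM

theorem specCNT (hSIX : SpecSIX) : SpecCNT := by
  intro V _ _ _ h2 A h0 F e hF W hW
  classical
  have h6 := hSIX V h2 A h0 F e hF
  let P : Finset V := Finset.univ.filter (fun v => (QQ A F v).card = 6)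
  have hP : P.card ≤ (CE A F e).card * Nat.card F := by
    have h1 : P ⊆ (CE A F e).biUnion (fun a => Finset.univ.filter (fun v => a + v ∈ F)) := by
      intro v hv
      simp only [P, Finset.mem_filter, Finset.mem_univ, true_and] at hv
      obtain ⟨α, hα, hαv⟩ := (h6 v).2 hv
      rw [Finset.mem_biUnion]
      exact ⟨α, (mem_CE A F e α).2 hα, by simpa using hαv⟩
    refine (Finset.card_le_card h1).trans (Finset.card_biUnion_le.trans ?_)
    rw [Finset.sum_congr rfl (fun a _ => card_coset h2 F a), Finset.sum_const, smul_eq_mul]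
  have h1 : ∑ _v : V, 7 ≤ ∑ v : V, ((QQ A F v).card + if v ∈ P then 1 else 0) := by
    refine Finset.sum_le_sum fun v _ => ?_
    have p1 := (h6 v).1
    by_cases hv : (QQ A F v).card = 6
    · have h3 : v ∈ P := by simp [P, hv]
      rw [if_pos h3]
      omega
    · omega
  rw [Finset.sum_add_distrib, CNTM.sum_QQ h2 A F, Finset.sum_const, Finset.card_univ, smul_eq_mul,
    Finset.sum_ite_mem, Finset.univ_inter, Finset.sum_const, smul_eq_mul, mul_one, card_V W] at h1
  have hb := hF.big W hW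
  have hpos : 0 < Nat.card W := Nat.card_pos
  rw [hb] at h1 hP
  have h3 : (7 * W.index) * Nat.card W ≤ (4 * (A.card + (CE A F e).card)) * Nat.card W := by
    have e1 : (7 * W.index) * Nat.card W = W.index * Nat.card W * 7 := by ring
    have e2 : (4 * (A.card + (CE A F e).card)) * Nat.card W =
      A.card * (4 * Nat.card W) + (CE A F e).card * (4 * Nat.card W) := by ring
    rw [e1, e2]
    omega
  exact Nat.le_of_mul_le_mul_right h3 hpos

end Pool.Agent.Lib.MP_b63a06_co.FR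
end

section
set_option autoImplicit false

/-!
# MP_b63a06_co: colourings of a subgroup and of the group (helper53)
-/

namespace Pool.Agent.Lib.MP_b63a06_co.FR

open Pool.Agent.Lib.MP_b63a06_co

namespace COLM

variable {V : Type} [AddCommGroup V]

/-- the difference of `x` and the representative of its coset -/
theorem out_mem (h2 : Two V) (U : AddSubgroup V) (x : V) :
    x + (QuotientAddGroup.mk x : V ⧸ U).out ∈ U := by
  have h1 : (QuotientAddGroup.mk x : V ⧸ U) =
      QuotientAddGroup.mk ((QuotientAddGroup.mk x : V ⧸ U).out) :=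
    (QuotientAddGroup.out_eq' _).symm
  have h3 := QuotientAddGroup.eq.1 h1
  rwa [h2.neg] at h3

end COLM

theorem specCOL : SpecCOL := by
  intro V _ _ _ h2 A U k c hc hcol
  classical
  have hcard : Nat.card (Fin k × (V ⧸ U)) = k * U.index := by
    rw [Nat.card_prod, Nat.card_fin]
    rfl
  let e : Fin k × (V ⧸ U) ≃ Fin (k * U.index) := Finite.equivFinOfCardEq hcard
  refine ⟨fun v => e (⟨c (v + (QuotientAddGroup.mk v : V ⧸ U).out), hc _ (COLM.out_mem h2 U v)⟩,
    QuotientAddGroup.mk v), ?_⟩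
  intro x y hxy hA heq
  have h1 := e.injective heq
  rw [Prod.mk.injEq] at h1
  obtain ⟨h3, h4⟩ := h1
  have h5 : c (x + (QuotientAddGroup.mk x : V ⧸ U).out) =
      c (y + (QuotientAddGroup.mk y : V ⧸ U).out) := by
    have := congrArg Fin.val h3
    exact this
  have hx := COLM.out_mem h2 U x
  have hy := COLM.out_mem h2 U y
  rw [h4] at h5 hx
  set r := (QuotientAddGroup.mk y : V ⧸ U).out with hr
  refine hcol (x + r) hx (y + r) hy (fun h => hxy (add_right_cancel h)) ?_ h5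
  have e1 : x + r + (y + r) = x + y + (r + r) := by abel
  rw [e1, h2 r, add_zero]
  exact hA

end Pool.Agent.Lib.MP_b63a06_co.FR
end

section
set_option autoImplicit false

/-!
# MP_b63a06_co, module CPF: complements in a frame (helper62)
-/

namespace Pool.Agent.Lib.MP_b63a06_co.FR

open Pool.Agent.Lib.MP_b63a06_co

namespace CPFM

theorem gg_mem {V : Type} [AddCommGroup V] (F : AddSubgroup V) (e : ℕ → V) (n i : ℕ)
    (h : ∀ b < n, e b ∈ F) : gg e n i ∈ F := by
  unfold gg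
  refine AddSubgroup.sum_mem F fun b hb => ?_
  split_ifs
  · exact h b (Finset.mem_range.1 hb)
  · exact F.zero_mem

theorem card_DD {V : Type} [AddCommGroup V] [Finite V] (h2 : Two V) (e : ℕ → V)
    (hinj : ∀ i, i < 16 → gg e 4 i = 0 → i = 0) : 16 ≤ Nat.card (DD h2 e) := by
  have hf : Function.Injective
      (fun i : Fin 16 => (⟨gg e 4 i.1, ⟨i.1, i.2, rfl⟩⟩ : DD h2 e)) := by
    intro i j hij
    have h1 : gg e 4 i.1 = gg e 4 j.1 := congrArg Subtype.val hij
    exact Fin.ext (gg_inj h2 e 4 (fun k hk h => hinj k hk h) i.1 j.1 i.2 j.2 h1)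
  have h3 := Nat.card_le_card_of_injective _ hf
  rwa [Nat.card_eq_fintype_card, Fintype.card_fin] at h3

end CPFM

theorem specCPF (hCPL : SpecCPL) : SpecCPF := by
  intro V _ _ _ h2 A F e hF R₀ Y hR₀ hdj hY hc
  have h16 := CPFM.card_DD h2 e hF.inj
  obtain ⟨R, h1, h3, h4, h5, h6⟩ := hCPL V h2 (DD h2 e) F R₀ Y (by
      rintro x ⟨i, hi, rfl⟩
      exact CPFM.gg_mem F e 4 i hF.mem) hR₀ (by
      rintro x hx ⟨i, hi, rfl⟩
      rw [hdj i hi hx]
      exact gg_zero e 4) hY (by omega)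
  refine ⟨R, h1, ⟨h3, ?_, ?_⟩, h6⟩
  · intro i hi hR
    exact hF.inj i hi (h4 _ hR ⟨i, hi, rfl⟩)
  · intro x hx
    obtain ⟨d, ⟨i, hi, rfl⟩, hd⟩ := h5 x hx
    exact ⟨i, hi, hd⟩

end Pool.Agent.Lib.MP_b63a06_co.FR
end

section
set_option autoImplicit false

/-!
# MP_b63a06_co: complements avoiding a small set (module CPL, helper26)
-/

namespace Pool.Agent.Lib.MP_b63a06_co.FR

open Pool.Agent.Lib.MP_b63a06_co

theorem specCPL : SpecCPL := by
  intro V _ _ h2 D F R₀ Y hDF hR₀F hR₀D hYR₀ hcard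
  classical
  let P : AddSubgroup V → Prop := fun R =>
    R₀ ≤ R ∧ R ≤ F ∧ (∀ x ∈ R, x ∈ D → x = 0) ∧ ∀ y ∈ Y, y ∉ R
  have hP : ∃ R, P R := ⟨R₀, le_refl _, hR₀F, hR₀D, hYR₀⟩
  have hfin : {R : AddSubgroup V | P R}.Finite := Set.toFinite _
  obtain ⟨R, hR, hmax⟩ := Set.exists_max_image {R : AddSubgroup V | P R} (fun R => Nat.card R)
    hfin hP
  obtain ⟨hR1, hR2, hR3, hR4⟩ := hR
  refine ⟨R, hR1, hR2, hR3, ?_, hR4⟩
  intro x hx
  by_contra hcon
  push Not at hcon
  -- some translate avoids `Y`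
  have hex : ∃ d ∈ D, ∀ y ∈ Y, y + (x + d) ∉ R := by
    by_contra hno
    push Not at hno
    choose f hf1 hf2 using hno
    let φ : D → Y := fun d => ⟨f d.1 d.2, hf1 d.1 d.2⟩
    have hinj : Function.Injective φ := by
      intro d d' hdd
      have e1 : f d.1 d.2 = f d'.1 d'.2 := congrArg Subtype.val hdd
      have e2 := R.add_mem (hf2 d.1 d.2) (hf2 d'.1 d'.2)
      rw [← e1] at e2
      have e3 : f d.1 d.2 + (x + d.1) + (f d.1 d.2 + (x + d'.1)) =
          (f d.1 d.2 + f d.1 d.2) + (x + x) + (d.1 + d'.1) := by abel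
      rw [e3, h2, h2, zero_add, zero_add] at e2
      have e4 := hR3 _ e2 (D.add_mem d.2 d'.2)
      exact Subtype.ext (h2.eq_of_add e4)
    have h1 := Nat.card_le_card_of_injective φ hinj
    have h3 : Nat.card Y = Y.card := by
      rw [Nat.card_eq_fintype_card, Fintype.card_coe]
    omega
  obtain ⟨d, hd, hdY⟩ := hex
  have h4 : P (ext h2 R (x + d)) := by
    refine ⟨?_, ?_, ?_, ?_⟩
    · intro r hr
      exact le_ext h2 R _ (hR1 hr)
    · rintro v (hv | hv)
      · exact hR2 hv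
      · have h5 := F.add_mem (hR2 hv) (F.add_mem hx (hDF hd))
        rwa [h2.cancel' (x + d) v] at h5
    · rintro v (hv | hv) hvD
      · exact hR3 v hv hvD
      · exfalso
        apply hcon (v + d) (D.add_mem hvD hd)
        have e : x + (v + d) = v + (x + d) := by abel
        rwa [e]
    · rintro y hy (h | h)
      · exact hR4 y hy h
      · exact hdY y hy h
  have h5 := hmax _ h4
  rw [card_ext h2 R (x + d) (hcon d hd)] at h5
  have h6 : 0 < Nat.card R := Nat.card_pos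
  omega

end Pool.Agent.Lib.MP_b63a06_co.FR
end

section
set_option autoImplicit false

/-!
# MP_b63a06_co, module CSA (helper72)

`7 M / 8` colours from a frame and a light coset.
-/

namespace Pool.Agent.Lib.MP_b63a06_co.FR

open Pool.Agent.Lib.MP_b63a06_co

namespace CSAM

theorem NF_lt : ∀ i ∈ NF, i < 16 := by decide

section Group

variable {V : Type} [AddCommGroup V]

theorem gg_mem (F : AddSubgroup V) (e : ℕ → V) (h : ∀ b, b < 4 → e b ∈ F) (i : ℕ) :
    gg e 4 i ∈ F := by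
  unfold gg
  refine F.sum_mem fun b hb => ?_
  split_ifs
  · exact h b (Finset.mem_range.1 hb)
  · exact F.zero_mem

open Classical in
/-- the pattern of `Q` modulo `R` -/
noncomputable def PP (e : ℕ → V) (R : AddSubgroup V) (Q : Finset V) : Finset ℕ :=
  (Finset.range 16).filter (fun i => ∃ q ∈ Q, q + gg e 4 i ∈ R)

theorem mem_PP (e : ℕ → V) (R : AddSubgroup V) (Q : Finset V) (i : ℕ) :
    i ∈ PP e R Q ↔ i < 16 ∧ ∃ q ∈ Q, q + gg e 4 i ∈ R := by
  unfold PP
  simp

theorem lt16 {i j : ℕ} (hi : i < 16) (hj : j < 16) : i ^^^ j < 16 :=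
  Nat.xor_lt_two_pow (n := 4) hi hj

theorem card_PP (h2 : Two V) {F : AddSubgroup V} {e : ℕ → V} {R : AddSubgroup V}
    (hR : Cpl F e R) (Q : Finset V) : (PP e R Q).card ≤ Q.card := by
  classical
  have h1 : ∀ i : ℕ, ∃ q : V, i ∈ PP e R Q → q ∈ Q ∧ q + gg e 4 i ∈ R := by
    intro i
    by_cases hi : i ∈ PP e R Q
    · obtain ⟨_, q, hq, hqR⟩ := (mem_PP e R Q i).1 hi
      exact ⟨q, fun _ => ⟨hq, hqR⟩⟩
    · exact ⟨0, fun h => absurd h hi⟩
  choose f hf using h1
  refine Finset.card_le_card_of_injOn f (fun i hi => (hf i hi).1) ?_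
  intro i hi j hj hij
  have hi' : i ∈ PP e R Q := hi
  have hj' : j ∈ PP e R Q := hj
  have a := (hf i hi').2
  have b := (hf j hj').2
  rw [← hij] at b
  have c := R.add_mem a b
  have d : f i + gg e 4 i + (f i + gg e 4 j) = gg e 4 (i ^^^ j) := by
    rw [gg_xor h2]
    have : f i + gg e 4 i + (f i + gg e 4 j) = (f i + f i) + (gg e 4 i + gg e 4 j) := by abel
    rw [this, h2, zero_add]
  rw [d] at c
  have h3 := hR.dj (i ^^^ j) (lt16 ((mem_PP e R Q i).1 hi').1 ((mem_PP e R Q j).1 hj').1) c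
  exact Nat.xor_eq_zero_iff.1 h3

end Group

section Main

variable {V : Type} [AddCommGroup V] [Fintype V] [DecidableEq V]

theorem meets (hKER : SpecKER) (h2 : Two V) {A : Finset V} (h0 : (0 : V) ∈ A) {F : AddSubgroup V}
    {e : ℕ → V} (hF : Frame A F e) {R : AddSubgroup V} (hR : Cpl F e R) (γ : V) :
    ∀ i ∈ NF, ∀ j ∈ NF, i ^^^ j ∈ NF → ∀ c < 16,
      c ∈ PP e R (QQ A F γ) ∨ c ^^^ i ∈ PP e R (QQ A F γ) ∨ c ^^^ j ∈ PP e R (QQ A F γ) ∨
      c ^^^ i ^^^ j ∈ PP e R (QQ A F γ) := by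
  intro i hi j hj hij c hc
  have hZ := hKER V h2 A h0 F e R hF hR i hi j hj hij
  obtain ⟨a, haA, haZ⟩ := cov h2 A h0 hZ (γ + gg e 4 c)
  have hiF := gg_mem F e hF.mem i
  have hjF := gg_mem F e hF.mem j
  have hcF := gg_mem F e hF.mem c
  have e1 : a + (γ + gg e 4 c) = (a + γ) + gg e 4 c := by abel
  rw [e1] at haZ
  have key : ∀ z : V, z ∈ F → (a + γ) + gg e 4 c + z ∈ R → a + γ ∈ QQ A F γ := by
    intro z hz hzR
    rw [mem_QQ]
    refine ⟨?_, ?_⟩
    · have h3 := F.add_mem (F.add_mem (hR.le hzR) hz) hcF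
      rwa [h2.cancel', h2.cancel'] at h3
    · have e2 : γ + (a + γ) = a := by
        rw [add_comm a γ, h2.cancel]
      rw [e2]
      exact haA
  have mk : ∀ l : ℕ, l < 16 → ∀ z ∈ F, gg e 4 l = gg e 4 c + z → (a + γ) + gg e 4 c + z ∈ R →
      l ∈ PP e R (QQ A F γ) := by
    intro l hl z hz hlz hzR
    rw [mem_PP]
    refine ⟨hl, a + γ, key z hz hzR, ?_⟩
    rw [hlz, ← add_assoc]
    exact hzR
  have hi16 := NF_lt i hi
  have hj16 := NF_lt j hj
  rcases haZ with (h | h) | (h | h)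
  · left
    refine mk c hc 0 F.zero_mem (by rw [add_zero]) ?_
    rw [add_zero]
    exact h
  · right; left
    exact mk _ (lt16 hc hi16) (gg e 4 i) hiF (gg_xor h2 e 4 c i) h
  · right; right; left
    exact mk _ (lt16 hc hj16) (gg e 4 j) hjF (gg_xor h2 e 4 c j) h
  · right; right; right
    refine mk _ (lt16 (lt16 hc hi16) hj16) (gg e 4 j + gg e 4 i) (F.add_mem hjF hiF) ?_ ?_
    · rw [gg_xor h2, gg_xor h2]
      abel
    · rw [← add_assoc]
      exact h

end Main

end CSAM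

open CSAM in
theorem specCSA (hCPF : SpecCPF) (hKER : SpecKER) (hFNA : SpecFNA) (hTBA : SpecTBA)
    (hCOL : SpecCOL) : SpecCSA := by
  classical
  intro V _ _ _ h2 A h0 F e γ hF hγ hQ W hW
  obtain ⟨R, -, hR, -⟩ := hCPF V h2 A F e hF ⊥ ∅ bot_le
    (by
      intro i hi h
      exact hF.inj i hi (by simpa using h))
    (by simp) (by simp)
  have hP16 : ∀ i ∈ PP e R (QQ A F γ), i < 16 := fun i hi => ((mem_PP _ _ _ _).1 hi).1
  obtain ⟨-, -, h7⟩ := hFNA (PP e R (QQ A F γ)) hP16 (meets hKER h2 h0 hF hR γ)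
  obtain ⟨c, hc, T, hT, hPT⟩ := h7 ((card_PP h2 hR _).trans hQ)
  obtain ⟨ct, hct, htab⟩ := hTBA T hT
  obtain ⟨γ', hγ'⟩ : ∃ γ' : V, γ' = γ + gg e 4 c := ⟨_, rfl⟩
  have hcF := gg_mem F e hF.mem c
  have hγ'F : γ' ∉ F := by
    intro h
    apply hγ
    have h3 := F.add_mem h hcF
    rwa [hγ', h2.cancel'] at h3
  -- the index function
  have hu : ∀ x : V, ∃ u : ℕ, x ∈ ext h2 F γ' → ∃ i < 16,
      (u = i ∧ x + gg e 4 i ∈ R) ∨ (u = 16 ^^^ i ∧ x + γ' + gg e 4 i ∈ R) := by
    intro x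
    by_cases hx : x ∈ ext h2 F γ'
    · rcases hx with hx | hx
      · obtain ⟨i, hi, hiR⟩ := hR.gen x hx
        exact ⟨i, fun _ => ⟨i, hi, Or.inl ⟨rfl, hiR⟩⟩⟩
      · obtain ⟨i, hi, hiR⟩ := hR.gen _ hx
        exact ⟨16 ^^^ i, fun _ => ⟨i, hi, Or.inr ⟨rfl, hiR⟩⟩⟩
    · exact ⟨0, fun h => absurd h hx⟩
  choose u hu using hu
  have x32 : ∀ i < 16, 16 ^^^ i < 32 := by decide
  -- both in the same coset
  have same : ∀ (a z : V) (i j : ℕ), a ∈ A → a ≠ 0 → i < 16 → j < 16 →
      z ∈ R → z = a + gg e 4 i + gg e 4 j → i ≠ j ∧ i ^^^ j ∈ EE := by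
    intro a z i j haA ha0 hi hj hz hza
    have haF : a ∈ F := by
      have h3 := F.add_mem (F.add_mem (hR.le hz) (gg_mem F e hF.mem j)) (gg_mem F e hF.mem i)
      rwa [hza, h2.cancel', h2.cancel'] at h3
    obtain ⟨k, hk, hak⟩ := (hF.cut a).1 ⟨haA, haF⟩
    have hk16 : k < 16 := by
      have : ∀ k ∈ EE, k < 16 := by decide
      exact this k hk
    have e1 : z = gg e 4 (k ^^^ i ^^^ j) := by
      rw [hza, gg_xor h2, gg_xor h2, hak]
    rw [e1] at hz
    have h3 := hR.dj _ (lt16 (lt16 hk16 hi) hj) hz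
    have h4 : k ^^^ i = j := Nat.xor_eq_zero_iff.1 h3
    have h5 : i ^^^ j = k := by
      rw [← h4, Nat.xor_comm k i, ← Nat.xor_assoc, Nat.xor_self, Nat.zero_xor]
    refine ⟨?_, by rw [h5]; exact hk⟩
    intro hij
    rw [hij, Nat.xor_self] at h5
    apply ha0
    rw [hak, ← h5, gg_zero]
  -- in different cosets
  have diff : ∀ (x y : V) (i j : ℕ), x + y ∈ A → i < 16 → j < 16 → x + gg e 4 i ∈ R →
      y + γ' + gg e 4 j ∈ R → i ^^^ j ∈ T := by
    intro x y i j hA hi hj hx hy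
    have h3 := R.add_mem hx hy
    have e1 : x + gg e 4 i + (y + γ' + gg e 4 j) =
        (x + y + γ) + gg e 4 (c ^^^ (i ^^^ j)) := by
      rw [gg_xor h2, gg_xor h2, hγ']
      abel
    rw [e1] at h3
    have h4 : c ^^^ (i ^^^ j) ∈ PP e R (QQ A F γ) := by
      rw [mem_PP]
      refine ⟨lt16 hc (lt16 hi hj), x + y + γ, ?_, h3⟩
      rw [mem_QQ]
      refine ⟨?_, ?_⟩
      · have h5 := F.add_mem (hR.le h3) (gg_mem F e hF.mem (c ^^^ (i ^^^ j)))
        rwa [h2.cancel'] at h5
      · have e2 : γ + (x + y + γ) = x + y := by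
          rw [add_comm (x + y) γ, h2.cancel]
        rw [e2]
        exact hA
    have h5 := hPT _ h4
    have e3 : c ^^^ (i ^^^ j) ^^^ c = i ^^^ j := by
      rw [Nat.xor_comm, ← Nat.xor_assoc, Nat.xor_self, Nat.zero_xor]
    rwa [e3] at h5
  have diff2 : ∀ (x y : V) (i j : ℕ), x + y ∈ A → i < 16 → j < 16 → x + gg e 4 i ∈ R →
      y + γ' + gg e 4 j ∈ R → ct i ≠ ct (16 ^^^ j) := by
    intro x y i j hA hi hj hx hy
    have h3 := diff x y i j hA hi hj hx hy
    have e1 : i ^^^ (16 ^^^ j) = 16 ^^^ (i ^^^ j) := by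
      rw [← Nat.xor_assoc, Nat.xor_comm i 16, Nat.xor_assoc]
    refine htab i (by omega) (16 ^^^ j) (x32 j hj) ?_ (Or.inr ⟨i ^^^ j, h3, e1⟩)
    intro h
    rw [← h, Nat.xor_self] at e1
    have h4 : 16 = i ^^^ j := Nat.xor_eq_zero_iff.1 e1.symm
    have h5 := lt16 hi hj
    omega
  have hcol := hCOL V h2 A (ext h2 F γ') 7 (fun x => ct (u x)) (fun x _ => hct _) (by
    intro x hx y hy hxy hA
    have ha0 : x + y ≠ 0 := fun h => hxy (h2.eq_of_add h)
    obtain ⟨i, hi, hxi⟩ := hu x hx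
    obtain ⟨j, hj, hyj⟩ := hu y hy
    show ct (u x) ≠ ct (u y)
    rcases hxi with ⟨hxi, hxR⟩ | ⟨hxi, hxR⟩ <;> rcases hyj with ⟨hyj, hyR⟩ | ⟨hyj, hyR⟩
    · rw [hxi, hyj]
      obtain ⟨h3, h4⟩ := same (x + y) _ i j hA ha0 hi hj (R.add_mem hxR hyR) (by abel)
      exact htab i (by omega) j (by omega) h3 (Or.inl h4)
    · rw [hxi, hyj]
      exact diff2 x y i j hA hi hj hxR hyR
    · rw [hxi, hyj]
      exact (diff2 y x j i (by rwa [add_comm]) hj hi hyR hxR).symm
    · rw [hxi, hyj]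
      obtain ⟨h3, h4⟩ := same (x + y) _ i j hA ha0 hi hj (R.add_mem hxR hyR) (by
        have e1 : x + γ' + gg e 4 i + (y + γ' + gg e 4 j) =
          (γ' + γ') + (x + y + gg e 4 i + gg e 4 j) := by abel
        rw [e1, h2, zero_add])
      have e1 : (16 ^^^ i) ^^^ (16 ^^^ j) = i ^^^ j := by
        rw [Nat.xor_comm 16 i, Nat.xor_assoc, ← Nat.xor_assoc 16 16, Nat.xor_self, Nat.zero_xor]
      refine htab _ (x32 i hi) _ (x32 j hj) ?_ (Or.inl (by rw [e1]; exact h4))
      intro h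
      rw [h, Nat.xor_self] at e1
      exact h3 (Nat.xor_eq_zero_iff.1 e1.symm))
  refine ⟨(ext h2 F γ').index, ?_, hcol⟩
  have c1 := card_V W
  have c2 := card_V (ext h2 F γ')
  have c3 := card_ext h2 F γ' hγ'F
  have c4 := hF.big W hW
  have c5 : 0 < Nat.card W := Nat.card_pos
  rw [c3, c4, c1] at c2
  have c6 : W.index * Nat.card W = 8 * (ext h2 F γ').index * Nat.card W := by
    rw [c2]
    ring
  exact Nat.eq_of_mul_eq_mul_right c5 c6

end Pool.Agent.Lib.MP_b63a06_co.FR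
end

section
set_option autoImplicit false

/-!
# MP_b63a06_co, module CTW (helper20)

`3 M / 4` colours from a light conflict of centres.
-/

namespace Pool.Agent.Lib.MP_b63a06_co.FR

open Pool.Agent.Lib.MP_b63a06_co

namespace CTWM

theorem EE_lt : ∀ i ∈ EE, i < 16 := by decide

theorem EE_inv : ∀ i ∈ EE, (∀ k ∈ EE, i ^^^ k ∈ EE) → i = 0 := by decide

theorem split64 : ∀ w < 64, ∃ t < 4, ∃ k < 16, w = 16 * t ^^^ k := by decide

theorem join64 : ∀ t < 4, ∀ k < 16, 16 * t ^^^ k < 64 := by decide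

theorem ne16 : ∀ k < 16, 16 ^^^ k ≠ 0 ∧ 32 ^^^ k ≠ 0 ∧ 48 ^^^ k ≠ 0 := by decide

theorem lt16 {i j : ℕ} (hi : i < 16) (hj : j < 16) : i ^^^ j < 16 :=
  Nat.xor_lt_two_pow (n := 4) hi hj

section Group

variable {V : Type} [AddCommGroup V]

theorem gg_mem (F : AddSubgroup V) (e : ℕ → V) (h : ∀ b, b < 4 → e b ∈ F) (i : ℕ) :
    gg e 4 i ∈ F := by
  unfold gg
  refine F.sum_mem fun b hb => ?_
  split_ifs
  · exact h b (Finset.mem_range.1 hb)
  · exact F.zero_mem

/-- the six vectors -/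
def e6 (e : ℕ → V) (α β : V) (b : ℕ) : V := if b = 4 then α else if b = 5 then β else e b

theorem e6_low (e : ℕ → V) (α β : V) (k : ℕ) (hk : k < 16) :
    gg (e6 e α β) 6 k = gg e 4 k := by
  have h4 : k.testBit 4 = false := Nat.testBit_lt_two_pow (by norm_num; exact hk)
  have h5 : k.testBit 5 = false := Nat.testBit_lt_two_pow (by norm_num; omega)
  rw [gg_succ, gg_succ, h4, h5]
  simp only [Bool.false_eq_true, if_false, add_zero]
  refine gg_congr _ _ _ _ fun b hb => ?_
  unfold e6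
  rw [if_neg (by omega), if_neg (by omega)]

/-- the four translations -/
def tt (α β : V) (t : ℕ) : V :=
  if t = 0 then 0 else if t = 1 then α else if t = 2 then β else α + β

theorem e6_high (h2 : Two V) (e : ℕ → V) (α β : V) (t : ℕ) (ht : t < 4) :
    gg (e6 e α β) 6 (16 * t) = tt α β t := by
  have h16 : gg (e6 e α β) 6 16 = α := by
    have := gg_pow (e6 e α β) 6 4 (by norm_num)
    norm_num at this
    rw [this]
    rfl
  have h32 : gg (e6 e α β) 6 32 = β := by
    have := gg_pow (e6 e α β) 6 5 (by norm_num)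
    norm_num at this
    rw [this]
    rfl
  have h48 : gg (e6 e α β) 6 48 = α + β := by
    have e1 : (48 : ℕ) = 16 ^^^ 32 := by decide
    rw [e1, gg_xor h2, h16, h32]
  have hcases : t = 0 ∨ t = 1 ∨ t = 2 ∨ t = 3 := by omega
  rcases hcases with rfl | rfl | rfl | rfl
  · exact gg_zero _ _
  · exact h16
  · exact h32
  · exact h48

theorem e6_split (h2 : Two V) (e : ℕ → V) (α β : V) (t k : ℕ) (ht : t < 4) (hk : k < 16) :
    gg (e6 e α β) 6 (16 * t ^^^ k) = tt α β t + gg e 4 k := by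
  rw [gg_xor h2, e6_high h2 e α β t ht, e6_low e α β k hk]

end Group

section Main

variable {V : Type} [AddCommGroup V] [Fintype V] [DecidableEq V]

theorem cen_mem {A : Finset V} {F : AddSubgroup V} {e : ℕ → V} {α : V} (h : Cen A F e α) :
    α ∈ A := by
  have h3 := (h α).2 ⟨0, by decide, by rw [gg_zero, add_zero]⟩
  exact h3.1

theorem cen_notMem (h2 : Two V) {A : Finset V} (h0 : (0 : V) ∈ A) {F : AddSubgroup V}
    {e : ℕ → V} (hF : Frame A F e) {α : V} (h : Cen A F e α) (hα : α ∈ F) : α = 0 := by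
  have h3 := (h 0).1 ⟨h0, by rw [zero_add]; exact hα⟩
  obtain ⟨i, hi, hi0⟩ := h3
  have hαi : α = gg e 4 i := h2.eq_of_add hi0.symm
  have h4 : i = 0 := by
    refine EE_inv i hi fun k hk => ?_
    obtain ⟨h5, h6⟩ := (h (α + gg e 4 k)).2 ⟨k, hk, rfl⟩
    have h7 : α + gg e 4 k ∈ F := F.add_mem hα (gg_mem F e hF.mem k)
    obtain ⟨j, hj, hj1⟩ := (hF.cut _).1 ⟨h5, h7⟩
    have h8 : i ^^^ k = j := by
      refine gg_inj h2 e 4 (fun i hi h => hF.inj i hi h) _ _
        (lt16 (EE_lt i hi) (EE_lt k hk)) (EE_lt j hj) ?_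
      rw [gg_xor h2, ← hj1, hαi]
    rw [h8]
    exact hj
  rw [hαi, h4, gg_zero]

theorem sum_notMem (h2 : Two V) {A : Finset V} {F : AddSubgroup V}
    {e : ℕ → V} (hF : Frame A F e) {α β : V} (ha : Cen A F e α) (hb : Cen A F e β)
    (hαβ : α + β ∈ F) : α = β := by
  have hbA := cen_mem hb
  obtain ⟨i, hi, hi1⟩ := (ha β).1 ⟨hbA, by rw [add_comm]; exact hαβ⟩
  have h4 : i = 0 := by
    refine EE_inv i hi fun k hk => ?_
    obtain ⟨h5, h6⟩ := (hb (β + gg e 4 k)).2 ⟨k, hk, rfl⟩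
    have h7 : β + gg e 4 k + α ∈ F := by
      have h8 := F.add_mem hαβ (gg_mem F e hF.mem k)
      have e1 : β + gg e 4 k + α = α + β + gg e 4 k := by abel
      rwa [e1]
    obtain ⟨j, hj, hj1⟩ := (ha _).1 ⟨h5, h7⟩
    have h8 : i ^^^ k = j := by
      refine gg_inj h2 e 4 (fun i hi h => hF.inj i hi h) _ _
        (lt16 (EE_lt i hi) (EE_lt k hk)) (EE_lt j hj) ?_
      rw [hi1, add_assoc] at hj1
      rw [gg_xor h2]
      exact add_left_cancel hj1
    rw [h8]
    exact hj
  rw [hi1, h4, gg_zero, add_zero]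

theorem main (h2 : Two V) {A : Finset V} {F : AddSubgroup V}
    {e : ℕ → V} {α β : V} {R : AddSubgroup V} (hc : Conf1 A F e α β) (hR : Cpl F e R)
    (hq : ∀ q ∈ QQ A F (α + β), q ∉ R) (w : ℕ) (hw : w < 64) (a : V) (haA : a ∈ A) (ha0 : a ≠ 0)
    (haR : a + gg (e6 e α β) 6 w ∈ R) :
    w ≠ 0 ∧ (w ∈ EE ∨ (∃ k ∈ EE, w = 16 ^^^ k) ∨
    (∃ k ∈ EE, w = 32 ^^^ k) ∨ ∃ k, 0 < k ∧ k < 16 ∧ w = 48 ^^^ k) := by
  obtain ⟨t, ht, k, hk, rfl⟩ := split64 w hw
  rw [e6_split h2 e α β t k ht hk] at haR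
  have hkF := gg_mem F e hc.fr.mem k
  have hF1 : a + tt α β t ∈ F := by
    have h3 := F.add_mem (hR.le haR) hkF
    rwa [← add_assoc, h2.cancel'] at h3
  -- the common step
  have step : ∀ j ∈ EE, a + tt α β t = gg e 4 j → j = k := by
    intro j hj hj1
    rw [← add_assoc, hj1, ← gg_xor h2] at haR
    exact Nat.xor_eq_zero_iff.1 (hR.dj _ (lt16 (EE_lt j hj) hk) haR)
  have hcases : t = 0 ∨ t = 1 ∨ t = 2 ∨ t = 3 := by omega
  rcases hcases with rfl | rfl | rfl | rfl
  · have e0 : tt α β 0 = 0 := rfl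
    rw [e0, add_zero] at hF1
    obtain ⟨j, hj, hj1⟩ := (hc.fr.cut a).1 ⟨haA, hF1⟩
    have h3 := step j hj (by rw [e0, add_zero]; exact hj1)
    have e1 : 16 * 0 ^^^ k = k := by simp
    rw [e1]
    refine ⟨?_, Or.inl (by rw [← h3]; exact hj)⟩
    intro hk0
    rw [h3, hk0, gg_zero] at hj1
    exact ha0 hj1
  · have e0 : tt α β 1 = α := rfl
    rw [e0] at hF1
    obtain ⟨j, hj, hj1⟩ := (hc.ca a).1 ⟨haA, hF1⟩
    have h3 := step j hj (by rw [e0, hj1, add_comm, h2.cancel])
    refine ⟨(ne16 k hk).1, Or.inr (Or.inl ⟨k, by rw [← h3]; exact hj, rfl⟩)⟩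
  · have e0 : tt α β 2 = β := rfl
    rw [e0] at hF1
    obtain ⟨j, hj, hj1⟩ := (hc.cb a).1 ⟨haA, hF1⟩
    have h3 := step j hj (by rw [e0, hj1, add_comm, h2.cancel])
    refine ⟨(ne16 k hk).2.1, Or.inr (Or.inr (Or.inl ⟨k, by rw [← h3]; exact hj, rfl⟩))⟩
  · have e0 : tt α β 3 = α + β := rfl
    rw [e0] at hF1
    refine ⟨(ne16 k hk).2.2, Or.inr (Or.inr (Or.inr ⟨k, ?_, hk, rfl⟩))⟩
    rcases Nat.eq_zero_or_pos k with h | h
    · exfalso
      rw [h, gg_zero, add_zero, e0] at haR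
      refine hq (a + (α + β)) ?_ haR
      rw [mem_QQ]
      refine ⟨hF1, ?_⟩
      rw [add_comm a, h2.cancel]
      exact haA
    · exact h

end Main

end CTWM

open CTWM in
theorem specCTW (hTBB : SpecTBB) (hCOL : SpecCOL) : SpecCTW := by
  classical
  intro V _ _ _ h2 A h0 F e α β R hc hR hq W hW
  obtain ⟨ct, hct, htab⟩ := hTBB
  have hαF : α ∉ F := by
    intro h
    have h3 := cen_notMem h2 h0 hc.fr hc.ca h
    apply hc.no
    rw [h3, zero_add]
    exact cen_mem hc.cb
  have hβF : β ∉ F := by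
    intro h
    have h3 := cen_notMem h2 h0 hc.fr hc.cb h
    apply hc.no
    rw [h3, add_zero]
    exact cen_mem hc.ca
  have hβE : β ∉ ext h2 F α := by
    rintro (h | h)
    · exact hβF h
    · rw [add_comm] at h
      have h3 := sum_notMem h2 hc.fr hc.ca hc.cb h
      apply hc.no
      rw [h3, h2]
      exact h0
  -- the index function
  have hu : ∀ x : V, ∃ u : ℕ, x ∈ ext h2 (ext h2 F α) β →
      u < 64 ∧ x + gg (e6 e α β) 6 u ∈ R := by
    intro x
    by_cases hx : x ∈ ext h2 (ext h2 F α) β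
    · have mk : ∀ t < 4, x + tt α β t ∈ F → ∃ u : ℕ, x ∈ ext h2 (ext h2 F α) β →
          u < 64 ∧ x + gg (e6 e α β) 6 u ∈ R := by
        intro t ht hxt
        obtain ⟨i, hi, hiR⟩ := hR.gen _ hxt
        refine ⟨16 * t ^^^ i, fun _ => ⟨join64 t ht i hi, ?_⟩⟩
        rw [e6_split h2 e α β t i ht hi, ← add_assoc]
        exact hiR
      rcases hx with (hx | hx) | (hx | hx)
      · exact mk 0 (by norm_num) (by
          have e0 : tt α β 0 = 0 := rfl
          rw [e0, add_zero]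
          exact hx)
      · exact mk 1 (by norm_num) hx
      · exact mk 2 (by norm_num) hx
      · exact mk 3 (by norm_num) (by
          have e0 : tt α β 3 = α + β := rfl
          rw [e0, add_comm α β, ← add_assoc]
          exact hx)
    · exact ⟨0, fun h => absurd h hx⟩
  choose u hu using hu
  have hcol := hCOL V h2 A (ext h2 (ext h2 F α) β) 12 (fun x => ct (u x)) (fun x _ => hct _) (by
    intro x hx y hy hxy hA
    have ha0 : x + y ≠ 0 := fun h => hxy (h2.eq_of_add h)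
    obtain ⟨hu1, hu2⟩ := hu x hx
    obtain ⟨hv1, hv2⟩ := hu y hy
    have hR2 := R.add_mem hu2 hv2
    have e1 : x + gg (e6 e α β) 6 (u x) + (y + gg (e6 e α β) 6 (u y)) =
        x + y + gg (e6 e α β) 6 (u x ^^^ u y) := by
      rw [gg_xor h2]
      abel
    rw [e1] at hR2
    obtain ⟨h3, h4⟩ := main h2 hc hR hq _ (Nat.xor_lt_two_pow (n := 6) hu1 hv1) (x + y) hA ha0 hR2
    refine htab _ hu1 _ hv1 ?_ h4
    intro h
    rw [h, Nat.xor_self] at h3
    exact h3 rfl)
  refine ⟨(ext h2 (ext h2 F α) β).index, ?_, hcol⟩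
  have c1 := card_V W
  have c2 := card_V (ext h2 (ext h2 F α) β)
  have c3 := card_ext h2 (ext h2 F α) β hβE
  have c3' := card_ext h2 F α hαF
  have c4 := hc.fr.big W hW
  have c5 : 0 < Nat.card W := Nat.card_pos
  rw [c3, c3', c4, c1] at c2
  have c6 : W.index * Nat.card W = 16 * (ext h2 (ext h2 F α) β).index * Nat.card W := by
    rw [c2]
    ring
  exact Nat.eq_of_mul_eq_mul_right c5 c6

end Pool.Agent.Lib.MP_b63a06_co.FR
end

section
set_option autoImplicit false

/-!
# MP_b63a06_co: module EXH of `FR/Spec.lean` (a hyperplane that contains a given subgroup)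
-/

namespace Pool.Agent.Lib.MP_b63a06_co.FR

open Pool.Agent.Lib.MP_b63a06_co

theorem specEXH : SpecEXH := by
  intro V _ _ h2 W S x hSW hx hxS
  classical
  let P : AddSubgroup V → Prop := fun U => U ≤ W ∧ S ≤ U ∧ x ∉ U
  have hP : ∃ U, P U := ⟨S, hSW, le_refl S, hxS⟩
  have hfin : {U : AddSubgroup V | P U}.Finite := Set.toFinite _
  obtain ⟨U, hU, hmax⟩ := Set.exists_max_image {U : AddSubgroup V | P U} (fun U => Nat.card U)
    hfin hP
  obtain ⟨hUW, hSU, hxU⟩ := hU
  refine ⟨U, ⟨hUW, hx, hxU, ?_⟩, hSU⟩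
  intro y hy
  by_contra hcon
  push Not at hcon
  obtain ⟨h1, h3⟩ := hcon
  have h4 : P (ext h2 U y) := by
    refine ⟨?_, hSU.trans (le_ext h2 U y), ?_⟩
    · rintro v (hv | hv)
      · exact hUW hv
      · have h5 := W.add_mem (hUW hv) hy
        rwa [h2.cancel' y v] at h5
    · rintro (h5 | h5)
      · exact hxU h5
      · rw [add_comm] at h5
        exact h3 h5
  have h5 := hmax _ h4
  rw [card_ext h2 U y h1] at h5
  have h6 : 0 < Nat.card U := Nat.card_pos
  omega

end Pool.Agent.Lib.MP_b63a06_co.FR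
end

section
set_option autoImplicit false

/-!
# MP_b63a06_co, module FLP: the flip of a frame (helper96)
-/

namespace Pool.Agent.Lib.MP_b63a06_co.FR

open Pool.Agent.Lib.MP_b63a06_co

namespace FLPM

section Group

variable {V : Type} [AddCommGroup V]

open Classical in
/-- the flip of an element -/
noncomputable def ph (F₁ : AddSubgroup V) (γ x : V) : V := if x ∈ F₁ then x else γ + x

theorem ph_in (F₁ : AddSubgroup V) (γ x : V) (h : x ∈ F₁) : ph F₁ γ x = x := by
  unfold ph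
  rw [if_pos h]

theorem ph_out (F₁ : AddSubgroup V) (γ x : V) (h : x ∉ F₁) : ph F₁ γ x = γ + x := by
  unfold ph
  rw [if_neg h]

theorem fl_eq (F₁ : AddSubgroup V) (γ : V) (e : ℕ → V) (b : ℕ) : fl F₁ γ e b = ph F₁ γ (e b) := by
  unfold fl ph
  split_ifs <;> rfl

variable (h2 : Two V) {F F₁ : AddSubgroup V} {w : V} (hy : Hyp F F₁ w) (γ : V)

include h2 hy in
theorem out_add {x y : V} (hx : x ∈ F) (hy' : y ∈ F) (hx1 : x ∉ F₁) (hy1 : y ∉ F₁) :
    x + y ∈ F₁ := by
  have h1 := (hy.or x hx).resolve_left hx1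
  have h3 := (hy.or y hy').resolve_left hy1
  have h4 := F₁.add_mem h1 h3
  have e : x + w + (y + w) = x + y + (w + w) := by abel
  rwa [e, h2 w, add_zero] at h4

include h2 hy in
theorem ph_add {x y : V} (hx : x ∈ F) (hy' : y ∈ F) :
    ph F₁ γ (x + y) = ph F₁ γ x + ph F₁ γ y := by
  by_cases h1 : x ∈ F₁ <;> by_cases h3 : y ∈ F₁
  · rw [ph_in _ _ _ h1, ph_in _ _ _ h3, ph_in _ _ _ (F₁.add_mem h1 h3)]
  · have h4 : x + y ∉ F₁ := fun h => h3 (by
      have h5 := F₁.add_mem h1 h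
      rwa [h2.cancel x y] at h5)
    rw [ph_in _ _ _ h1, ph_out _ _ _ h3, ph_out _ _ _ h4]
    abel
  · have h4 : x + y ∉ F₁ := fun h => h1 (by
      have h5 := F₁.add_mem h h3
      rwa [h2.cancel' y x] at h5)
    rw [ph_out _ _ _ h1, ph_in _ _ _ h3, ph_out _ _ _ h4]
    abel
  · rw [ph_out _ _ _ h1, ph_out _ _ _ h3, ph_in _ _ _ (out_add h2 hy hx hy' h1 h3)]
    have e : γ + x + (γ + y) = x + y + (γ + γ) := by abel
    rw [e, h2 γ, add_zero]

theorem ph_zero : ph F₁ γ 0 = 0 := ph_in _ _ _ F₁.zero_mem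

theorem gg_mem (e : ℕ → V) (n : ℕ) (he : ∀ b < n, e b ∈ F) (i : ℕ) : gg e n i ∈ F := by
  unfold gg
  refine F.sum_mem fun b hb => ?_
  split_ifs
  · exact he b (Finset.mem_range.1 hb)
  · exact F.zero_mem

include h2 hy in
theorem gg_fl (e : ℕ → V) (n : ℕ) (he : ∀ b < n, e b ∈ F) (i : ℕ) :
    gg (fl F₁ γ e) n i = ph F₁ γ (gg e n i) := by
  induction n with
  | zero =>
    unfold gg
    rw [Finset.range_zero, Finset.sum_empty, Finset.sum_empty, ph_zero]
  | succ n ih =>
    rw [gg_succ, gg_succ, ih fun b hb => he b (by omega)]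
    by_cases h : i.testBit n
    · rw [if_pos h, if_pos h, fl_eq, ph_add h2 hy γ (gg_mem e n (fun b hb => he b (by omega)) i)
        (he n (by omega))]
    · rw [if_neg h, if_neg h, add_zero, add_zero]

include h2 hy in
theorem mem_flip (x : V) : x ∈ ext h2 F₁ (γ + w) ↔ x ∈ F₁ ∨ (x + γ ∈ F ∧ x + γ ∉ F₁) := by
  rw [mem_ext]
  have e : x + (γ + w) = x + γ + w := by abel
  rw [e]
  constructor
  · rintro (h | h)
    · exact Or.inl h
    · right
      constructor
      · have h1 := F.add_mem (hy.le h) hy.mem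
        rwa [h2.cancel' w] at h1
      · intro h1
        apply hy.notMem
        have h3 := F₁.add_mem h1 h
        rwa [h2.cancel] at h3
  · rintro (h | ⟨h, h1⟩)
    · exact Or.inl h
    · exact Or.inr ((hy.or _ h).resolve_left h1)

include h2 hy in
theorem ph_mem {x : V} (hx : x ∈ F) : ph F₁ γ x ∈ ext h2 F₁ (γ + w) := by
  rw [mem_flip h2 hy γ]
  by_cases h : x ∈ F₁
  · rw [ph_in _ _ _ h]
    exact Or.inl h
  · rw [ph_out _ _ _ h]
    right
    have e : γ + x + γ = x := by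
      have e1 : γ + x + γ = x + (γ + γ) := by abel
      rw [e1, h2 γ, add_zero]
    rw [e]
    exact ⟨hx, h⟩

end Group

end FLPM

open FLPM

theorem specFLP : SpecFLP := by
  intro V _ _ _ h2 A h0 F e γ hF hγ hγF F₁ w hy
  have hgm : ∀ i, gg e 4 i ∈ F := gg_mem e 4 hF.mem
  have hgf : ∀ i, gg (fl F₁ γ e) 4 i = ph F₁ γ (gg e 4 i) := gg_fl h2 hy γ e 4 hF.mem
  have hcc : ∀ a b : V, a + b + a = b := by
    intro a b
    have e1 : a + b + a = b + (a + a) := by abel
    rw [e1, h2 a, add_zero]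
  refine ⟨⟨?_, ?_, ?_, ?_⟩, ?_, ?_⟩
  · intro b hb
    rw [fl_eq]
    exact ph_mem h2 hy γ (hF.mem b hb)
  · intro i hi h
    rw [hgf] at h
    apply hF.inj i hi
    by_cases h1 : gg e 4 i ∈ F₁
    · rwa [ph_in _ _ _ h1] at h
    · rw [ph_out _ _ _ h1] at h
      exact absurd (by rw [h2.eq_of_add h]; exact hgm i) hγF
  · intro a
    constructor
    · rintro ⟨ha, haF⟩
      rcases (mem_flip h2 hy γ a).1 haF with h | ⟨h, h1⟩
      · obtain ⟨i, hi, hai⟩ := (hF.cut a).1 ⟨ha, hy.le h⟩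
        refine ⟨i, hi, ?_⟩
        rw [hgf, ph_in _ _ _ (by rw [← hai]; exact h)]
        exact hai
      · obtain ⟨i, hi, hai⟩ := (hγ a).1 ⟨ha, h⟩
        refine ⟨i, hi, ?_⟩
        have h3 : a + γ = gg e 4 i := by rw [hai, hcc]
        rw [hgf, ph_out _ _ _ (by rw [← h3]; exact h1)]
        exact hai
    · rintro ⟨i, hi, rfl⟩
      rw [hgf]
      refine ⟨?_, ph_mem h2 hy γ (hgm i)⟩
      by_cases h : gg e 4 i ∈ F₁
      · rw [ph_in _ _ _ h]
        exact ((hF.cut _).2 ⟨i, hi, rfl⟩).1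
      · rw [ph_out _ _ _ h]
        exact ((hγ _).2 ⟨i, hi, rfl⟩).1
  · intro W hW
    have hout : γ + w ∉ F₁ := by
      intro h
      apply hγF
      have h1 := F.add_mem (hy.le h) hy.mem
      rwa [h2.cancel' w γ] at h1
    have h3 : ext h2 F₁ w = F := by
      apply le_antisymm
      · rintro x (hx | hx)
        · exact hy.le hx
        · have h3 := F.add_mem (hy.le hx) hy.mem
          rwa [h2.cancel' w x] at h3
      · intro x hx
        exact hy.or x hx
    rw [card_ext h2 F₁ (γ + w) hout, ← card_ext h2 F₁ w hy.notMem, h3]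
    exact hF.big W hW
  · intro α hα hq a
    constructor
    · rintro ⟨ha, haF⟩
      rcases (mem_flip h2 hy γ _).1 haF with h | ⟨h, h1⟩
      · obtain ⟨i, hi, hai⟩ := (hα a).1 ⟨ha, hy.le h⟩
        refine ⟨i, hi, ?_⟩
        have h3 : a + α = gg e 4 i := by rw [hai, hcc]
        rw [hgf, ph_in _ _ _ (by rw [← h3]; exact h)]
        exact hai
      · have h3 : α + γ + (a + α + γ) = a := by
          have e1 : α + γ + (a + α + γ) = a + (α + α) + (γ + γ) := by abel
          rw [e1, h2 α, h2 γ, add_zero, add_zero]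
        obtain ⟨i, hi, hi1, hai⟩ := (hq (a + α + γ)).1 ⟨(mem_QQ A F _ _).2 ⟨h, by
          rw [h3]
          exact ha⟩, h1⟩
        refine ⟨i, hi, ?_⟩
        rw [hgf, ph_out _ _ _ hi1, ← add_assoc, ← hai]
        exact h3.symm
    · rintro ⟨i, hi, rfl⟩
      rw [hgf]
      have h4 : α + ph F₁ γ (gg e 4 i) + α = ph F₁ γ (gg e 4 i) := hcc _ _
      refine ⟨?_, by rw [h4]; exact ph_mem h2 hy γ (hgm i)⟩
      by_cases h : gg e 4 i ∈ F₁
      · rw [ph_in _ _ _ h]
        exact ((hα _).2 ⟨i, hi, rfl⟩).1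
      · rw [ph_out _ _ _ h, ← add_assoc]
        exact ((mem_QQ A F _ _).1 ((hq (gg e 4 i)).2 ⟨i, hi, h, rfl⟩).1).2
  · intro v
    have h1 : ((QQ A (ext h2 F₁ (γ + w)) v : Finset V) : Set V) =
        {q | q ∈ QQ A F v ∧ q ∈ F₁} ∪ (fun q => γ + q) '' {q | q ∈ QQ A F (v + γ) ∧ q ∉ F₁} := by
      ext q
      simp only [Finset.mem_coe, mem_QQ, Set.mem_union, Set.mem_image]
      rw [mem_flip h2 hy γ]
      constructor
      · rintro ⟨h | ⟨h, h1⟩, h3⟩
        · exact Or.inl ⟨⟨hy.le h, h3⟩, h⟩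
        · right
          refine ⟨q + γ, ⟨⟨h, ?_⟩, h1⟩, ?_⟩
          · have e1 : v + γ + (q + γ) = v + q + (γ + γ) := by abel
            rw [e1, h2 γ, add_zero]
            exact h3
          · have e1 : γ + (q + γ) = q + (γ + γ) := by abel
            rw [e1, h2 γ, add_zero]
      · rintro (⟨⟨h, h3⟩, h4⟩ | ⟨p, ⟨⟨h, h3⟩, h4⟩, rfl⟩)
        · exact ⟨Or.inl h4, h3⟩
        · refine ⟨Or.inr ?_, ?_⟩
          · rw [hcc γ p]
            exact ⟨h, h4⟩
          · rw [← add_assoc]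
            exact h3
    have hd : Disjoint {q | q ∈ QQ A F v ∧ q ∈ F₁}
        ((fun q => γ + q) '' {q | q ∈ QQ A F (v + γ) ∧ q ∉ F₁}) := by
      rw [Set.disjoint_left]
      rintro x ⟨-, hx⟩ ⟨p, ⟨hp, -⟩, rfl⟩
      apply hγF
      have h3 := F.add_mem (hy.le hx) ((mem_QQ A F _ _).1 hp).1
      rwa [h2.cancel' p γ] at h3
    rw [← Set.ncard_coe_finset, h1, Set.ncard_union_eq hd (Set.toFinite _) (Set.toFinite _),
      Set.ncard_image_of_injective _ (add_right_injective γ)]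

end Pool.Agent.Lib.MP_b63a06_co.FR
end

section
/-!
# MP_b63a06_co: patterns with at most seven elements (helper65)
-/
set_option autoImplicit false

namespace Pool.Agent.Lib.MP_b63a06_co.FR

namespace FNAM

/-- The cosets of the lines, with their masks. -/
def cosT : List (ℕ × ℕ × ℕ × ℕ × ℕ) :=
  [(105, 0, 3, 5, 6), (1545, 0, 3, 9, 10), (24585, 0, 3, 13, 14), (4641, 0, 5, 9, 12),
   (18465, 0, 5, 11, 14), (5185, 0, 6, 10, 12), (10305, 0, 6, 11, 13), (17025, 0, 7, 9, 14),
   (9345, 0, 7, 10, 13), (6273, 0, 7, 11, 12), (150, 1, 2, 4, 7), (2310, 1, 2, 8, 11),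
   (36870, 1, 2, 12, 15), (8466, 1, 4, 8, 13), (33810, 1, 4, 10, 15), (33090, 1, 6, 8, 15),
   (9282, 1, 6, 10, 13), (6210, 1, 6, 11, 12), (5250, 1, 7, 10, 12), (10370, 1, 7, 11, 13),
   (16660, 2, 4, 8, 14), (33300, 2, 4, 9, 15), (33060, 2, 5, 8, 15), (16932, 2, 5, 9, 14),
   (6180, 2, 5, 11, 12), (4740, 2, 7, 9, 12), (18564, 2, 7, 11, 14), (33048, 3, 4, 8, 15),
   (16920, 3, 4, 9, 14), (9240, 3, 4, 10, 13), (16680, 3, 5, 8, 14), (33320, 3, 5, 9, 15),
   (8520, 3, 6, 8, 13), (33864, 3, 6, 10, 15), (1680, 4, 7, 9, 10), (24720, 4, 7, 13, 14),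
   (2400, 5, 6, 8, 11), (36960, 5, 6, 12, 15), (26880, 8, 11, 13, 14), (38400, 9, 10, 12, 15)]

/-- The masks of the translates of `EE`. -/
def sixT : List (ℕ × ℕ) :=
  [(33047, 0), (16939, 1), (9293, 2), (6286, 3), (6257, 4), (9394, 5), (17108, 6), (33256, 7),
   (6017, 8), (11074, 9), (19748, 10), (36376, 11), (28952, 12), (45604, 13), (54338, 14),
   (59521, 15)]

/-- The masks of the translates of the elements of `TT`. -/
def sevT : List (ℕ × ℕ × ℕ) :=
  [(855, 0, 24), (939, 1, 24), (981, 6, 21), (1002, 7, 21), (1335, 0, 23), (1459, 5, 20),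
   (1485, 2, 23), (1516, 7, 20), (1955, 8, 17), (1989, 8, 18), (2619, 1, 23), (2675, 4, 20),
   (2766, 3, 23), (2780, 6, 20), (2899, 9, 17), (3018, 9, 18), (3165, 2, 24), (3189, 4, 21),
   (3246, 3, 24), (3258, 5, 21), (3381, 10, 18), (3500, 10, 17), (3642, 11, 18),
   (3676, 11, 17), (4383, 0, 22), (4495, 3, 19), (4593, 4, 22), (4600, 7, 19), (5003, 8, 14),
   (5073, 8, 15), (5517, 8, 11), (5553, 8, 12), (6019, 8, 4), (6021, 8, 5), (6025, 8, 6),
   (6033, 8, 7), (6049, 8, 8), (6081, 8, 9), (6175, 3, 16), (6203, 4, 13), (6237, 4, 10),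
   (6259, 4, 1), (6261, 4, 2), (6265, 4, 3), (6287, 3, 0), (6302, 3, 3), (6318, 3, 2),
   (6330, 3, 10), (6350, 3, 1), (6364, 3, 13), (6385, 4, 0), (6392, 4, 16), (6513, 4, 7),
   (6542, 3, 6), (6769, 4, 8), (6798, 3, 5), (6993, 4, 12), (7050, 3, 11), (7281, 4, 9),
   (7310, 3, 4), (7473, 4, 15), (7564, 3, 14), (7953, 8, 22), (7960, 11, 16), (8065, 8, 0),
   (8072, 8, 19), (8751, 1, 22), (8783, 2, 19), (8946, 5, 22), (8948, 6, 19), (9031, 9, 14),
   (9186, 9, 15), (9263, 2, 16), (9271, 5, 13), (9295, 2, 0), (9309, 2, 2), (9325, 2, 3),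
   (9333, 2, 10), (9390, 5, 10), (9395, 5, 1), (9398, 5, 3), (9402, 5, 2), (9421, 2, 1),
   (9452, 2, 13), (9458, 5, 0), (9460, 5, 16), (9549, 2, 5), (9650, 5, 8), (9805, 2, 6),
   (9906, 5, 7), (10053, 2, 11), (10146, 5, 12), (10830, 9, 11), (10866, 9, 12), (11075, 9, 4),
   (11078, 9, 6), (11082, 9, 5), (11090, 9, 8), (11106, 9, 7), (11202, 9, 9), (11341, 2, 4),
   (11442, 5, 9), (11826, 5, 15), (11852, 2, 14), (12066, 9, 22), (12068, 10, 16),
   (12098, 9, 0), (12100, 9, 19), (12381, 2, 21), (12405, 4, 24), (12462, 3, 21),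
   (12474, 5, 24), (12573, 12, 15), (12728, 12, 14), (12846, 13, 15), (12916, 13, 14),
   (13389, 2, 9), (13490, 5, 4), (13581, 2, 18), (13744, 5, 17), (14085, 8, 23),
   (14116, 13, 13), (14209, 8, 1), (14240, 8, 20), (14449, 4, 4), (14478, 3, 9),
   (14862, 3, 18), (14960, 4, 17), (15114, 9, 23), (15128, 12, 13), (15170, 9, 1),
   (15184, 9, 20), (16943, 1, 0), (16955, 1, 1), (16975, 1, 16), (16983, 6, 10), (17003, 1, 3),
   (17011, 1, 13), (17067, 1, 2), (17102, 6, 13), (17109, 6, 2), (17110, 6, 3), (17116, 6, 1),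
   (17130, 1, 10), (17138, 6, 16), (17140, 6, 0), (17195, 1, 4), (17364, 6, 9), (17455, 1, 19),
   (17487, 2, 22), (17650, 5, 19), (17652, 6, 22), (17703, 10, 11), (17892, 10, 12),
   (17963, 1, 6), (18132, 6, 7), (18211, 1, 14), (18372, 6, 15), (18987, 1, 5), (19156, 6, 8),
   (19502, 10, 14), (19572, 10, 15), (19749, 10, 5), (19750, 10, 6), (19756, 10, 4),
   (19764, 10, 9), (19812, 10, 7), (19876, 10, 8), (20010, 1, 11), (20052, 6, 12),
   (20258, 10, 19), (20260, 10, 0), (20290, 9, 16), (20292, 10, 22), (20539, 1, 20),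
   (20595, 4, 23), (20686, 3, 20), (20700, 6, 23), (20763, 12, 12), (20952, 12, 11),
   (21035, 1, 8), (21204, 6, 5), (21259, 1, 17), (21456, 6, 18), (21582, 14, 12),
   (21618, 14, 11), (22275, 8, 24), (22338, 14, 10), (22401, 8, 2), (22464, 8, 21),
   (22641, 4, 5), (22670, 3, 8), (23566, 3, 17), (23664, 4, 18), (23820, 10, 24),
   (23832, 12, 10), (23844, 10, 2), (23856, 10, 21), (25131, 1, 7), (25300, 6, 6),
   (25677, 2, 7), (25778, 5, 6), (27458, 9, 3), (27940, 10, 3), (28730, 12, 17),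
   (28764, 12, 18), (28953, 12, 7), (28954, 12, 8), (28956, 12, 9), (28984, 12, 4),
   (29016, 12, 5), (29080, 12, 6), (29226, 1, 12), (29268, 6, 11), (29450, 12, 20),
   (29464, 12, 1), (29506, 9, 13), (29520, 12, 23), (29746, 5, 14), (29772, 2, 15),
   (29964, 12, 21), (29976, 12, 2), (29988, 10, 10), (30000, 12, 24), (31000, 12, 3),
   (33055, 0, 0), (33079, 0, 1), (33111, 0, 2), (33167, 0, 16), (33175, 0, 3), (33195, 7, 10),
   (33203, 0, 13), (33229, 7, 13), (33237, 0, 10), (33257, 7, 3), (33258, 7, 2), (33260, 7, 1),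
   (33265, 7, 16), (33272, 7, 0), (33559, 0, 4), (33768, 7, 9), (34071, 0, 5), (34280, 7, 8),
   (34847, 0, 19), (34959, 3, 22), (35057, 4, 19), (35064, 7, 22), (35095, 0, 6),
   (35304, 7, 7), (35355, 11, 11), (35544, 11, 12), (35603, 0, 14), (35784, 7, 15),
   (35869, 11, 14), (36024, 11, 15), (36117, 0, 11), (36264, 7, 12), (36377, 11, 6),
   (36378, 11, 5), (36380, 11, 4), (36408, 11, 9), (36440, 11, 8), (36504, 11, 7),
   (36625, 11, 19), (36632, 11, 0), (36737, 8, 16), (36744, 11, 22), (37143, 0, 7),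
   (37352, 7, 6), (38785, 8, 3), (39025, 4, 6), (39054, 3, 7), (40472, 11, 3), (41015, 0, 20),
   (41139, 5, 23), (41165, 2, 20), (41196, 7, 23), (41239, 0, 8), (41448, 7, 5),
   (41511, 13, 12), (41700, 13, 11), (41735, 0, 17), (41952, 7, 18), (42061, 2, 8),
   (42162, 5, 5), (43149, 15, 12), (43185, 15, 11), (43779, 9, 24), (43842, 9, 2),
   (43905, 15, 10), (43968, 9, 21), (44045, 2, 17), (44208, 5, 18), (44556, 11, 24),
   (44568, 11, 2), (44580, 13, 10), (44592, 11, 21), (45109, 13, 17), (45228, 13, 18),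
   (45333, 0, 12), (45480, 7, 11), (45605, 13, 8), (45606, 13, 7), (45612, 13, 9),
   (45620, 13, 4), (45668, 13, 6), (45732, 13, 5), (45829, 13, 20), (45860, 13, 1),
   (45953, 8, 13), (45984, 13, 23), (46628, 13, 3), (47153, 4, 14), (47244, 3, 15),
   (47628, 13, 21), (47640, 11, 10), (47652, 13, 2), (47664, 13, 24), (49239, 0, 21),
   (49323, 1, 21), (49365, 6, 24), (49386, 7, 24), (49431, 0, 9), (49640, 7, 4), (49707, 1, 9),
   (49876, 6, 4), (50247, 14, 15), (50402, 14, 14), (50439, 0, 18), (50656, 7, 17),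
   (51339, 15, 15), (51409, 15, 14), (51723, 1, 18), (51920, 6, 17), (52485, 10, 23),
   (52516, 10, 1), (52609, 15, 13), (52640, 10, 20), (52746, 11, 23), (52760, 11, 1),
   (52802, 14, 13), (52816, 11, 20), (53331, 14, 18), (53450, 14, 17), (53523, 0, 15),
   (53704, 7, 14), (54339, 14, 9), (54342, 14, 7), (54346, 14, 8), (54354, 14, 5),
   (54370, 14, 6), (54466, 14, 4), (54531, 14, 21), (54594, 14, 2), (54657, 8, 10),
   (54720, 14, 24), (54850, 14, 3), (55377, 4, 11), (55434, 3, 12), (56330, 14, 20),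
   (56344, 11, 13), (56386, 14, 1), (56400, 14, 23), (57507, 15, 18), (57541, 15, 17),
   (57891, 1, 15), (58052, 6, 14), (58437, 2, 12), (58530, 5, 11), (59523, 15, 9),
   (59525, 15, 8), (59529, 15, 7), (59537, 15, 6), (59553, 15, 5), (59585, 15, 4),
   (59777, 15, 3), (59907, 15, 21), (59970, 9, 10), (60033, 15, 2), (60096, 15, 24),
   (60421, 15, 20), (60452, 10, 13), (60545, 15, 1), (60576, 15, 23), (61713, 12, 22),
   (61720, 12, 0), (61825, 15, 16), (61832, 12, 19), (61986, 13, 22), (61988, 13, 0),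
   (62018, 14, 16), (62020, 13, 19), (62498, 14, 19), (62500, 13, 16), (62530, 14, 0),
   (62532, 14, 22), (63505, 15, 19), (63512, 12, 16), (63617, 15, 0), (63624, 15, 22)]

/-- The check of a leaf. -/
def leaf (m : ℕ) : Bool := sixT.any (fun p => p.1 == m) || sevT.any (fun p => p.1 == m)

/-- The branching: `m` the chosen elements, `ex` the excluded elements. -/
def br : ℕ → ℕ → ℕ → Bool
  | 0, m, _ => match cosT.find? (fun p => (p.1 &&& m) == 0) with
    | none => leaf m
    | some _ => true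
  | n + 1, m, ex => match cosT.find? (fun p => (p.1 &&& m) == 0) with
    | none => leaf m
    | some (_, a, b, c, d) =>
      (ex.testBit a || br n (m ||| 2 ^ a) ex) &&
      ((ex ||| 2 ^ a).testBit b || br n (m ||| 2 ^ b) (ex ||| 2 ^ a)) &&
      ((ex ||| 2 ^ a ||| 2 ^ b).testBit c || br n (m ||| 2 ^ c) (ex ||| 2 ^ a ||| 2 ^ b)) &&
      ((ex ||| 2 ^ a ||| 2 ^ b ||| 2 ^ c).testBit d ||
        br n (m ||| 2 ^ d) (ex ||| 2 ^ a ||| 2 ^ b ||| 2 ^ c))

theorem br_root : br 7 0 0 = true := by decide +kernel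

theorem cos_bits : ∀ p ∈ cosT, p.1.testBit p.2.1 = true ∧ p.1.testBit p.2.2.1 = true ∧
    p.1.testBit p.2.2.2.1 = true ∧ p.1.testBit p.2.2.2.2 = true := by decide +kernel

/-- every element of `cosT` is a coset of a line -/
theorem cos_line : ∀ p ∈ cosT, ∃ i ∈ NF, ∃ j ∈ NF, i ^^^ j ∈ NF ∧ ∃ c < 16,
    c ∈ [p.2.1, p.2.2.1, p.2.2.2.1, p.2.2.2.2] ∧ c ^^^ i ∈ [p.2.1, p.2.2.1, p.2.2.2.1, p.2.2.2.2] ∧
    c ^^^ j ∈ [p.2.1, p.2.2.1, p.2.2.2.1, p.2.2.2.2] ∧
    c ^^^ i ^^^ j ∈ [p.2.1, p.2.2.1, p.2.2.2.1, p.2.2.2.2] := by decide +kernel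

theorem six_spec : ∀ p ∈ sixT, p.2 < 16 ∧ ∀ i < 16, p.1.testBit i = true ↔ (i ^^^ p.2) ∈ EE := by
  decide +kernel

theorem sev_spec : ∀ p ∈ sevT, p.2.1 < 16 ∧ p.2.2 < 25 ∧
    ((List.range 16).filter fun i => p.1.testBit i).length = 7 ∧
    ∀ i < 16, p.1.testBit i = true → (i ^^^ p.2.1) ∈ TT.getD p.2.2 [] := by decide +kernel

theorem ext_spec : ∀ y < 16, ∃ T ∈ TT, (∀ k ∈ EE, k ∈ T) ∧ y ∈ T := by decide +kernel

/-- one step of the branching -/
theorem step {P S : Finset ℕ} {n m ex a : ℕ} (hm : ∀ i, m.testBit i = true ↔ i ∈ S) (hS : S ⊆ P)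
    (hc : P.card ≤ S.card + (n + 1)) (haP : a ∈ P) (haS : a ∉ S)
    (hex : ∀ i, ex.testBit i = true → i ∉ P)
    (IH : ∀ (m ex : ℕ) (S : Finset ℕ), (∀ i, m.testBit i = true ↔ i ∈ S) → S ⊆ P →
      (∀ i, ex.testBit i = true → i ∉ P) → P.card ≤ S.card + n → br n m ex = true →
      ∃ S' ⊆ P, ∃ m', (∀ i, m'.testBit i = true ↔ i ∈ S') ∧ leaf m' = true)
    (hb : (ex.testBit a || br n (m ||| 2 ^ a) ex) = true) :
    ∃ S' ⊆ P, ∃ m', (∀ i, m'.testBit i = true ↔ i ∈ S') ∧ leaf m' = true := by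
  rw [Bool.or_eq_true] at hb
  rcases hb with hb | hb
  · exact absurd haP (hex a hb)
  · refine IH (m ||| 2 ^ a) ex (insert a S) ?_ ?_ hex ?_ hb
    · intro i
      rw [Nat.testBit_or, Bool.or_eq_true, hm, Finset.mem_insert, Nat.testBit_two_pow]
      constructor
      · rintro (h | h)
        · exact Or.inr h
        · exact Or.inl (of_decide_eq_true h).symm
      · rintro (h | h)
        · exact Or.inr (decide_eq_true h.symm)
        · exact Or.inl h
    · exact Finset.insert_subset haP hS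
    · rw [Finset.card_insert_of_notMem haS]
      omega

theorem ex_step {P : Finset ℕ} {ex a : ℕ} (hex : ∀ i, ex.testBit i = true → i ∉ P) (ha : a ∉ P) :
    ∀ i, (ex ||| 2 ^ a).testBit i = true → i ∉ P := by
  intro i hi
  rw [Nat.testBit_or, Bool.or_eq_true, Nat.testBit_two_pow] at hi
  rcases hi with hi | hi
  · exact hex i hi
  · rw [← of_decide_eq_true hi]
    exact ha

theorem not_mem_of {S : Finset ℕ} {m k a : ℕ} (hm : ∀ i, m.testBit i = true ↔ i ∈ S)
    (hk : k.testBit a = true) (h0 : (k &&& m) = 0) : a ∉ S := by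
  intro ha
  have h1 : (k &&& m).testBit a = true := by
    rw [Nat.testBit_and, hk, (hm a).2 ha]
    rfl
  rw [h0, Nat.zero_testBit] at h1
  exact absurd h1 (by decide)

theorem sound {P : Finset ℕ}
    (hit : ∀ p ∈ cosT, p.2.1 ∈ P ∨ p.2.2.1 ∈ P ∨ p.2.2.2.1 ∈ P ∨ p.2.2.2.2 ∈ P) (n : ℕ) :
    ∀ (m ex : ℕ) (S : Finset ℕ), (∀ i, m.testBit i = true ↔ i ∈ S) → S ⊆ P →
      (∀ i, ex.testBit i = true → i ∉ P) → P.card ≤ S.card + n → br n m ex = true →
      ∃ S' ⊆ P, ∃ m', (∀ i, m'.testBit i = true ↔ i ∈ S') ∧ leaf m' = true := by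
  induction n with
  | zero =>
    intro m ex S hm hS hex hc hb
    unfold br at hb
    split at hb
    · exact ⟨S, hS, m, hm, hb⟩
    · rename_i p hp
      exfalso
      have h1 := List.mem_of_find?_eq_some hp
      have h0 : (p.1 &&& m) = 0 := by
        have := List.find?_some hp
        simpa using this
      have hPS : P = S := (Finset.eq_of_subset_of_card_le hS (by omega)).symm
      obtain ⟨b1, b2, b3, b4⟩ := cos_bits p h1
      rcases hit p h1 with h | h | h | h
      · exact not_mem_of hm b1 h0 (hPS ▸ h)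
      · exact not_mem_of hm b2 h0 (hPS ▸ h)
      · exact not_mem_of hm b3 h0 (hPS ▸ h)
      · exact not_mem_of hm b4 h0 (hPS ▸ h)
  | succ n IH =>
    intro m ex S hm hS hex hc hb
    unfold br at hb
    split at hb
    · exact ⟨S, hS, m, hm, hb⟩
    · rename_i k a b c d hp
      have h1 := List.mem_of_find?_eq_some hp
      have h0 : (k &&& m) = 0 := by
        have := List.find?_some hp
        simpa using this
      obtain ⟨b1, b2, b3, b4⟩ := cos_bits _ h1
      rw [Bool.and_eq_true, Bool.and_eq_true, Bool.and_eq_true] at hb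
      obtain ⟨⟨⟨q1, q2⟩, q3⟩, q4⟩ := hb
      by_cases ha : a ∈ P
      · exact step hm hS hc ha (not_mem_of hm b1 h0) hex IH q1
      have hex1 := ex_step hex ha
      by_cases hb' : b ∈ P
      · exact step hm hS hc hb' (not_mem_of hm b2 h0) hex1 IH q2
      have hex2 := ex_step hex1 hb'
      by_cases hc' : c ∈ P
      · exact step hm hS hc hc' (not_mem_of hm b3 h0) hex2 IH q3
      have hex3 := ex_step hex2 hc'
      have hd : d ∈ P := by
        rcases hit _ h1 with h | h | h | h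
        · exact absurd h ha
        · exact absurd h hb'
        · exact absurd h hc'
        · exact h
      exact step hm hS hc hd (not_mem_of hm b4 h0) hex3 IH q4

/-- the conclusion of the branching -/
theorem main {P : Finset ℕ} (hP : ∀ i ∈ P, i < 16)
    (hit : ∀ i ∈ NF, ∀ j ∈ NF, i ^^^ j ∈ NF → ∀ c < 16,
      c ∈ P ∨ c ^^^ i ∈ P ∨ c ^^^ j ∈ P ∨ c ^^^ i ^^^ j ∈ P) (h7 : P.card ≤ 7) :
    ∃ S ⊆ P, (S.card = 6 ∧ ∃ c < 16, ∀ i, i ∈ S ↔ ∃ k ∈ EE, i = c ^^^ k) ∨
      (S.card = 7 ∧ ∃ c < 16, ∃ T ∈ TT, ∀ i ∈ S, i ^^^ c ∈ T) := by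
  have hit' : ∀ p ∈ cosT, p.2.1 ∈ P ∨ p.2.2.1 ∈ P ∨ p.2.2.2.1 ∈ P ∨ p.2.2.2.2 ∈ P := by
    intro p hp
    obtain ⟨i, hi, j, hj, hij, c, hc, m1, m3, m4, m5⟩ := cos_line p hp
    have key : ∀ x, x ∈ [p.2.1, p.2.2.1, p.2.2.2.1, p.2.2.2.2] → x ∈ P →
        p.2.1 ∈ P ∨ p.2.2.1 ∈ P ∨ p.2.2.2.1 ∈ P ∨ p.2.2.2.2 ∈ P := by
      intro x hx hxP
      simp only [List.mem_cons, List.not_mem_nil, or_false] at hx
      rcases hx with rfl | rfl | rfl | rfl
      · exact Or.inl hxP
      · exact Or.inr (Or.inl hxP)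
      · exact Or.inr (Or.inr (Or.inl hxP))
      · exact Or.inr (Or.inr (Or.inr hxP))
    rcases hit i hi j hj hij c hc with h | h | h | h
    · exact key _ m1 h
    · exact key _ m3 h
    · exact key _ m4 h
    · exact key _ m5 h
  obtain ⟨S, hS, m, hm, hl⟩ := sound hit' 7 0 0 ∅ (by
    intro i
    rw [Nat.zero_testBit]
    simp) (Finset.empty_subset P) (by
    intro i hi
    rw [Nat.zero_testBit] at hi
    exact absurd hi (by decide)) (by simpa using h7) br_root
  refine ⟨S, hS, ?_⟩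
  have hS16 : ∀ i ∈ S, i < 16 := fun i hi => hP i (hS hi)
  unfold leaf at hl
  rw [Bool.or_eq_true, List.any_eq_true, List.any_eq_true] at hl
  rcases hl with ⟨p, hp, he⟩ | ⟨p, hp, he⟩
  · left
    have he' : p.1 = m := by simpa using he
    obtain ⟨hc, h⟩ := six_spec p hp
    rw [he'] at h
    have hiff : ∀ i, i ∈ S ↔ ∃ k ∈ EE, i = p.2 ^^^ k := by
      intro i
      constructor
      · intro hi
        refine ⟨i ^^^ p.2, (h i (hS16 i hi)).1 ((hm i).2 hi), ?_⟩
        rw [Nat.xor_comm i p.2, ← Nat.xor_assoc, Nat.xor_self, Nat.zero_xor]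
      · rintro ⟨k, hk, rfl⟩
        have hk16 : k < 16 := by
          revert k
          decide
        have hlt : p.2 ^^^ k < 16 := Nat.xor_lt_two_pow (n := 4) hc hk16
        refine (hm _).1 ((h _ hlt).2 ?_)
        rw [Nat.xor_comm p.2 k, Nat.xor_assoc, Nat.xor_self, Nat.xor_zero]
        exact hk
    refine ⟨?_, p.2, hc, hiff⟩
    have hSi : S = EE.image (fun k => p.2 ^^^ k) := by
      ext i
      rw [hiff, Finset.mem_image]
      constructor
      · rintro ⟨k, hk, rfl⟩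
        exact ⟨k, hk, rfl⟩
      · rintro ⟨k, hk, rfl⟩
        exact ⟨k, hk, rfl⟩
    rw [hSi, Finset.card_image_of_injective]
    · rfl
    · intro x y hxy
      have h1 : p.2 ^^^ (p.2 ^^^ x) = p.2 ^^^ (p.2 ^^^ y) := congrArg (fun z => p.2 ^^^ z) hxy
      rwa [← Nat.xor_assoc, ← Nat.xor_assoc, Nat.xor_self, Nat.zero_xor, Nat.zero_xor] at h1
  · right
    have he' : p.1 = m := by simpa using he
    obtain ⟨hc, hk, hlen, h⟩ := sev_spec p hp
    rw [he'] at h hlen
    have hSf : S = ((List.range 16).filter fun i => m.testBit i).toFinset := by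
      ext i
      rw [List.mem_toFinset, List.mem_filter, List.mem_range]
      constructor
      · intro hi
        exact ⟨hS16 i hi, (hm i).2 hi⟩
      · rintro ⟨-, hi⟩
        exact (hm i).1 hi
    refine ⟨?_, p.2.1, hc, TT.getD p.2.2 [], ?_, ?_⟩
    · rw [hSf, List.toFinset_card_of_nodup (List.Nodup.filter _ List.nodup_range), hlen]
    · have hlt : p.2.2 < TT.length := hk
      rw [List.getD_eq_getElem _ _ hlt]
      exact List.getElem_mem hlt
    · intro i hi
      exact h i (hS16 i hi) ((hm i).2 hi)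

end FNAM

open FNAM in
theorem specFNA : SpecFNA := by
  intro P hP hit
  have h6 : 6 ≤ P.card := by
    by_contra hcon
    obtain ⟨S, hS, h⟩ := main hP hit (by omega)
    have h1 := Finset.card_le_card hS
    rcases h with ⟨h, -⟩ | ⟨h, -⟩ <;> omega
  refine ⟨h6, ?_, ?_⟩
  · intro h
    obtain ⟨S, hS, h1⟩ := main hP hit (by omega)
    have h3 := Finset.card_le_card hS
    rcases h1 with ⟨h4, hc⟩ | ⟨h4, -⟩
    · have h5 : S = P := Finset.eq_of_subset_of_card_le hS (by omega)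
      rw [← h5]
      exact hc
    · omega
  · intro h
    obtain ⟨S, hS, h1⟩ := main hP hit h
    rcases h1 with ⟨h4, c, hc, hiff⟩ | ⟨h4, hc⟩
    · have h5 : (P \ S).card ≤ 1 := by
        rw [Finset.card_sdiff_of_subset hS]
        omega
      obtain ⟨y, hy, hy'⟩ : ∃ y < 16, ∀ i ∈ P, i ∈ S ∨ i ^^^ c = y := by
        by_cases hne : (P \ S).Nonempty
        · obtain ⟨x, hx⟩ := hne
          have hxP : x ∈ P := (Finset.mem_sdiff.1 hx).1
          refine ⟨x ^^^ c, Nat.xor_lt_two_pow (n := 4) (hP x hxP) hc, fun i hi => ?_⟩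
          by_cases hiS : i ∈ S
          · exact Or.inl hiS
          · right
            rw [Finset.card_le_one.1 h5 i (Finset.mem_sdiff.2 ⟨hi, hiS⟩) x hx]
        · refine ⟨0, by norm_num, fun i hi => ?_⟩
          left
          by_contra hiS
          exact hne ⟨i, Finset.mem_sdiff.2 ⟨hi, hiS⟩⟩
      obtain ⟨T, hT, hE, hyT⟩ := ext_spec y hy
      refine ⟨c, hc, T, hT, fun i hi => ?_⟩
      rcases hy' i hi with h6 | h6
      · obtain ⟨k, hk, rfl⟩ := (hiff i).1 h6
        rw [Nat.xor_comm c k, Nat.xor_assoc, Nat.xor_self, Nat.xor_zero]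
        exact hE k hk
      · rw [h6]
        exact hyT
    · have h5 : S = P := Finset.eq_of_subset_of_card_le hS (by omega)
      rw [← h5]
      exact hc

end Pool.Agent.Lib.MP_b63a06_co.FR
end

section
set_option autoImplicit false

/-!
# MP_b63a06_co, module FNB (helper59)
-/

namespace Pool.Agent.Lib.MP_b63a06_co.FR

open Pool.Agent.Lib.MP_b63a06_co

namespace FNBM

/-- the `l` which are forced by a missing `m` -/
def SS (m : ℕ) : Finset ℕ := NF.filter (fun l => l ^^^ m ∈ NF)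

theorem c0 : 9 < (SS 0).card := by decide

theorem c1 : ∀ m ∈ EE, 9 < (EE.erase m ∪ SS m).card := by decide

theorem c2 : ∀ m ∈ EE, ∀ m' ∈ EE, m' ≠ m → 9 < (insert 0 (SS m ∪ SS m')).card := by decide

theorem e0 : 0 ∈ EE := by decide

end FNBM

open FNBM in
theorem specFNB : SpecFNB := by
  intro P _ hP hc m hm
  have hS : ∀ m ∈ EE, m ∉ P → SS m ⊆ P := by
    intro m hm hmP l hl
    unfold SS at hl
    rw [Finset.mem_filter] at hl
    rcases hP m hm l hl.1 hl.2 with h | h
    · exact absurd h hmP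
    · exact h
  have h0 : 0 ∈ P := by
    by_contra h
    have h1 := Finset.card_le_card (hS 0 e0 h)
    have h2 := c0
    omega
  by_contra hmP
  have h1 := hS m hm hmP
  by_cases hall : ∀ m' ∈ EE, m' ≠ m → m' ∈ P
  · have h3 : EE.erase m ∪ SS m ⊆ P := by
      apply Finset.union_subset _ h1
      intro x hx
      rw [Finset.mem_erase] at hx
      exact hall x hx.2 hx.1
    have h4 := Finset.card_le_card h3
    have h5 := c1 m hm
    omega
  · push Not at hall
    obtain ⟨m', hm', hne, hm'P⟩ := hall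
    have h3 : insert 0 (SS m ∪ SS m') ⊆ P := by
      apply Finset.insert_subset h0
      exact Finset.union_subset h1 (hS m' hm' hm'P)
    have h4 := Finset.card_le_card h3
    have h5 := c2 m hm m' hm' hne
    omega

end Pool.Agent.Lib.MP_b63a06_co.FR
end

section
set_option autoImplicit false

/-!
# MP_b63a06_co, module FRM: a conflict with three elements gives a frame (helper96)
-/

namespace Pool.Agent.Lib.MP_b63a06_co.FR

open Pool.Agent.Lib.MP_b63a06_co

namespace FRMM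

variable {V : Type} [AddCommGroup V]

theorem gg4 (e : ℕ → V) (i : ℕ) : gg e 4 i = (if i.testBit 0 then e 0 else 0) +
    (if i.testBit 1 then e 1 else 0) + (if i.testBit 2 then e 2 else 0) +
    (if i.testBit 3 then e 3 else 0) := by
  unfold gg
  simp only [Finset.sum_range_succ, Finset.sum_range_zero, zero_add]

/-- the basis vectors -/
def ee (s t x y : V) (b : ℕ) : V :=
  if b = 0 then s else if b = 1 then t else if b = 2 then s + t + x else s + t + y

theorem ee0 (s t x y : V) : ee s t x y 0 = s := rfl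
theorem ee1 (s t x y : V) : ee s t x y 1 = t := rfl
theorem ee2 (s t x y : V) : ee s t x y 2 = s + t + x := rfl
theorem ee3 (s t x y : V) : ee s t x y 3 = s + t + y := rfl

/-- values of `gg` -/
theorem val (h2 : Two V) (s t x y : V) :
    gg (ee s t x y) 4 0 = 0 ∧ gg (ee s t x y) 4 1 = s ∧ gg (ee s t x y) 4 2 = t ∧
    gg (ee s t x y) 4 3 = s + t ∧ gg (ee s t x y) 4 4 = s + t + x ∧
    gg (ee s t x y) 4 5 = t + x ∧ gg (ee s t x y) 4 6 = s + x ∧ gg (ee s t x y) 4 7 = x ∧
    gg (ee s t x y) 4 8 = s + t + y ∧ gg (ee s t x y) 4 9 = t + y ∧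
    gg (ee s t x y) 4 10 = s + y ∧ gg (ee s t x y) 4 11 = y ∧
    gg (ee s t x y) 4 12 = x + y ∧ gg (ee s t x y) 4 13 = s + (x + y) ∧
    gg (ee s t x y) 4 14 = t + (x + y) ∧ gg (ee s t x y) 4 15 = s + t + (x + y) := by
  refine ⟨?_, ?_, ?_, ?_, ?_, ?_, ?_, ?_, ?_, ?_, ?_, ?_, ?_, ?_, ?_, ?_⟩
  · rw [gg4]
    change (0 + 0 + 0 + 0 : V) = 0
    abel
  · rw [gg4]
    change (s + 0 + 0 + 0 : V) = s
    abel
  · rw [gg4]
    change (0 + t + 0 + 0 : V) = t
    abel
  · rw [gg4]
    change (s + t + 0 + 0 : V) = s + t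
    abel
  · rw [gg4]
    change (0 + 0 + (s + t + x) + 0 : V) = s + t + x
    abel
  · rw [gg4]
    change (s + 0 + (s + t + x) + 0 : V) = t + x
    have e : (s + 0 + (s + t + x) + 0 : V) = t + x + ((s + s)) := by abel
    rw [e]
    simp only [h2 s, add_zero]
  · rw [gg4]
    change (0 + t + (s + t + x) + 0 : V) = s + x
    have e : (0 + t + (s + t + x) + 0 : V) = s + x + ((t + t)) := by abel
    rw [e]
    simp only [h2 t, add_zero]
  · rw [gg4]
    change (s + t + (s + t + x) + 0 : V) = x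
    have e : (s + t + (s + t + x) + 0 : V) = x + ((s + s) + (t + t)) := by abel
    rw [e]
    simp only [h2 s, h2 t, add_zero]
  · rw [gg4]
    change (0 + 0 + 0 + (s + t + y) : V) = s + t + y
    abel
  · rw [gg4]
    change (s + 0 + 0 + (s + t + y) : V) = t + y
    have e : (s + 0 + 0 + (s + t + y) : V) = t + y + ((s + s)) := by abel
    rw [e]
    simp only [h2 s, add_zero]
  · rw [gg4]
    change (0 + t + 0 + (s + t + y) : V) = s + y
    have e : (0 + t + 0 + (s + t + y) : V) = s + y + ((t + t)) := by abel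
    rw [e]
    simp only [h2 t, add_zero]
  · rw [gg4]
    change (s + t + 0 + (s + t + y) : V) = y
    have e : (s + t + 0 + (s + t + y) : V) = y + ((s + s) + (t + t)) := by abel
    rw [e]
    simp only [h2 s, h2 t, add_zero]
  · rw [gg4]
    change (0 + 0 + (s + t + x) + (s + t + y) : V) = x + y
    have e : (0 + 0 + (s + t + x) + (s + t + y) : V) = x + y + ((s + s) + (t + t)) := by abel
    rw [e]
    simp only [h2 s, h2 t, add_zero]
  · rw [gg4]
    change (s + 0 + (s + t + x) + (s + t + y) : V) = s + (x + y)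
    have e : (s + 0 + (s + t + x) + (s + t + y) : V) = s + (x + y) + ((s + s) + (t + t)) := by abel
    rw [e]
    simp only [h2 s, h2 t, add_zero]
  · rw [gg4]
    change (0 + t + (s + t + x) + (s + t + y) : V) = t + (x + y)
    have e : (0 + t + (s + t + x) + (s + t + y) : V) = t + (x + y) + ((s + s) + (t + t)) := by abel
    rw [e]
    simp only [h2 s, h2 t, add_zero]
  · rw [gg4]
    change (s + t + (s + t + x) + (s + t + y) : V) = s + t + (x + y)
    have e : (s + t + (s + t + x) + (s + t + y) : V) = s + t + (x + y) + ((s + s) + (t + t)) := by abel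
    rw [e]
    simp only [h2 s, h2 t, add_zero]

theorem three_sum {V : Type} [AddCommGroup V] [Fintype V] [DecidableEq V] (h2 : Two V)
    (S : AddSubgroup V) (hS : Nat.card S ≤ 4) (x y z : V) (hx : x ∈ S) (hy : y ∈ S) (hz : z ∈ S)
    (hx0 : x ≠ 0) (hy0 : y ≠ 0) (hz0 : z ≠ 0) (hxy : x ≠ y) (hxz : x ≠ z) (hyz : y ≠ z) :
    z = x + y := by
  by_contra hcon
  have h1 : x + y ≠ 0 := fun h => hxy (h2.eq_of_add h)
  have h3 : x + y ≠ x := fun h => hy0 (by
    have h4 := h2.cancel x y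
    rw [h, h2 x] at h4
    exact h4.symm)
  have h4 : x + y ≠ y := fun h => hx0 (by
    have h5 := h2.cancel' y x
    rw [h, h2 y] at h5
    exact h5.symm)
  have h5 : ({0, x, y, z, x + y} : Finset V).card = 5 := by
    rw [Finset.card_insert_of_notMem, Finset.card_insert_of_notMem, Finset.card_insert_of_notMem,
      Finset.card_insert_of_notMem, Finset.card_singleton]
    · rw [Finset.mem_singleton]
      exact hcon
    · simp only [Finset.mem_insert, Finset.mem_singleton, not_or]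
      exact ⟨hyz, h4.symm⟩
    · simp only [Finset.mem_insert, Finset.mem_singleton, not_or]
      exact ⟨hxy, hxz, h3.symm⟩
    · simp only [Finset.mem_insert, Finset.mem_singleton, not_or]
      exact ⟨hx0.symm, hy0.symm, hz0.symm, h1.symm⟩
  have h6 : (({0, x, y, z, x + y} : Finset V) : Set V) ⊆ (S : Set V) := by
    intro v hv
    simp only [Finset.coe_insert, Finset.coe_singleton, Set.mem_insert_iff,
      Set.mem_singleton_iff] at hv
    rcases hv with rfl | rfl | rfl | rfl | rfl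
    · exact S.zero_mem
    · exact hx
    · exact hy
    · exact hz
    · exact S.add_mem hx hy
  have h7 := Set.ncard_le_ncard h6 (Set.toFinite _)
  rw [Set.ncard_coe_finset, h5] at h7
  have h8 : (S : Set V).ncard = Nat.card S := rfl
  omega

theorem inj4 {V : Type} [AddCommGroup V] (h2 : Two V) (W : AddSubgroup V) (s t x y : V)
    (hs : s ∉ W) (ht : t ∉ W) (hst : s + t ∉ W) (hx : x ∈ W) (hy : y ∈ W) (hx0 : x ≠ 0)
    (hy0 : y ≠ 0) (hxy : x + y ≠ 0) (i : ℕ) (hi : i < 16) (h : gg (ee s t x y) 4 i = 0) :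
    i = 0 := by
  obtain ⟨-, v1, v2, v3, v4, v5, v6, v7, v8, v9, v10, v11, v12, v13, v14, v15⟩ := val h2 s t x y
  have key : ∀ a z : V, z ∈ W → a + z = 0 → a ∈ W := by
    intro a z hz haz
    rw [h2.eq_of_add haz]
    exact hz
  have hz := W.add_mem hx hy
  interval_cases i
  · rfl
  · rw [v1] at h
    exact absurd (by rw [h]; exact W.zero_mem) hs
  · rw [v2] at h
    exact absurd (by rw [h]; exact W.zero_mem) ht
  · rw [v3] at h
    exact absurd (by rw [h]; exact W.zero_mem) hst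
  · rw [v4] at h
    exact absurd (key _ _ hx h) hst
  · rw [v5] at h
    exact absurd (key _ _ hx h) ht
  · rw [v6] at h
    exact absurd (key _ _ hx h) hs
  · rw [v7] at h
    exact absurd h hx0
  · rw [v8] at h
    exact absurd (key _ _ hy h) hst
  · rw [v9] at h
    exact absurd (key _ _ hy h) ht
  · rw [v10] at h
    exact absurd (key _ _ hy h) hs
  · rw [v11] at h
    exact absurd h hy0
  · rw [v12] at h
    exact absurd h hxy
  · rw [v13] at h
    exact absurd (key _ _ hz h) hs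
  · rw [v14] at h
    exact absurd (key _ _ hz h) ht
  · rw [v15] at h
    exact absurd (key _ _ hz h) hst

end FRMM

open FRMM

theorem specFRM (hSPN : SpecSPN) : SpecFRM := by
  intro V _ _ _ h2 A h0 W s t hc hX
  obtain ⟨hs, ht, -⟩ := hc.basic h2 A h0
  have hst : s + t ∉ W := by
    intro h
    have h1 := hc.t1.2 s hc.s1.1 h
    apply hc.no
    rw [h1, h2 t]
    exact h0
  obtain ⟨S, -, hcard, hSX⟩ := hSPN V h2 W (XX A W s t) (Finset.card_pos.1 (by omega))
    (fun v hv => ((mem_XX A W s t v).1 hv).1) (hc.meet h2 A h0)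
  rw [hX] at hcard
  obtain ⟨x, y, z, hxy, hxz, hyz, hXe⟩ := Finset.card_eq_three.1 hX
  have hn0 : ∀ v ∈ XX A W s t, v ≠ 0 := by
    rintro v hv rfl
    have h1 := ((mem_XX A W s t 0).1 hv).2
    rw [add_zero] at h1
    exact hc.no h1
  have hx : x ∈ XX A W s t := by rw [hXe]; simp
  have hy : y ∈ XX A W s t := by rw [hXe]; simp
  have hz : z ∈ XX A W s t := by rw [hXe]; simp
  have hzs : z = x + y := three_sum h2 S hcard x y z (hSX x hx) (hSX y hy) (hSX z hz) (hn0 x hx)
    (hn0 y hy) (hn0 z hz) hxy hxz hyz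
  have hx1 := (mem_XX A W s t x).1 hx
  have hy1 := (mem_XX A W s t y).1 hy
  have hz1 := (mem_XX A W s t z).1 hz
  obtain ⟨v0, v1, v2, -, v4, -, -, -, v8, -, -, -, -, -, -, v15⟩ := val h2 s t x y
  have hWs : W ≤ ext h2 (ext h2 W s) t := (le_ext h2 W s).trans (le_ext h2 _ t)
  have hsF : s ∈ ext h2 (ext h2 W s) t := le_ext h2 _ t (self_mem_ext h2 W s)
  have htF : t ∈ ext h2 (ext h2 W s) t := self_mem_ext h2 _ t
  have hcs : ∀ v, s + t + (v + (s + t)) = v := by
    intro v
    have e : s + t + (v + (s + t)) = v + ((s + t) + (s + t)) := by abel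
    rw [e, h2 (s + t), add_zero]
  refine ⟨ext h2 (ext h2 W s) t, ee s t x y, ?_, ?_, ?_, ?_⟩
  · intro b hb
    interval_cases b
    · exact hsF
    · exact htF
    · exact (ext h2 (ext h2 W s) t).add_mem ((ext h2 (ext h2 W s) t).add_mem hsF htF)
        (hWs hx1.1)
    · exact (ext h2 (ext h2 W s) t).add_mem ((ext h2 (ext h2 W s) t).add_mem hsF htF)
        (hWs hy1.1)
  · exact inj4 h2 W s t x y hs ht hst hx1.1 hy1.1 (hn0 x hx) (hn0 y hy) (by
      rw [← hzs]
      exact hn0 z hz)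
  · intro a
    constructor
    · rintro ⟨ha, (haW | haW) | (haW | haW)⟩
      · exact ⟨0, by decide, by rw [v0]; exact hc.mx.av a ha haW⟩
      · exact ⟨1, by decide, by rw [v1]; exact hc.s1.2 a ha haW⟩
      · exact ⟨2, by decide, by rw [v2]; exact hc.t1.2 a ha haW⟩
      · have h1 : a + (s + t) ∈ XX A W s t := by
          rw [mem_XX]
          refine ⟨?_, ?_⟩
          · have e : a + (s + t) = a + t + s := by abel
            rw [e]
            exact haW
          · rw [hcs a]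
            exact ha
        have h3 : ∀ v, a + (s + t) = v → a = s + t + v := by
          rintro v rfl
          exact (hcs a).symm
        rw [hXe] at h1
        simp only [Finset.mem_insert, Finset.mem_singleton] at h1
        rcases h1 with h1 | h1 | h1
        · exact ⟨4, by decide, by rw [v4]; exact h3 _ h1⟩
        · exact ⟨8, by decide, by rw [v8]; exact h3 _ h1⟩
        · exact ⟨15, by decide, by rw [v15, ← hzs]; exact h3 _ h1⟩
    · rintro ⟨i, hi, rfl⟩
      simp only [EE, Finset.mem_insert, Finset.mem_singleton] at hi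
      rcases hi with rfl | rfl | rfl | rfl | rfl | rfl
      · rw [v0]
        exact ⟨h0, (ext h2 (ext h2 W s) t).zero_mem⟩
      · rw [v1]
        exact ⟨hc.s1.1, hsF⟩
      · rw [v2]
        exact ⟨hc.t1.1, htF⟩
      · rw [v4]
        exact ⟨hx1.2, (ext h2 (ext h2 W s) t).add_mem
          ((ext h2 (ext h2 W s) t).add_mem hsF htF) (hWs hx1.1)⟩
      · rw [v8]
        exact ⟨hy1.2, (ext h2 (ext h2 W s) t).add_mem
          ((ext h2 (ext h2 W s) t).add_mem hsF htF) (hWs hy1.1)⟩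
      · rw [v15, ← hzs]
        exact ⟨hz1.2, (ext h2 (ext h2 W s) t).add_mem
          ((ext h2 (ext h2 W s) t).add_mem hsF htF) (hWs hz1.1)⟩
  · intro W' hW'
    have h1 : Nat.card W' = Nat.card W := le_antisymm (hc.mx.max W' hW'.av) (hW'.max W hc.mx.av)
    have h3 : t ∉ ext h2 W s := by
      rintro (h | h)
      · exact ht h
      · rw [add_comm] at h
        exact hst h
    rw [card_ext h2 _ t h3, card_ext h2 W s hs, h1]
    ring

end Pool.Agent.Lib.MP_b63a06_co.FR
end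

section
set_option autoImplicit false

/-!
# MP_b63a06_co, module FUL (helper18): there are not only full conflicts
-/

namespace Pool.Agent.Lib.MP_b63a06_co.FR

open Pool.Agent.Lib.MP_b63a06_co

namespace FULM

section Grp

variable {V : Type} [AddCommGroup V]

theorem tr {W : AddSubgroup V} {a b : V} (h : a ∈ W) (e : a = b) : b ∈ W := by
  rw [← e]
  exact h

omit [AddCommGroup V] in
theorem trA {A : Finset V} {a b : V} (h : a ∈ A) (e : a = b) : b ∈ A := by
  rw [← e]
  exact h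

end Grp

variable {V : Type} [AddCommGroup V] [Fintype V] [DecidableEq V]

omit [DecidableEq V] in
theorem cardF (S : AddSubgroup V) :
    ∃ T : Finset V, (∀ x, x ∈ T ↔ x ∈ S) ∧ T.card = Nat.card S := by
  classical
  refine ⟨Finset.univ.filter (fun x => x ∈ S), fun x => by simp, ?_⟩
  rw [Nat.card_eq_fintype_card, Fintype.card_subtype]

omit [DecidableEq V] in
theorem cardLe (S : AddSubgroup V) (Y : Finset V) (h : ∀ y ∈ Y, y ∈ S) :
    Y.card ≤ Nat.card S := by
  obtain ⟨T, hT, hc⟩ := cardF S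
  rw [← hc]
  exact Finset.card_le_card fun y hy => (hT y).2 (h y hy)

omit [DecidableEq V] in
theorem exq (S : AddSubgroup V) (Y : Finset V) (h : Y.card < Nat.card S) : ∃ q ∈ S, q ∉ Y := by
  obtain ⟨T, hT, hc⟩ := cardF S
  rw [← hc] at h
  obtain ⟨q, hq, hqY⟩ := Finset.exists_mem_notMem_of_card_lt_card h
  exact ⟨q, (hT q).1 hq, hqY⟩

omit [DecidableEq V] in
theorem cardSup (S T : AddSubgroup V) :
    Nat.card (S ⊔ T : AddSubgroup V) ≤ Nat.card S * Nat.card T := by
  rw [← Nat.card_prod]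
  refine Nat.card_le_card_of_surjective (fun p : S × T =>
    (⟨p.1.1 + p.2.1, (S ⊔ T).add_mem (le_sup_left (a := S) p.1.2)
      (le_sup_right (b := T) p.2.2)⟩ : (S ⊔ T : AddSubgroup V))) ?_
  rintro ⟨x, hx⟩
  obtain ⟨y, hy, z, hz, rfl⟩ := AddSubgroup.mem_sup.1 hx
  exact ⟨(⟨y, hy⟩, ⟨z, hz⟩), rfl⟩

omit [DecidableEq V] in
theorem big (h2 : Two V) {W W₁ : AddSubgroup V} {x : V} (hy : Hyp W W₁ x) (Y : Finset V)
    (h : ∀ w ∈ W, w ∉ W₁ → w ∈ Y) : Nat.card W ≤ 2 * Y.card := by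
  have e : ext h2 W₁ x = W := by
    apply le_antisymm
    · rintro v (hv | hv)
      · exact hy.le hv
      · have h3 := W.add_mem (hy.le hv) hy.mem
        rwa [h2.cancel' x v] at h3
    · intro v hv
      exact hy.or v hv
  obtain ⟨T, hT, hc⟩ := cardF W₁
  have h1 := card_ext h2 W₁ x hy.notMem
  rw [e] at h1
  rw [h1, ← hc]
  have h3 : T.card ≤ Y.card := by
    refine Finset.card_le_card_of_injOn (fun v => v + x) ?_ ?_
    · intro v hv
      have hv1 := (hT v).1 hv
      refine h _ (W.add_mem (hy.le hv1) hy.mem) fun h5 => hy.notMem ?_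
      have h6 := W₁.add_mem hv1 h5
      rwa [h2.cancel v x] at h6
    · intro u _ v _ huv
      exact add_right_cancel huv
  omega

/-- a subgroup with at most four elements -/
theorem four (S : AddSubgroup V) (hS : Nat.card S ≤ 4) (a b v : V) (ha : a ∈ S)
    (hb : b ∈ S) (hv : v ∈ S) (ha0 : a ≠ 0) (hb0 : b ≠ 0) (hab : a ≠ b) (hab0 : a + b ≠ 0) :
    v = 0 ∨ v = a ∨ v = b ∨ v = a + b := by
  by_contra hcon
  push Not at hcon
  obtain ⟨h1, h3, h4, h5⟩ := hcon
  have h6 : ({v, 0, a, b, a + b} : Finset V).card = 5 := by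
    rw [Finset.card_insert_of_notMem, Finset.card_insert_of_notMem,
      Finset.card_insert_of_notMem, Finset.card_insert_of_notMem, Finset.card_singleton]
    · simp only [Finset.mem_singleton]
      intro h
      exact ha0 (by simpa using h.symm)
    · simp only [Finset.mem_insert, Finset.mem_singleton, not_or]
      refine ⟨hab, fun h => hb0 ?_⟩
      simpa using h.symm
    · simp only [Finset.mem_insert, Finset.mem_singleton, not_or]
      exact ⟨Ne.symm ha0, Ne.symm hb0, Ne.symm hab0⟩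
    · simp only [Finset.mem_insert, Finset.mem_singleton, not_or]
      exact ⟨h1, h3, h4, h5⟩
  have h7 := cardLe S ({v, 0, a, b, a + b} : Finset V) (by
    intro y hy
    simp only [Finset.mem_insert, Finset.mem_singleton] at hy
    rcases hy with rfl | rfl | rfl | rfl | rfl
    · exact hv
    · exact S.zero_mem
    · exact ha
    · exact hb
    · exact S.add_mem ha hb)
  omega

/-- an element stays single after a flip -/
theorem sgl' (h2 : Two V) (A : Finset V) {W : AddSubgroup V} {γ u : V} (hu : Sgl A W u)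
    {W₁ : AddSubgroup V} {x : V} (hy : Hyp W W₁ x) (h1 : ∀ p ∈ XX A W γ u, p ∈ W₁) :
    Sgl A (ext h2 W₁ (γ + x)) u := by
  refine ⟨hu.1, ?_⟩
  rintro b hb (h | h)
  · exact hu.2 b hb (hy.le h)
  · exfalso
    have h3 : γ + u + b ∈ W :=
      tr (W.add_mem (hy.le h) hy.mem) (by linear_combination (norm := abel) h2 x)
    have h4 : γ + u + b ∈ XX A W γ u := (mem_XX A W _ _ _).2 ⟨h3, by rw [h2.cancel]; exact hb⟩
    have h5 := h1 _ h4
    refine hy.notMem (tr (W₁.add_mem h h5) ?_)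
    linear_combination (norm := abel) h2 b + h2 u + h2 γ

theorem hypc (h2 : Two V) (A : Finset V)
    (hfull : ∀ (W : AddSubgroup V) (s t : V), Conf A W s t → ∀ x ∈ W, x ≠ 0 → s + t + x ∈ A)
    {W : AddSubgroup V} {s t γ : V} (hc : Conf A W s t) (hγ : Sgl A W γ) (hγW : γ ∉ W)
    {W₁ : AddSubgroup V} {x : V} (hy : Hyp W W₁ x)
    (h1 : ∀ p ∈ XX A W γ s, p ∈ W₁) (h3 : ∀ p ∈ XX A W γ t, p ∈ W₁) :
    ∀ w ∈ W, w ∉ W₁ → w ∈ XX A W γ (s + t) := by
  intro w hw hw1
  have hW' := flip h2 A hc.mx hγ hγW hy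
  have hc' : Conf A (ext h2 W₁ (γ + x)) s t :=
    ⟨hW', sgl' h2 A hc.s1 hy h1, sgl' h2 A hc.t1 hy h3, hc.no⟩
  have h5 : γ + w ∈ ext h2 W₁ (γ + x) := by
    right
    rcases hy.or w hw with h | h
    · exact absurd h hw1
    · exact tr h (by linear_combination (norm := abel) (-1 : ℤ) • h2 γ)
  have h6 : γ + w ≠ 0 := by
    intro h
    apply hγW
    rw [h2.eq_of_add h]
    exact hw
  have h7 := hfull _ _ _ hc' _ h5 h6
  exact (mem_XX A W _ _ _).2 ⟨hw, trA h7 (by abel)⟩

theorem zero1 (hMEE : SpecMEE) (h2 : Two V) (A : Finset V) (h0 : (0 : V) ∈ A)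
    {W : AddSubgroup V} {γ u : V} (hW : MaxAv A W) (hγ : Sgl A W γ) (hγW : γ ∉ W)
    (hu : Sgl A W u) (h : (XX A W γ u).card = 1) : ∀ p ∈ XX A W γ u, p = 0 := by
  intro p hp
  by_contra hp0
  have hpW := ((mem_XX A W _ _ _).1 hp).1
  obtain ⟨W₁, hy, -⟩ := exHyp h2 W 0 p W.zero_mem hpW hp0 hp0
  obtain ⟨q, hq, hq1⟩ := hMEE V h2 A h0 W γ u hW hγ hγW hu W₁ p hy
  have e : q = p := Finset.card_le_one.1 (le_of_eq h) q hq p hp
  rw [e] at hq1
  exact hy.notMem hq1

theorem posX (h2 : Two V) (A : Finset V) (h0 : (0 : V) ∈ A) {W : AddSubgroup V}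
    (hW : MaxAv A W) (γ u : V) : 1 ≤ (XX A W γ u).card := by
  rw [card_XX h2 A]
  exact mm_pos h2 A h0 hW _

theorem claim1 (hEXH : SpecEXH) (hSPN : SpecSPN) (hMEE : SpecMEE) (h2 : Two V) (A : Finset V)
    (h0 : (0 : V) ∈ A)
    (hfull : ∀ (W : AddSubgroup V) (s t : V), Conf A W s t → ∀ x ∈ W, x ≠ 0 → s + t + x ∈ A)
    {W : AddSubgroup V} {s t γ : V} (hc : Conf A W s t) (h8 : 8 ≤ Nat.card W)
    (hγ : Sgl A W γ) (hγW : γ ∉ W)
    (hsum : (XX A W γ s).card + (XX A W γ t).card + (XX A W γ (s + t)).card ≤ 6) :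
    (XX A W γ s).card + (XX A W γ t).card = 5 ∧ (XX A W γ (s + t)).card = 1 ∧
    ∀ S : AddSubgroup V, S ≤ W → (∀ p ∈ XX A W γ s, p ∈ S) → (∀ p ∈ XX A W γ t, p ∈ S) →
      W ≤ S := by
  have q1 := posX h2 A h0 hc.mx γ s
  have q2 := posX h2 A h0 hc.mx γ t
  have q3 := posX h2 A h0 hc.mx γ (s + t)
  have hno : ∀ (W₁ : AddSubgroup V) (x : V), Hyp W W₁ x → (∀ p ∈ XX A W γ s, p ∈ W₁) →
      (∀ p ∈ XX A W γ t, p ∈ W₁) → False := by
    intro W₁ x hy a1 a2
    have a3 := hypc h2 A hfull hc hγ hγW hy a1 a2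
    have a4 := big h2 hy _ a3
    have b1 : (XX A W γ s).card = 1 := by omega
    have b2 : (XX A W γ t).card = 1 := by omega
    have c1 := zero1 hMEE h2 A h0 hc.mx hγ hγW hc.s1 b1
    have c2 := zero1 hMEE h2 A h0 hc.mx hγ hγW hc.t1 b2
    obtain ⟨q, hq, hqn⟩ := exq W ({0, x} : Finset V)
      (lt_of_le_of_lt Finset.card_le_two (by omega))
    rw [Finset.mem_insert, Finset.mem_singleton, not_or] at hqn
    obtain ⟨W₂, hy2, hx2⟩ := exHyp h2 W x q hy.mem hq hqn.1 hqn.2
    have d3 := hypc h2 A hfull hc hγ hγW hy2 (fun p hp => by rw [c1 p hp]; exact W₂.zero_mem)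
      (fun p hp => by rw [c2 p hp]; exact W₂.zero_mem)
    have d4 := big h2 hy2 ((XX A W γ (s + t)).erase x) (fun w hw hw2 =>
      Finset.mem_erase.2 ⟨fun h => hw2 (by rw [h]; exact hx2), d3 w hw hw2⟩)
    rw [Finset.card_erase_of_mem (a3 x hy.mem hy.notMem)] at d4
    omega
  have hgen : ∀ S : AddSubgroup V, S ≤ W → (∀ p ∈ XX A W γ s, p ∈ S) →
      (∀ p ∈ XX A W γ t, p ∈ S) → W ≤ S := by
    intro S hS g1 g2 v hv
    by_contra hvS
    obtain ⟨W₁, hy, hSW⟩ := hEXH V h2 W S v hS hv hvS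
    exact hno W₁ v hy (fun p hp => hSW (g1 p hp)) (fun p hp => hSW (g2 p hp))
  obtain ⟨S₁, hS₁, hc₁, hm₁⟩ := hSPN V h2 W (XX A W γ s) (Finset.card_pos.1 q1)
    (fun y hy => ((mem_XX A W _ _ _).1 hy).1)
    (fun W₁ w hy => hMEE V h2 A h0 W γ s hc.mx hγ hγW hc.s1 W₁ w hy)
  obtain ⟨S₂, hS₂, hc₂, hm₂⟩ := hSPN V h2 W (XX A W γ t) (Finset.card_pos.1 q2)
    (fun y hy => ((mem_XX A W _ _ _).1 hy).1)
    (fun W₁ w hy => hMEE V h2 A h0 W γ t hc.mx hγ hγW hc.t1 W₁ w hy)
  have h5 := hgen (S₁ ⊔ S₂) (sup_le hS₁ hS₂) (fun p hp => le_sup_left (a := S₁) (hm₁ p hp))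
    (fun p hp => le_sup_right (b := S₂) (hm₂ p hp))
  have h6 := AddSubgroup.card_le_of_le h5
  have h7 := cardSup S₁ S₂
  have h9 := Nat.mul_le_mul hc₁ hc₂
  rw [← pow_add] at h9
  have h10 : 5 ≤ (XX A W γ s).card + (XX A W γ t).card := by
    by_contra hcon
    have h11 : (XX A W γ s).card - 1 + ((XX A W γ t).card - 1) ≤ 2 := by omega
    have h12 : 2 ^ ((XX A W γ s).card - 1 + ((XX A W γ t).card - 1)) ≤ 2 ^ 2 :=
      Nat.pow_le_pow_right (by norm_num) h11
    have h13 : (2 : ℕ) ^ 2 = 4 := by norm_num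
    omega
  refine ⟨by omega, by omega, hgen⟩

theorem fin (hEXH : SpecEXH) (hSPN : SpecSPN) (hMEE : SpecMEE) (h2 : Two V) (A : Finset V)
    (h0 : (0 : V) ∈ A)
    (hfull : ∀ (W : AddSubgroup V) (s t : V), Conf A W s t → ∀ x ∈ W, x ≠ 0 → s + t + x ∈ A)
    {W : AddSubgroup V} {s t γ : V} (hc : Conf A W s t) (h8 : 8 ≤ Nat.card W)
    (hγ : Sgl A W γ) (hγW : γ ∉ W) (n1 : (XX A W γ s).card = 2) (n2 : (XX A W γ t).card = 3)
    (n3 : (XX A W γ (s + t)).card = 1)
    (hgen : ∀ S : AddSubgroup V, S ≤ W → (∀ p ∈ XX A W γ s, p ∈ S) →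
      (∀ p ∈ XX A W γ t, p ∈ S) → W ≤ S) : False := by
  obtain ⟨hs, ht, -⟩ := hc.basic h2 A h0
  have hW := hc.mx
  have mX := fun u v x => mem_XX A W u v x
  -- P₁
  obtain ⟨S₁, hS₁, hc₁, hm₁⟩ := hSPN V h2 W (XX A W γ s) (Finset.card_pos.1 (by omega))
    (fun y hy => ((mem_XX A W _ _ _).1 hy).1)
    (fun W₁ w hy => hMEE V h2 A h0 W γ s hc.mx hγ hγW hc.s1 W₁ w hy)
  obtain ⟨S₂, hS₂, hc₂, hm₂⟩ := hSPN V h2 W (XX A W γ t) (Finset.card_pos.1 (by omega))
    (fun y hy => ((mem_XX A W _ _ _).1 hy).1)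
    (fun W₁ w hy => hMEE V h2 A h0 W γ t hc.mx hγ hγW hc.t1 W₁ w hy)
  rw [n1] at hc₁
  rw [n2] at hc₂
  norm_num at hc₁ hc₂
  have p0 : (0 : V) ∈ XX A W γ s := by
    by_contra hcon
    have h := cardLe S₁ (insert 0 (XX A W γ s)) (by
      intro y hy
      rcases Finset.mem_insert.1 hy with rfl | hy
      · exact S₁.zero_mem
      · exact hm₁ y hy)
    rw [Finset.card_insert_of_notMem hcon, n1] at h
    omega
  obtain ⟨w₁, hw₁P, hw₁0⟩ := Finset.exists_mem_ne (by omega : 1 < (XX A W γ s).card) (0 : V)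
  have hw₁W : w₁ ∈ W := ((mX _ _ _).1 hw₁P).1
  have hP₁ : ∀ p ∈ XX A W γ s, p = 0 ∨ p = w₁ := by
    intro p hp
    by_contra hcon
    push Not at hcon
    have h1 : ({0, w₁, p} : Finset V) ⊆ XX A W γ s := by
      intro v hv
      simp only [Finset.mem_insert, Finset.mem_singleton] at hv
      rcases hv with rfl | rfl | rfl
      · exact p0
      · exact hw₁P
      · exact hp
    have h3 := Finset.card_le_card h1
    rw [Finset.card_eq_three.2 ⟨0, w₁, p, Ne.symm hw₁0, Ne.symm hcon.1, Ne.symm hcon.2, rfl⟩]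
      at h3
    omega
  have hw₁S₂ : w₁ ∉ S₂ := by
    intro h
    have h1 := hgen S₂ hS₂ (fun p hp => by
      rcases hP₁ p hp with rfl | rfl
      · exact S₂.zero_mem
      · exact h) hm₂
    have h3 := AddSubgroup.card_le_of_le h1
    omega
  -- P₃
  obtain ⟨w, hw⟩ := Finset.card_eq_one.1 n3
  have hwm : w ∈ XX A W γ (s + t) := by
    rw [hw]
    exact Finset.mem_singleton_self w
  have hwm' := (mX _ _ _).1 hwm
  have hS3 : ∀ b ∈ A, b + γ + (s + t) ∈ W → b = γ + (s + t) + w := by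
    intro b hb h
    have h1 : γ + (s + t) + b ∈ XX A W γ (s + t) :=
      (mX _ _ _).2 ⟨tr h (by abel), by rw [h2.cancel]; exact hb⟩
    rw [hw, Finset.mem_singleton] at h1
    rw [← h1, h2.cancel]
  have hγ'1 : Sgl A W (γ + (s + t) + w) := ⟨hwm'.2, fun b hb h =>
    hS3 b hb (tr (W.add_mem h hwm'.1) (by linear_combination (norm := abel) h2 w))⟩
  have hw01 : w = 0 ∨ w = w₁ := by
    by_contra hcon
    push Not at hcon
    obtain ⟨W₁, hy, hw₁1⟩ := exHyp h2 W w₁ w hw₁W hwm'.1 hcon.1 hcon.2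
    obtain ⟨x, hx, hx1⟩ := hMEE V h2 A h0 W t (γ + (s + t) + w) hW hc.t1 ht hγ'1 W₁ w hy
    have h1 := (mX _ _ _).1 hx
    have h3 : w + x ∈ XX A W γ s := (mX _ _ _).2 ⟨W.add_mem hwm'.1 h1.1,
      trA h1.2 (by linear_combination (norm := abel) h2 t)⟩
    rcases hP₁ _ h3 with h | h
    · rw [← h2.eq_of_add h] at hx1
      exact hy.notMem hx1
    · have h5 := W₁.add_mem hw₁1 hx1
      rw [← h, h2.cancel' x w] at h5
      exact hy.notMem h5
  have hw0 : w = 0 := by
    rcases hw01 with h | h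
    · exact h
    · exfalso
      obtain ⟨W₁, hy, hSW⟩ := hEXH V h2 W S₂ w₁ hS₂ hw₁W hw₁S₂
      obtain ⟨x, hx, hx1⟩ := hMEE V h2 A h0 W s (γ + (s + t) + w) hW hc.s1 hs hγ'1 W₁ w₁ hy
      have h1 := (mX _ _ _).1 hx
      have h3 : w + x ∈ XX A W γ t := (mX _ _ _).2 ⟨W.add_mem hwm'.1 h1.1,
        trA h1.2 (by linear_combination (norm := abel) h2 s)⟩
      have h4 := hSW (hm₂ _ h3)
      have h5 := W₁.add_mem h4 hx1
      rw [h2.cancel' x w, h] at h5
      exact hy.notMem h5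
  have hAst : ∀ b ∈ A, b + γ + (s + t) ∈ W → b = γ + (s + t) := by
    intro b hb h
    rw [hS3 b hb h, hw0, add_zero]
  have tA : ∀ z ∈ W, z ≠ 0 → t + z ∉ A := by
    intro z hz hz0 h
    have h1 := hc.t1.2 _ h (tr hz (by linear_combination (norm := abel) (-1 : ℤ) • h2 t))
    exact hz0 (by simpa using h1)
  -- elements of the neighbours
  have e1 : ∀ b ∈ A, γ + s + b ∈ W → γ + s + b ∈ XX A W γ s := by
    intro b hb h
    exact (mX _ _ _).2 ⟨h, by rw [h2.cancel]; exact hb⟩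
  have e2 : ∀ b ∈ A, γ + t + b ∈ W → γ + t + b ∈ XX A W γ t := by
    intro b hb h
    exact (mX _ _ _).2 ⟨h, by rw [h2.cancel]; exact hb⟩
  by_cases hP20 : (0 : V) ∈ XX A W γ t
  · -- (5)
    have h1 : ((XX A W γ t).erase 0).card = 2 := by
      rw [Finset.card_erase_of_mem hP20, n2]
    obtain ⟨x, y, hxy, hP⟩ := Finset.card_eq_two.1 h1
    have hx : x ≠ 0 ∧ x ∈ XX A W γ t := by
      rw [← Finset.mem_erase, hP]
      simp
    have hy' : y ≠ 0 ∧ y ∈ XX A W γ t := by
      rw [← Finset.mem_erase, hP]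
      simp
    have hP₂ : ∀ p ∈ XX A W γ t, p = 0 ∨ p = x ∨ p = y := by
      intro p hp
      by_cases hp0 : p = 0
      · exact Or.inl hp0
      · right
        have h3 : p ∈ (XX A W γ t).erase 0 := Finset.mem_erase.2 ⟨hp0, hp⟩
        rw [hP, Finset.mem_insert, Finset.mem_singleton] at h3
        exact h3
    have hxW := ((mX _ _ _).1 hx.2).1
    have hyW := ((mX _ _ _).1 hy'.2).1
    have hxS := hm₂ _ hx.2
    have hyS := hm₂ _ hy'.2
    obtain ⟨W₁, hy, hSW⟩ := hEXH V h2 W (ext h2 (ext h2 ⊥ (w₁ + x)) (w₁ + y)) w₁ (by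
      rintro v ((hv | hv) | (hv | hv))
      · rw [AddSubgroup.mem_bot.1 hv]
        exact W.zero_mem
      · rw [h2.eq_of_add (AddSubgroup.mem_bot.1 hv)]
        exact W.add_mem hw₁W hxW
      · rw [h2.eq_of_add (AddSubgroup.mem_bot.1 hv)]
        exact W.add_mem hw₁W hyW
      · have h3 := h2.eq_of_add (AddSubgroup.mem_bot.1 hv)
        refine tr (W.add_mem (W.add_mem hw₁W hxW) (W.add_mem hw₁W hyW)) ?_
        rw [← h3]
        exact h2.cancel' (w₁ + y) v) hw₁W (by
      rintro ((hv | hv) | (hv | hv))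
      · exact hw₁0 (AddSubgroup.mem_bot.1 hv)
      · rw [AddSubgroup.mem_bot, h2.cancel w₁ x] at hv
        exact hx.1 hv
      · rw [AddSubgroup.mem_bot, h2.cancel w₁ y] at hv
        exact hy'.1 hv
      · rw [AddSubgroup.mem_bot, h2.cancel w₁ y] at hv
        apply hw₁S₂
        refine tr (S₂.add_mem hxS hyS) ?_
        linear_combination (norm := abel) hv - h2 w₁)
    have hW' := flip h2 A hW hc.s1 hs hy
    have hxW₁ : x ∉ W₁ := by
      intro h
      apply hy.notMem
      have h3 : w₁ + x ∈ W₁ := hSW (Or.inl (self_mem_ext h2 _ _))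
      exact tr (W₁.add_mem h3 h) (by linear_combination (norm := abel) h2 x)
    have hyW₁ : y ∉ W₁ := by
      intro h
      apply hy.notMem
      have h3 : w₁ + y ∈ W₁ := hSW (self_mem_ext h2 _ _)
      exact tr (W₁.add_mem h3 h) (by linear_combination (norm := abel) h2 y)
    have hγs : γ + s ∈ A := by
      have h3 := ((mX _ _ _).1 p0).2
      rwa [add_zero] at h3
    have hγt : γ + t ∈ A := by
      have h3 := ((mX _ _ _).1 hP20).2
      rwa [add_zero] at h3
    have hc' : Conf A (ext h2 W₁ (s + w₁)) (γ + s) (γ + t) := by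
      refine ⟨hW', ⟨hγs, ?_⟩, ⟨hγt, ?_⟩, ?_⟩
      · rintro b hb (h | h)
        · have h3 : γ + s + b ∈ W₁ := tr h (by abel)
          rcases hP₁ _ (e1 b hb (hy.le h3)) with h4 | h4
          · exact (h2.eq_of_add h4).symm
          · rw [h4] at h3
            exact absurd h3 hy.notMem
        · exfalso
          have h3 : b + γ + w₁ ∈ W₁ := tr h (by linear_combination (norm := abel) h2 s)
          have h4 : b + γ ∈ W := tr (W.add_mem (hy.le h3) hw₁W)
            (by linear_combination (norm := abel) h2 w₁)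
          rw [hγ.2 b hb h4, h2 γ, zero_add] at h3
          exact hy.notMem h3
      · rintro b hb (h | h)
        · have h3 : γ + t + b ∈ W₁ := tr h (by abel)
          rcases hP₂ _ (e2 b hb (hy.le h3)) with h4 | h4 | h4
          · exact (h2.eq_of_add h4).symm
          · rw [h4] at h3
            exact absurd h3 hxW₁
          · rw [h4] at h3
            exact absurd h3 hyW₁
        · exfalso
          have h3 : b + (γ + (s + t)) + w₁ ∈ W₁ := tr h (by abel)
          have h4 : b + γ + (s + t) ∈ W := tr (W.add_mem (hy.le h3) hw₁W)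
            (by linear_combination (norm := abel) h2 w₁)
          rw [hAst b hb h4, h2 (γ + (s + t)), zero_add] at h3
          exact hy.notMem h3
      · intro h
        exact hc.no (trA h (by linear_combination (norm := abel) h2 γ))
    have h3 := hfull _ _ _ hc' (s + w₁) (self_mem_ext h2 _ _) (by
      intro h
      apply hs
      rw [h2.eq_of_add h]
      exact hw₁W)
    exact tA w₁ hw₁W hw₁0 (trA h3 (by linear_combination (norm := abel) h2 γ + h2 s))
  · -- (4)
    obtain ⟨x, y, z, hxy, hxz, hyz, hP⟩ := Finset.card_eq_three.1 n2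
    have hxP : x ∈ XX A W γ t := by
      rw [hP]
      simp
    have hyP : y ∈ XX A W γ t := by
      rw [hP]
      simp
    have hzP : z ∈ XX A W γ t := by
      rw [hP]
      simp
    have hx0 : x ≠ 0 := fun h => hP20 (by rw [← h]; exact hxP)
    have hy0 : y ≠ 0 := fun h => hP20 (by rw [← h]; exact hyP)
    have hz0 : z ≠ 0 := fun h => hP20 (by rw [← h]; exact hzP)
    have hz : z = x + y := by
      rcases four S₂ hc₂ x y z (hm₂ _ hxP) (hm₂ _ hyP) (hm₂ _ hzP) hx0 hy0 hxy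
        (fun h => hxy (h2.eq_of_add h)) with h | h | h | h
      · exact absurd h hz0
      · exact absurd h.symm hxz
      · exact absurd h.symm hyz
      · exact h
    have hxW := ((mX _ _ _).1 hxP).1
    have hyW := ((mX _ _ _).1 hyP).1
    have hxS := hm₂ _ hxP
    have hyS := hm₂ _ hyP
    obtain ⟨W₁, hy, hSW⟩ := hEXH V h2 W (ext h2 (ext h2 ⊥ w₁) x) y (by
      rintro v ((hv | hv) | (hv | hv))
      · rw [AddSubgroup.mem_bot.1 hv]
        exact W.zero_mem
      · rw [h2.eq_of_add (AddSubgroup.mem_bot.1 hv)]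
        exact hw₁W
      · rw [h2.eq_of_add (AddSubgroup.mem_bot.1 hv)]
        exact hxW
      · have h3 := h2.eq_of_add (AddSubgroup.mem_bot.1 hv)
        refine tr (W.add_mem hw₁W hxW) ?_
        rw [← h3]
        exact h2.cancel' x v) hyW (by
      rintro ((hv | hv) | (hv | hv))
      · exact hy0 (AddSubgroup.mem_bot.1 hv)
      · apply hw₁S₂
        rw [← h2.eq_of_add (AddSubgroup.mem_bot.1 hv)]
        exact hyS
      · exact hxy (h2.eq_of_add (AddSubgroup.mem_bot.1 hv)).symm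
      · apply hw₁S₂
        rw [← h2.eq_of_add (AddSubgroup.mem_bot.1 hv)]
        exact S₂.add_mem hyS hxS)
    have hw₁1 : w₁ ∈ W₁ := hSW (Or.inl (self_mem_ext h2 _ _))
    have hx1 : x ∈ W₁ := hSW (self_mem_ext h2 _ _)
    have hW' := flip h2 A hW hc.s1 hs hy
    have hc' : Conf A (ext h2 W₁ (s + y)) γ (γ + t + x) := by
      refine ⟨hW', sgl' h2 A hγ hy ?_, ⟨((mX _ _ _).1 hxP).2, ?_⟩, ?_⟩
      · intro p hp
        have h1 := (mX _ _ _).1 hp
        have h3 : p ∈ XX A W γ s := (mX _ _ _).2 ⟨h1.1, trA h1.2 (by abel)⟩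
        rcases hP₁ p h3 with rfl | rfl
        · exact W₁.zero_mem
        · exact hw₁1
      · rintro b hb (h | h)
        · have h3 : γ + t + b ∈ W₁ := tr (W₁.add_mem h hx1)
            (by linear_combination (norm := abel) h2 x)
          have h4 := e2 b hb (hy.le h3)
          rw [hP, Finset.mem_insert, Finset.mem_insert, Finset.mem_singleton] at h4
          rcases h4 with h4 | h4 | h4
          · rw [← h4, h2.cancel]
          · rw [h4] at h3
            exact absurd h3 hy.notMem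
          · rw [h4, hz] at h3
            have h5 := W₁.add_mem hx1 h3
            rw [h2.cancel x y] at h5
            exact absurd h5 hy.notMem
        · exfalso
          have h4 : b + γ + (s + t) ∈ W := tr (W.add_mem (hy.le h) (W.add_mem hxW hyW))
            (by linear_combination (norm := abel) h2 x + h2 y)
          rw [hAst b hb h4] at h
          apply hy.notMem
          refine tr (W₁.add_mem h hx1) ?_
          linear_combination (norm := abel) h2 γ + h2 s + h2 t + h2 x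
      · intro h
        exact tA x hxW hx0 (trA h (by linear_combination (norm := abel) h2 γ))
    have h3 := hfull _ _ _ hc' w₁ (Or.inl hw₁1) hw₁0
    refine tA (x + w₁) (W.add_mem hxW hw₁W) ?_ (trA h3 (by linear_combination (norm := abel) h2 γ))
    intro h
    apply hw₁S₂
    rw [← h2.eq_of_add h]
    exact hxS

theorem sg1 (h2 : Two V) (A : Finset V) (W : AddSubgroup V) (v : V) (h : mm A W v = 1) :
    ∃ β, Sgl A W β ∧ β + v ∈ W := by
  obtain ⟨β, hβ⟩ := Finset.card_eq_one.1 h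
  have hβ1 := (mem_ms A W v β).1 (by rw [hβ]; exact Finset.mem_singleton_self β)
  refine ⟨β, ⟨hβ1.1, fun b hb hbβ => ?_⟩, hβ1.2⟩
  have h1 : b ∈ ms A W v := (mem_ms A W v b).2 ⟨hb, tr (W.add_mem hbβ hβ1.2)
    (by linear_combination (norm := abel) h2 β)⟩
  rw [hβ, Finset.mem_singleton] at h1
  exact h1

theorem mm1 (A : Finset V) (W : AddSubgroup V) (h2 : Two V) (γ : V) (h : Sgl A W γ) :
    mm A W γ = 1 := by
  refine Finset.card_eq_one.2 ⟨γ, ?_⟩
  ext b
  rw [mem_ms, Finset.mem_singleton]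
  constructor
  · rintro ⟨hb, hbγ⟩
    exact h.2 b hb hbγ
  · rintro rfl
    refine ⟨h.1, ?_⟩
    rw [h2 b]
    exact W.zero_mem

theorem main2 (hEXH : SpecEXH) (hSPN : SpecSPN) (hMEE : SpecMEE) (h2 : Two V) (A : Finset V)
    (h0 : (0 : V) ∈ A)
    (hfull : ∀ (W : AddSubgroup V) (s t : V), Conf A W s t → ∀ x ∈ W, x ≠ 0 → s + t + x ∈ A)
    {W : AddSubgroup V} {s t γ : V} (hc : Conf A W s t) (h8 : 8 ≤ Nat.card W)
    (hγ : Sgl A W γ) (hγW : γ ∉ W) (hγs : γ + s ∉ W) (hγt : γ + t ∉ W)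
    (hsum : mm A W (γ + s) + mm A W (γ + t) + mm A W (γ + (s + t)) ≤ 6) : False := by
  have hγ1 := mm1 A W h2 γ hγ
  have c := claim1 hEXH hSPN hMEE h2 A h0 hfull hc h8 hγ hγW (by
    rw [card_XX h2 A, card_XX h2 A, card_XX h2 A]
    exact hsum)
  obtain ⟨c1, c2, c3⟩ := c
  have d1 := card_XX h2 A W γ s
  have d2 := card_XX h2 A W γ t
  have d3 := card_XX h2 A W γ (s + t)
  have q1 := posX h2 A h0 hc.mx γ s
  have q2 := posX h2 A h0 hc.mx γ t
  have hcases : (XX A W γ s).card = 1 ∨ (XX A W γ t).card = 1 ∨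
      ((XX A W γ s).card = 2 ∧ (XX A W γ t).card = 3) ∨
      ((XX A W γ t).card = 2 ∧ (XX A W γ s).card = 3) := by omega
  rcases hcases with h | h | h | h
  · obtain ⟨β, hβ, hβW⟩ := sg1 h2 A W (γ + s) (by omega)
    have hβn : β ∉ W := fun h1 => hγs (by
      have h3 := W.add_mem h1 hβW
      rwa [h2.cancel β (γ + s)] at h3)
    have m1 : mm A W (β + s) = mm A W γ := mm_congr h2 A W (tr hβW (by abel))
    have m2 : mm A W (β + t) = mm A W (γ + (s + t)) :=
      mm_congr h2 A W (tr hβW (by linear_combination (norm := abel) (-1 : ℤ) • h2 t))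
    have m3 : mm A W (β + (s + t)) = mm A W (γ + t) :=
      mm_congr h2 A W (tr hβW (by linear_combination (norm := abel) (-1 : ℤ) • h2 t))
    have c' := claim1 hEXH hSPN hMEE h2 A h0 hfull hc h8 hβ hβn (by
      rw [card_XX h2 A, card_XX h2 A, card_XX h2 A, m1, m2, m3]
      omega)
    have c'1 := c'.1
    rw [card_XX h2 A, card_XX h2 A, m1, m2] at c'1
    omega
  · obtain ⟨β, hβ, hβW⟩ := sg1 h2 A W (γ + t) (by omega)
    have hβn : β ∉ W := fun h1 => hγt (by
      have h3 := W.add_mem h1 hβW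
      rwa [h2.cancel β (γ + t)] at h3)
    have m1 : mm A W (β + s) = mm A W (γ + (s + t)) :=
      mm_congr h2 A W (tr hβW (by linear_combination (norm := abel) (-1 : ℤ) • h2 s))
    have m2 : mm A W (β + t) = mm A W γ := mm_congr h2 A W (tr hβW (by abel))
    have m3 : mm A W (β + (s + t)) = mm A W (γ + s) :=
      mm_congr h2 A W (tr hβW (by linear_combination (norm := abel) (-1 : ℤ) • h2 s))
    have c' := claim1 hEXH hSPN hMEE h2 A h0 hfull hc h8 hβ hβn (by
      rw [card_XX h2 A, card_XX h2 A, card_XX h2 A, m1, m2, m3]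
      omega)
    have c'1 := c'.1
    rw [card_XX h2 A, card_XX h2 A, m1, m2] at c'1
    omega
  · exact fin hEXH hSPN hMEE h2 A h0 hfull hc h8 hγ hγW h.1 h.2 c2 c3
  · refine fin hEXH hSPN hMEE h2 A h0 hfull
      ⟨hc.mx, hc.t1, hc.s1, fun h1 => hc.no (trA h1 (add_comm t s))⟩ h8 hγ hγW h.1 h.2 ?_
      (fun S hS g1 g2 => c3 S hS g2 g1)
    rw [add_comm t s]
    exact c2

theorem lemL (hEXH : SpecEXH) (hSPN : SpecSPN) (hMEE : SpecMEE) (h2 : Two V) (A : Finset V)
    (h0 : (0 : V) ∈ A)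
    (hfull : ∀ (W : AddSubgroup V) (s t : V), Conf A W s t → ∀ x ∈ W, x ≠ 0 → s + t + x ∈ A)
    {W : AddSubgroup V} {s t y : V} (hc : Conf A W s t) (h8 : 8 ≤ Nat.card W)
    (hy : mm A W y = 1) (hyW : y ∉ W) (hys : y + s ∉ W) (hyt : y + t ∉ W)
    (hsum : mm A W (y + s) + mm A W (y + t) + mm A W (y + s + t) ≤ 6) : False := by
  obtain ⟨γ, hγ, hγW⟩ := sg1 h2 A W y hy
  have m1 : mm A W (γ + s) = mm A W (y + s) :=
    mm_congr h2 A W (tr hγW (by linear_combination (norm := abel) (-1 : ℤ) • h2 s))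
  have m2 : mm A W (γ + t) = mm A W (y + t) :=
    mm_congr h2 A W (tr hγW (by linear_combination (norm := abel) (-1 : ℤ) • h2 t))
  have m3 : mm A W (γ + (s + t)) = mm A W (y + s + t) :=
    mm_congr h2 A W (tr hγW (by
      linear_combination (norm := abel) (-1 : ℤ) • h2 s + (-1 : ℤ) • h2 t))
  refine main2 hEXH hSPN hMEE h2 A h0 hfull hc h8 hγ ?_ ?_ ?_ (by rw [m1, m2, m3]; exact hsum)
  · intro h
    apply hyW
    have h3 := W.add_mem h hγW
    rwa [h2.cancel γ y] at h3
  · intro h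
    apply hys
    exact tr (W.add_mem h hγW) (by linear_combination (norm := abel) h2 γ)
  · intro h
    apply hyt
    exact tr (W.add_mem h hγW) (by linear_combination (norm := abel) h2 γ)

end FULM

open FULM in
theorem specFUL (hEXH : SpecEXH) (hSPN : SpecSPN) (hMEE : SpecMEE) : SpecFUL := by
  intro V _ _ _ h2 A h0 hA hfull W s t hc h8
  -- the average
  have hs : ∀ u : V, ∑ v : V, mm A W (v + u) = A.card * Nat.card W := by
    intro u
    rw [← sum_mm h2 A W]
    exact Equiv.sum_comp (Equiv.addRight u) (fun v => mm A W v)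
  have hy : ∃ y : V, mm A W y + mm A W (y + s) + mm A W (y + t) + mm A W (y + s + t) ≤ 7 := by
    by_contra hcon
    push Not at hcon
    have h1 : ∑ _v : V, 8 ≤ ∑ v : V, (mm A W v + mm A W (v + s) + mm A W (v + t) +
        mm A W (v + s + t)) := Finset.sum_le_sum fun v _ => hcon v
    rw [Finset.sum_const, Finset.sum_add_distrib, Finset.sum_add_distrib, Finset.sum_add_distrib,
      sum_mm h2 A W, hs s, hs t] at h1
    have h3 : ∑ v : V, mm A W (v + s + t) = A.card * Nat.card W := by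
      rw [← hs (s + t)]
      refine Finset.sum_congr rfl fun v _ => ?_
      rw [add_assoc]
    rw [h3, Finset.card_univ, card_V W, smul_eq_mul] at h1
    have h4 : (2 * W.index) * Nat.card W ≤ A.card * Nat.card W := by
      have e1 : W.index * Nat.card W * 8 = 4 * ((2 * W.index) * Nat.card W) := by ring
      have e2 : A.card * Nat.card W + A.card * Nat.card W + A.card * Nat.card W +
        A.card * Nat.card W = 4 * (A.card * Nat.card W) := by ring
      rw [e1, e2] at h1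
      omega
    have h5 := Nat.le_of_mul_le_mul_right h4 (by omega)
    have h6 := hA W hc.mx
    omega
  obtain ⟨y, hy⟩ := hy
  have p1 := mm_pos h2 A h0 hc.mx y
  have p2 := mm_pos h2 A h0 hc.mx (y + s)
  have p3 := mm_pos h2 A h0 hc.mx (y + t)
  have p4 := mm_pos h2 A h0 hc.mx (y + s + t)
  -- the large coset
  have hX : 7 ≤ mm A W (s + t) := by
    rw [← card_XX h2 A]
    obtain ⟨T, hT, hTc⟩ := cardF W
    have h1 : T.erase 0 ⊆ XX A W s t := by
      intro v hv
      rw [Finset.mem_erase, hT] at hv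
      exact (mem_XX A W _ _ _).2 ⟨hv.2, hfull W s t hc v hv.2 hv.1⟩
    have h3 := Finset.card_le_card h1
    rw [Finset.card_erase_of_mem ((hT 0).2 W.zero_mem), hTc] at h3
    omega
  have y0 : y ∉ W := by
    intro h
    have e : mm A W (y + s + t) = mm A W (s + t) :=
      mm_congr h2 A W (tr h (by
        linear_combination (norm := abel) (-1 : ℤ) • h2 s + (-1 : ℤ) • h2 t))
    omega
  have ys : y + s ∉ W := by
    intro h
    have e : mm A W (y + t) = mm A W (s + t) :=
      mm_congr h2 A W (tr h (by linear_combination (norm := abel) (-1 : ℤ) • h2 t))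
    omega
  have yt : y + t ∉ W := by
    intro h
    have e : mm A W (y + s) = mm A W (s + t) :=
      mm_congr h2 A W (tr h (by linear_combination (norm := abel) (-1 : ℤ) • h2 s))
    omega
  have yst : y + s + t ∉ W := by
    intro h
    have e : mm A W y = mm A W (s + t) := mm_congr h2 A W (tr h (by abel))
    omega
  have hcases : mm A W y = 1 ∨ mm A W (y + s) = 1 ∨ mm A W (y + t) = 1 ∨
      mm A W (y + s + t) = 1 := by omega
  have f1 : y + s + s = y := h2.cancel' s y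
  have f2 : y + t + t = y := h2.cancel' t y
  have f3 : y + t + s = y + s + t := by abel
  have f4 : y + s + t + t = y + s := h2.cancel' t (y + s)
  have f5 : y + s + t + s = y + t := by linear_combination (norm := abel) h2 s
  rcases hcases with h | h | h | h
  · exact lemL hEXH hSPN hMEE h2 A h0 hfull hc h8 h y0 ys yt (by omega)
  · refine lemL hEXH hSPN hMEE h2 A h0 hfull hc h8 h ys (by rw [f1]; exact y0) yst ?_
    rw [f1]
    omega
  · refine lemL hEXH hSPN hMEE h2 A h0 hfull hc h8 h yt (by rw [f3]; exact yst)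
      (by rw [f2]; exact y0) ?_
    rw [f3, f2, f4]
    omega
  · refine lemL hEXH hSPN hMEE h2 A h0 hfull hc h8 h yst (by rw [f5]; exact yt)
      (by rw [f4]; exact ys) ?_
    rw [f5, f4, f2]
    omega

end Pool.Agent.Lib.MP_b63a06_co.FR
end

section
set_option autoImplicit false

/-!
# MP_b63a06_co, module HYP (helper20)

A hyperplane outside of which `Q` has more elements than `P`.
-/

namespace Pool.Agent.Lib.MP_b63a06_co.FR

open Pool.Agent.Lib.MP_b63a06_co

namespace HYPM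

section

variable {V : Type} [AddCommGroup V] [Fintype V]

open Classical in
/-- the elements of `Q` outside of `H` -/
noncomputable def out (Q : Finset V) (H : AddSubgroup V) : Finset V := Q.filter (fun q => q ∉ H)

theorem mem_out (Q : Finset V) (H : AddSubgroup V) (q : V) : q ∈ out Q H ↔ q ∈ Q ∧ q ∉ H := by
  unfold out
  simp

theorem ncard_out (Q : Finset V) (H : AddSubgroup V) :
    {q | q ∈ Q ∧ q ∉ H}.ncard = (out Q H).card := by
  rw [← Set.ncard_coe_finset]
  congr 1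
  ext q
  simp [mem_out]

open Classical in
/-- the elements `v` of `F` outside of `H` with `q ∉ ext H v` -/
noncomputable def NN (h2 : Two V) (F H : AddSubgroup V) (q : V) : Finset V :=
  Finset.univ.filter (fun v => (v ∈ F ∧ v ∉ H) ∧ q ∉ ext h2 H v)

theorem mem_NN (h2 : Two V) (F H : AddSubgroup V) (q v : V) :
    v ∈ NN h2 F H q ↔ (v ∈ F ∧ v ∉ H) ∧ q ∉ ext h2 H v := by
  unfold NN
  simp

open Classical in
theorem card_NN (h2 : Two V) (F H : AddSubgroup V) (hHF : H ≤ F) (q : V) (hqF : q ∈ F)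
    (hqH : q ∉ H) : (NN h2 F H q).card + (Finset.univ.filter (fun v => v ∈ H)).card =
      (Finset.univ.filter (fun v => v ∈ F ∧ v ∉ H)).card := by
  have h1 : (Finset.univ.filter (fun v => v ∈ F ∧ v ∉ H)) =
      NN h2 F H q ∪ (Finset.univ.filter (fun v => v ∈ H)).image (fun v => q + v) := by
    ext v
    rw [Finset.mem_union, mem_NN, Finset.mem_image, mem_ext]
    simp only [Finset.mem_filter, Finset.mem_univ, true_and]
    constructor
    · intro hv
      by_cases h : q + v ∈ H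
      · right
        exact ⟨q + v, h, h2.cancel q v⟩
      · left
        exact ⟨hv, fun h3 => h3.elim hqH h⟩
    · rintro (h | ⟨y, hy, rfl⟩)
      · exact h.1
      · refine ⟨F.add_mem hqF (hHF hy), fun h => hqH ?_⟩
        have h3 := H.add_mem h hy
        rwa [h2.cancel' y q] at h3
  have hd : Disjoint (NN h2 F H q)
      ((Finset.univ.filter (fun v => v ∈ H)).image (fun v => q + v)) := by
    rw [Finset.disjoint_left]
    intro v hv hv'
    rw [mem_NN, mem_ext] at hv
    rw [Finset.mem_image] at hv'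
    obtain ⟨y, hy, rfl⟩ := hv'
    simp only [Finset.mem_filter, Finset.mem_univ, true_and] at hy
    apply hv.2
    right
    rwa [h2.cancel q y]
  rw [h1, Finset.card_union_of_disjoint hd,
    Finset.card_image_of_injective _ (add_right_injective q)]

open Classical in
theorem dc (h2 : Two V) (F H : AddSubgroup V) (Q : Finset V) :
    ∑ v ∈ Finset.univ.filter (fun v => v ∈ F ∧ v ∉ H), (out Q (ext h2 H v)).card =
      ∑ q ∈ out Q H, (NN h2 F H q).card := by
  have h1 : ∀ v : V, out Q (ext h2 H v) = (out Q H).filter (fun q => q ∉ ext h2 H v) := by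
    intro v
    ext q
    rw [mem_out, Finset.mem_filter, mem_out]
    constructor
    · rintro ⟨a, b⟩
      exact ⟨⟨a, fun h => b (le_ext h2 H v h)⟩, b⟩
    · rintro ⟨⟨a, -⟩, b⟩
      exact ⟨a, b⟩
  have h3 : ∀ q : V, NN h2 F H q =
      (Finset.univ.filter (fun v => v ∈ F ∧ v ∉ H)).filter (fun v => q ∉ ext h2 H v) := by
    intro q
    unfold NN
    rw [Finset.filter_filter]
  simp only [h1, h3, Finset.card_filter]
  rw [Finset.sum_comm]

end

end HYPM

open HYPM in
theorem specHYP : SpecHYP := by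
  classical
  intro V _ _ _ h2 F K P Q hKF hP hQ hlt
  rw [ncard_out, ncard_out] at hlt
  let T : AddSubgroup V → Prop := fun U => K ≤ U ∧ U ≤ F ∧ (out P U).card < (out Q U).card
  obtain ⟨U, hU, hmax⟩ := Set.exists_max_image {U : AddSubgroup V | T U} (fun U => Nat.card U)
    (Set.toFinite _) ⟨K, le_refl K, hKF, hlt⟩
  obtain ⟨hKU, hUF, hUlt⟩ := hU
  have hne : (out Q U).Nonempty := by
    rw [← Finset.card_pos]
    omega
  obtain ⟨w, hw⟩ := hne
  rw [mem_out] at hw
  have hwF := hQ w hw.1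
  refine ⟨U, w, ⟨hUF, hwF, hw.2, ?_⟩, hKU, by rw [ncard_out, ncard_out]; exact hUlt⟩
  intro x hx
  by_contra hcon
  push Not at hcon
  obtain ⟨hxU, hxw⟩ := hcon
  have key : ∀ v ∈ Finset.univ.filter (fun v => v ∈ F ∧ v ∉ U),
      (out Q (ext h2 U v)).card ≤ (out P (ext h2 U v)).card := by
    intro v hv
    simp only [Finset.mem_filter, Finset.mem_univ, true_and] at hv
    by_contra hc
    push Not at hc
    have hT : T (ext h2 U v) := by
      refine ⟨hKU.trans (le_ext h2 U v), ?_, hc⟩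
      rintro y (hy | hy)
      · exact hUF hy
      · have h5 := F.add_mem (hUF hy) hv.1
        rwa [h2.cancel' v y] at h5
    have h5 : Nat.card (ext h2 U v) ≤ Nat.card U := hmax _ hT
    rw [card_ext h2 U v hv.2] at h5
    have h6 : 0 < Nat.card U := Nat.card_pos
    omega
  have hs := Finset.sum_le_sum key
  rw [dc, dc] at hs
  have hc : ∀ q ∈ F, q ∉ U → (NN h2 F U q).card = (NN h2 F U w).card := by
    intro q hq hqU
    have a := card_NN h2 F U hUF q hq hqU
    have b := card_NN h2 F U hUF w hwF hw.2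
    omega
  have hpos : 0 < (NN h2 F U w).card := by
    rw [Finset.card_pos]
    refine ⟨x, ?_⟩
    rw [mem_NN, mem_ext]
    refine ⟨⟨hx, hxU⟩, ?_⟩
    rintro (h | h)
    · exact hw.2 h
    · rw [add_comm] at h
      exact hxw h
  have sQ : ∑ q ∈ out Q U, (NN h2 F U q).card = (out Q U).card * (NN h2 F U w).card := by
    rw [Finset.sum_congr rfl (fun q hq => hc q (hQ q ((mem_out _ _ _).1 hq).1)
      ((mem_out _ _ _).1 hq).2), Finset.sum_const, smul_eq_mul]
  have sP : ∑ q ∈ out P U, (NN h2 F U q).card = (out P U).card * (NN h2 F U w).card := by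
    rw [Finset.sum_congr rfl (fun q hq => hc q (hP q ((mem_out _ _ _).1 hq).1)
      ((mem_out _ _ _).1 hq).2), Finset.sum_const, smul_eq_mul]
  rw [sQ, sP] at hs
  have := Nat.le_of_mul_le_mul_right hs hpos
  omega

end Pool.Agent.Lib.MP_b63a06_co.FR
end

section
set_option autoImplicit false

/-!
# MP_b63a06_co, module KER (helper59)
-/

namespace Pool.Agent.Lib.MP_b63a06_co.FR

open Pool.Agent.Lib.MP_b63a06_co

namespace KERM

theorem nf0 : ∀ i ∈ NF, i ≠ 0 ∧ i < 16 := by decide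

theorem nfee : ∀ i ∈ NF, i ∉ EE := by decide

theorem eelt : ∀ k ∈ EE, k < 16 := by decide

section

variable {V : Type} [AddCommGroup V]

theorem gg_mem (F : AddSubgroup V) (e : ℕ → V) (n i : ℕ) (h : ∀ b < n, e b ∈ F) :
    gg e n i ∈ F := by
  unfold gg
  refine F.sum_mem fun b hb => ?_
  split_ifs
  · exact h b (Finset.mem_range.1 hb)
  · exact F.zero_mem

theorem eq_of_add_mem (h2 : Two V) {F R : AddSubgroup V} {e : ℕ → V} (hR : Cpl F e R) {k l : ℕ}
    (hk : k < 16) (hl : l < 16) (h : gg e 4 k + gg e 4 l ∈ R) : k = l := by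
  rw [← gg_xor h2] at h
  exact Nat.xor_eq_zero_iff.1 (hR.dj _ (Nat.xor_lt_two_pow (n := 4) hk hl) h)

theorem card_F (h2 : Two V) {F R : AddSubgroup V} {e : ℕ → V} (he : ∀ b < 4, e b ∈ F)
    (hR : Cpl F e R) : Nat.card F = 16 * Nat.card R := by
  let f : Fin 16 × R → F := fun p =>
    ⟨p.2.1 + gg e 4 p.1.1, F.add_mem (hR.le p.2.2) (gg_mem F e 4 _ he)⟩
  have hf : Function.Bijective f := by
    constructor
    · rintro ⟨i, r, hr⟩ ⟨j, s, hs⟩ hij
      have h1 : r + gg e 4 i.1 = s + gg e 4 j.1 := congrArg Subtype.val hij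
      have h3 : gg e 4 i.1 + gg e 4 j.1 = r + s := by
        have h4 : gg e 4 i.1 = r + (s + gg e 4 j.1) := by
          rw [← h1, h2.cancel]
        rw [h4, ← add_assoc, h2.cancel']
      have h5 : i.1 = j.1 := eq_of_add_mem h2 hR i.2 j.2 (by
        rw [h3]
        exact R.add_mem hr hs)
      have h6 : i = j := Fin.ext h5
      subst h6
      have h7 : r = s := add_right_cancel h1
      subst h7
      rfl
    · rintro ⟨x, hx⟩
      obtain ⟨i, hi, h⟩ := hR.gen x hx
      refine ⟨(⟨i, hi⟩, ⟨x + gg e 4 i, h⟩), ?_⟩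
      apply Subtype.ext
      exact h2.cancel' _ _
  rw [← Nat.card_congr (Equiv.ofBijective f hf), Nat.card_prod, Nat.card_eq_fintype_card,
    Fintype.card_fin]

end

end KERM

open KERM in
theorem specKER : SpecKER := by
  intro V _ _ _ h2 A h0 F e R hF hR i hi j hj hij
  obtain ⟨hi0, hi16⟩ := nf0 i hi
  obtain ⟨hj0, hj16⟩ := nf0 j hj
  obtain ⟨hij0, hij16⟩ := nf0 _ hij
  have key : ∀ a ∈ A, ∀ l, l < 16 → l ∉ EE ∨ l = 0 → a + gg e 4 l ∈ R → a = 0 := by
    intro a ha l hl hle h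
    have haF : a ∈ F := by
      have h1 := F.add_mem (hR.le h) (gg_mem F e 4 l hF.mem)
      rwa [h2.cancel'] at h1
    obtain ⟨k, hk, rfl⟩ := (hF.cut a).1 ⟨ha, haF⟩
    have h1 := eq_of_add_mem h2 hR (eelt k hk) hl h
    subst h1
    rcases hle with h3 | h3
    · exact absurd hk h3
    · rw [h3, gg_zero]
  constructor
  · intro a ha haZ
    rcases haZ with (h | h) | (h | h)
    · exact key a ha 0 (by norm_num) (Or.inr rfl) (by rwa [gg_zero, add_zero])
    · exact key a ha i hi16 (Or.inl (nfee i hi)) h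
    · exact key a ha j hj16 (Or.inl (nfee j hj)) h
    · refine key a ha (i ^^^ j) hij16 (Or.inl (nfee _ hij)) ?_
      rw [gg_xor h2]
      have e1 : a + (gg e 4 i + gg e 4 j) = a + gg e 4 j + gg e 4 i := by abel
      rw [e1]
      exact h
  · intro U hU
    obtain ⟨W, hW⟩ := exMaxAv A
    have h1 := hF.big W hW
    have h3 := card_F h2 hF.mem hR
    have h4 := hW.max U hU
    have h5 : gg e 4 i ∉ R := fun h => hi0 (hR.dj i hi16 h)
    have h6 : gg e 4 j ∉ ext h2 R (gg e 4 i) := by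
      rintro (h | h)
      · exact hj0 (hR.dj j hj16 h)
      · have h7 := eq_of_add_mem h2 hR hj16 hi16 h
        apply hij0
        rw [h7, Nat.xor_self]
    rw [card_ext h2 _ _ h6, card_ext h2 _ _ h5]
    omega

end Pool.Agent.Lib.MP_b63a06_co.FR
end

section
set_option autoImplicit false

/-!
# MP_b63a06_co, module LFR (helper57)
-/

namespace Pool.Agent.Lib.MP_b63a06_co.FR

open Pool.Agent.Lib.MP_b63a06_co

namespace LFRM

theorem tab : ∀ m ∈ EE, ∀ l ∈ NF, l ^^^ m ∈ NF → ∃ f ∈ Finset.range 16,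
    f ∉ EE ∧ f ^^^ (l ^^^ m) ∉ EE ∧ f ^^^ l ∉ EE ∧ (f ^^^ l) ^^^ (l ^^^ m) ∉ EE := by decide

theorem lt16 {a b : ℕ} (ha : a < 16) (hb : b < 16) : a ^^^ b < 16 :=
  Nat.xor_lt_two_pow (n := 4) ha hb

section

variable {V : Type} [AddCommGroup V]

/-- `g_a + g_b ∈ ext R g_d` -/
theorem two (h2 : Two V) {F R : AddSubgroup V} {e : ℕ → V} (hR : Cpl F e R) {a b d : ℕ}
    (ha : a < 16) (hb : b < 16) (hd : d < 16) (h : gg e 4 a + gg e 4 b ∈ ext h2 R (gg e 4 d)) :
    a = b ∨ a = b ^^^ d := by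
  rcases h with h | h
  · exact Or.inl (KERM.eq_of_add_mem h2 hR ha hb h)
  · right
    apply KERM.eq_of_add_mem h2 hR ha (lt16 hb hd)
    rw [gg_xor h2, ← add_assoc]
    exact h

end

end LFRM

open LFRM in
theorem specLFR (hCPF : SpecCPF) (hFNB : SpecFNB) : SpecLFR := by
  classical
  intro V _ _ _ h2 A h0 F e α β hF hα hβ hαF hβF habF hcard m hm
  by_contra hmQ
  have hgF : ∀ i, gg e 4 i ∈ F := fun i => KERM.gg_mem F e 4 i hF.mem
  obtain ⟨R, -, hR, hRY⟩ := hCPF V h2 A F e hF ⊥ ((QQ A F (α + β)).image (fun q => q + gg e 4 m))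
    bot_le
    (by
      intro i hi h
      rw [AddSubgroup.mem_bot] at h
      exact hF.inj i hi h)
    (by
      intro y hy h
      rw [AddSubgroup.mem_bot] at h
      obtain ⟨q, hq, rfl⟩ := Finset.mem_image.1 hy
      rw [h2.eq_of_add h] at hq
      exact hmQ hq)
    (by
      have h1 := Finset.card_image_le (s := QQ A F (α + β)) (f := fun q => q + gg e 4 m)
      omega)
  -- the set P
  let P : Finset ℕ := (Finset.range 16).filter (fun i => ∃ q ∈ QQ A F (α + β), q + gg e 4 i ∈ R)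
  have hP : ∀ i, i ∈ P ↔ i < 16 ∧ ∃ q ∈ QQ A F (α + β), q + gg e 4 i ∈ R := by
    intro i
    simp only [P, Finset.mem_filter, Finset.mem_range]
  have hPc : P.card ≤ 9 := by
    have h1 : ∀ i ∈ P, ∃ q, q ∈ QQ A F (α + β) ∧ q + gg e 4 i ∈ R := fun i hi => ((hP i).1 hi).2
    choose! f hf using h1
    have h3 : P.card ≤ (QQ A F (α + β)).card := by
      apply Finset.card_le_card_of_injOn f (fun i hi => (hf i hi).1)
      intro i hi j hj hij
      have h4 := (hf i hi).2
      have h5 := (hf j hj).2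
      rw [← hij] at h5
      have h6 := R.add_mem h4 h5
      have e1 : f i + gg e 4 i + (f i + gg e 4 j) = (f i + f i) + (gg e 4 i + gg e 4 j) := by abel
      rw [e1, h2, zero_add] at h6
      exact KERM.eq_of_add_mem h2 hR ((hP i).1 hi).1 ((hP j).1 hj).1 h6
    omega
  have hmP : m ∉ P := by
    intro h
    obtain ⟨-, q, hq, hqR⟩ := (hP m).1 h
    exact hRY _ (Finset.mem_image.2 ⟨q, hq, rfl⟩) hqR
  apply hmP
  refine hFNB P (fun i hi => ((hP i).1 hi).1) ?_ hPc m hm
  intro m' hm' l hl hd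
  obtain ⟨f, hf, hf1, hf3, hf4, hf5⟩ := tab m' hm' l hl hd
  rw [Finset.mem_range] at hf
  obtain ⟨hl0, hl16⟩ := KERM.nf0 l hl
  obtain ⟨hd0, hd16⟩ := KERM.nf0 _ hd
  have hm16 := KERM.eelt m' hm'
  have hg16 : f ^^^ l < 16 := lt16 hf hl16
  -- the subgroup Z
  set G1 : AddSubgroup V := ext h2 R (gg e 4 (l ^^^ m')) with hG1
  have hG1F : G1 ≤ F := by
    rintro x (h | h)
    · exact hR.le h
    · have h1 := F.add_mem (hR.le h) (hgF (l ^^^ m'))
      rwa [h2.cancel'] at h1
  set G3 : AddSubgroup V := ext h2 G1 (α + gg e 4 f) with hG3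
  have c1 : gg e 4 (l ^^^ m') ∉ R := fun h => hd0 (hR.dj _ hd16 h)
  have c3 : α + gg e 4 f ∉ G1 := by
    intro h
    apply hαF
    have h1 := F.add_mem (hG1F h) (hgF f)
    rwa [h2.cancel'] at h1
  have c4 : β + gg e 4 (f ^^^ l) ∉ G3 := by
    rintro (h | h)
    · apply hβF
      have h1 := F.add_mem (hG1F h) (hgF (f ^^^ l))
      rwa [h2.cancel'] at h1
    · apply habF
      have h1 := F.add_mem (F.add_mem (hG1F h) (hgF (f ^^^ l))) (hgF f)
      have e1 : β + gg e 4 (f ^^^ l) + (α + gg e 4 f) + gg e 4 (f ^^^ l) + gg e 4 f =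
        α + β + (gg e 4 (f ^^^ l) + gg e 4 (f ^^^ l)) + (gg e 4 f + gg e 4 f) := by abel
      rwa [e1, h2, h2, add_zero, add_zero] at h1
  have hcardZ : Nat.card (ext h2 G3 (β + gg e 4 (f ^^^ l))) = 8 * Nat.card R := by
    rw [card_ext h2 _ _ c4, hG3, card_ext h2 _ _ c3, hG1, card_ext h2 _ _ c1]
    ring
  obtain ⟨W, hW⟩ := exMaxAv A
  have h3 := hF.big W hW
  have h4 := KERM.card_F h2 hF.mem hR
  have h5 : 0 < Nat.card R := Nat.card_pos
  have hex : ¬ ∀ a ∈ A, a ∈ ext h2 G3 (β + gg e 4 (f ^^^ l)) → a = 0 := by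
    intro h
    have h6 := hW.max _ h
    omega
  push Not at hex
  obtain ⟨a, haA, haZ, ha0⟩ := hex
  rcases haZ with (haZ | haZ) | (haZ | haZ)
  · -- a ∈ F
    exfalso
    obtain ⟨k, hk, rfl⟩ := (hF.cut a).1 ⟨haA, hG1F haZ⟩
    have h6 : gg e 4 k + gg e 4 0 ∈ ext h2 R (gg e 4 (l ^^^ m')) := by
      rw [gg_zero, add_zero]
      exact haZ
    rcases two h2 hR (KERM.eelt k hk) (by norm_num) hd16 h6 with h7 | h7
    · rw [h7, gg_zero] at ha0
      exact ha0 rfl
    · rw [Nat.zero_xor] at h7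
      rw [h7] at hk
      exact KERM.nfee _ hd hk
  · -- a ∈ α + F
    exfalso
    have h6 : a + α ∈ F := by
      have h7 := F.add_mem (hG1F haZ) (hgF f)
      have e1 : a + (α + gg e 4 f) + gg e 4 f = a + α + (gg e 4 f + gg e 4 f) := by abel
      rwa [e1, h2, add_zero] at h7
    obtain ⟨k, hk, rfl⟩ := (hα a).1 ⟨haA, h6⟩
    have e1 : α + gg e 4 k + (α + gg e 4 f) = (α + α) + (gg e 4 k + gg e 4 f) := by abel
    rw [e1, h2, zero_add] at haZ
    rcases two h2 hR (KERM.eelt k hk) hf hd16 haZ with h7 | h7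
    · exact hf1 (h7 ▸ hk)
    · exact hf3 (h7 ▸ hk)
  · -- a ∈ β + F
    exfalso
    have h6 : a + β ∈ F := by
      have h7 := F.add_mem (hG1F haZ) (hgF (f ^^^ l))
      have e1 : a + (β + gg e 4 (f ^^^ l)) + gg e 4 (f ^^^ l) =
        a + β + (gg e 4 (f ^^^ l) + gg e 4 (f ^^^ l)) := by abel
      rwa [e1, h2, add_zero] at h7
    obtain ⟨k, hk, rfl⟩ := (hβ a).1 ⟨haA, h6⟩
    have e1 : β + gg e 4 k + (β + gg e 4 (f ^^^ l)) =
      (β + β) + (gg e 4 k + gg e 4 (f ^^^ l)) := by abel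
    rw [e1, h2, zero_add] at haZ
    rcases two h2 hR (KERM.eelt k hk) hg16 hd16 haZ with h7 | h7
    · exact hf4 (h7 ▸ hk)
    · exact hf5 (h7 ▸ hk)
  · -- a ∈ α + β + F
    have e1 : a + (β + gg e 4 (f ^^^ l)) + (α + gg e 4 f) =
        (α + β + a) + gg e 4 l + (gg e 4 f + gg e 4 f) := by
      rw [gg_xor h2]
      abel
    rw [e1, h2, add_zero] at haZ
    have h6 : α + β + a ∈ F := by
      have h7 := F.add_mem (hG1F haZ) (hgF l)
      rwa [h2.cancel'] at h7
    have h7 : α + β + a ∈ QQ A F (α + β) := by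
      rw [mem_QQ]
      refine ⟨h6, ?_⟩
      rw [h2.cancel]
      exact haA
    rcases haZ with h8 | h8
    · right
      exact (hP l).2 ⟨hl16, _, h7, h8⟩
    · left
      refine (hP m').2 ⟨hm16, _, h7, ?_⟩
      have e3 : α + β + a + gg e 4 l + gg e 4 (l ^^^ m') =
          α + β + a + gg e 4 m' + (gg e 4 l + gg e 4 l) := by
        rw [gg_xor h2]
        abel
      rwa [e3, h2, add_zero] at h8

end Pool.Agent.Lib.MP_b63a06_co.FR
end

section
set_option autoImplicit false

/-!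
# MP_b63a06_co, module LMB (helper24)
-/

namespace Pool.Agent.Lib.MP_b63a06_co.FR

open Pool.Agent.Lib.MP_b63a06_co

namespace LMBM

theorem eelt : ∀ k ∈ EE, k < 16 := by decide

theorem zee : 0 ∈ EE := by decide

theorem rigid : ∀ i ∈ EE, (∀ j ∈ EE, i ^^^ j ∈ EE) → i = 0 := by decide

theorem ee6 : EE.card = 6 := by decide

section

variable {V : Type} [AddCommGroup V] [Fintype V] [DecidableEq V]

theorem fin_ee (h2 : Two V) {A : Finset V} {F : AddSubgroup V} {e : ℕ → V} (hF : Frame A F e)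
    {i j : ℕ} (hi : i < 16) (hj : j < 16) (h : gg e 4 i = gg e 4 j) : i = j :=
  gg_inj h2 e 4 (fun i hi h => hF.inj i hi h) i j hi hj h

/-- two centres of the same coset are equal -/
theorem same (h2 : Two V) {A : Finset V} {F : AddSubgroup V} {e : ℕ → V} (hF : Frame A F e)
    {α β : V} (ha : Cen A F e α) (hb : Cen A F e β) (h : β + α ∈ F) : β = α := by
  have hz : gg e 4 0 = 0 := gg_zero e 4
  have h1 : β ∈ A ∧ β + β ∈ F := (hb β).2 ⟨0, zee, by rw [hz, add_zero]⟩
  obtain ⟨i, hi, hi1⟩ := (ha β).1 ⟨h1.1, h⟩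
  have h3 : i = 0 := by
    refine rigid i hi fun j hj => ?_
    have h4 : β + gg e 4 j ∈ A ∧ β + gg e 4 j + β ∈ F := (hb _).2 ⟨j, hj, rfl⟩
    have h5 : β + gg e 4 j + α ∈ F := by
      have h6 := F.add_mem h4.2 h
      have e1 : β + gg e 4 j + β + (β + α) = β + gg e 4 j + α + (β + β) := by abel
      rwa [e1, h2 β, add_zero] at h6
    obtain ⟨k, hk, hk1⟩ := (ha _).1 ⟨h4.1, h5⟩
    have h7 : gg e 4 (i ^^^ j) = gg e 4 k := by
      rw [gg_xor h2]
      rw [hi1, add_assoc] at hk1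
      exact add_left_cancel hk1
    have h8 := fin_ee h2 hF (Nat.xor_lt_two_pow (n := 4) (eelt i hi) (eelt j hj)) (eelt k hk) h7
    rw [h8]
    exact hk
  rw [h3, hz, add_zero] at hi1
  exact hi1

theorem zcen {A : Finset V} {F : AddSubgroup V} {e : ℕ → V} (hF : Frame A F e) :
    Cen A F e 0 := by
  intro a
  rw [add_zero, hF.cut]
  simp only [zero_add]

/-- the three cosets of a conflict -/
theorem outs (h2 : Two V) {A : Finset V} (h0 : (0 : V) ∈ A) {F : AddSubgroup V} {e : ℕ → V}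
    {α β : V} (hc : Conf1 A F e α β) : α ∉ F ∧ β ∉ F ∧ α + β ∉ F := by
  have hA : ∀ {γ : V}, Cen A F e γ → γ ∈ A := by
    intro γ hγ
    exact ((hγ γ).2 ⟨0, zee, by rw [gg_zero e 4, add_zero]⟩).1
  refine ⟨fun h => ?_, fun h => ?_, fun h => ?_⟩
  · have h1 := same h2 hc.fr (zcen hc.fr) hc.ca (by rwa [add_zero])
    apply hc.no
    rw [h1, zero_add]
    exact hA hc.cb
  · have h1 := same h2 hc.fr (zcen hc.fr) hc.cb (by rwa [add_zero])
    apply hc.no
    rw [h1, add_zero]
    exact hA hc.ca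
  · have h1 := same h2 hc.fr hc.cb hc.ca h
    apply hc.no
    rw [h1, h2 β]
    exact h0

theorem qq_mm (A : Finset V) (h2 : Two V) (F : AddSubgroup V) (v : V) :
    (QQ A F v).card = mm A F v := by
  unfold mm
  refine Finset.card_bij (fun x _ => v + x) ?_ ?_ ?_
  · intro x hx
    rw [mem_QQ] at hx
    rw [mem_ms]
    refine ⟨hx.2, ?_⟩
    have e1 : v + x + v = x + (v + v) := by abel
    rw [e1, h2 v, add_zero]
    exact hx.1
  · intro x _ y _ hxy
    exact add_left_cancel hxy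
  · intro a ha
    rw [mem_ms] at ha
    refine ⟨v + a, ?_, h2.cancel v a⟩
    rw [mem_QQ, h2.cancel v a, add_comm v a]
    exact ⟨ha.2, ha.1⟩

theorem mm_ext (A : Finset V) (h2 : Two V) (F : AddSubgroup V) (u v : V) (hu : u ∉ F) :
    mm A (ext h2 F u) v = mm A F v + mm A F (v + u) := by
  unfold mm
  rw [← Finset.card_union_of_disjoint]
  · congr 1
    ext a
    rw [Finset.mem_union, mem_ms, mem_ms, mem_ms, mem_ext, add_assoc a v u]
    tauto
  · rw [Finset.disjoint_left]
    intro a h1 h3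
    rw [mem_ms] at h1 h3
    apply hu
    have h4 := F.add_mem h1.2 h3.2
    have e1 : a + v + (a + (v + u)) = u + ((a + v) + (a + v)) := by abel
    rwa [e1, h2 (a + v), add_zero] at h4

/-- a subgroup generated by few elements -/
theorem span (h2 : Two V) (Y : Finset V) : ∃ K : AddSubgroup V, Nat.card K ≤ 2 ^ Y.card ∧
    (∀ y ∈ Y, y ∈ K) ∧ ∀ F : AddSubgroup V, (∀ y ∈ Y, y ∈ F) → K ≤ F := by
  induction Y using Finset.induction_on with
  | empty =>
    refine ⟨⊥, ?_, fun y hy => absurd hy (Finset.notMem_empty y), fun F _ => bot_le⟩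
    rw [Finset.card_empty, pow_zero]
    have h : Nat.card (⊥ : AddSubgroup V) = 1 := by simp
    exact h.le
  | insert y Y hy ih =>
    obtain ⟨K, hK1, hK2, hK3⟩ := ih
    rw [Finset.card_insert_of_notMem hy, pow_succ]
    by_cases hyK : y ∈ K
    · refine ⟨K, by omega, ?_, fun F hF => hK3 F fun z hz => hF z (Finset.mem_insert_of_mem hz)⟩
      intro z hz
      rcases Finset.mem_insert.1 hz with rfl | hz
      · exact hyK
      · exact hK2 z hz
    · refine ⟨ext h2 K y, ?_, ?_, ?_⟩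
      · rw [card_ext h2 K y hyK]
        omega
      · intro z hz
        rcases Finset.mem_insert.1 hz with rfl | hz
        · exact self_mem_ext h2 K z
        · exact le_ext h2 K y (hK2 z hz)
      · intro F hF z hz
        have hKF := hK3 F fun z hz => hF z (Finset.mem_insert_of_mem hz)
        rcases hz with hz | hz
        · exact hKF hz
        · have h1 := F.add_mem (hKF hz) (hF y (Finset.mem_insert_self y Y))
          rwa [h2.cancel'] at h1

open Classical in
/-- splitting of a set by a subgroup -/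
theorem split_card (Q : Finset V) (H : AddSubgroup V) :
    Q.card = {q | q ∈ Q ∧ q ∈ H}.ncard + {q | q ∈ Q ∧ q ∉ H}.ncard := by
  have e1 : {q | q ∈ Q ∧ q ∈ H} = ((Q.filter (fun q => q ∈ H) : Finset V) : Set V) := by
    ext q
    simp
  have e2 : {q | q ∈ Q ∧ q ∉ H} = ((Q.filter (fun q => q ∉ H) : Finset V) : Set V) := by
    ext q
    simp
  rw [e1, e2, Set.ncard_coe_finset, Set.ncard_coe_finset, Finset.card_filter_add_card_filter_not]

/-- the elements of a set without zero in a small subgroup -/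
theorem inK (Q : Finset V) (K : AddSubgroup V) (h0 : (0 : V) ∉ Q) :
    {q | q ∈ Q ∧ q ∈ K}.ncard + 1 ≤ Nat.card K := by
  classical
  have h1 : Nat.card K = (K : Set V).ncard := rfl
  rw [h1, ← Set.ncard_insert_of_notMem (a := (0 : V)) (fun h => h0 h.1) (Set.toFinite _)]
  refine Set.ncard_le_ncard ?_ (Set.toFinite _)
  rintro x (rfl | hx)
  · exact K.zero_mem
  · exact hx.2

end

end LMBM

open LMBM in
theorem specLMB (hHYP : SpecHYP) (hCPF : SpecCPF) (hSIX : SpecSIX) (hLFR : SpecLFR)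
    (hFLP : SpecFLP) : SpecLMB := by
  intro V _ _ _ h2 A h0 hlight hex
  classical
  by_contra hcon
  -- a minimal conflict
  let P : ℕ → Prop := fun n => ∃ (F : AddSubgroup V) (e : ℕ → V) (α β : V), Conf1 A F e α β ∧
    (QQ A F (α + β)).card = n
  have hP : ∃ n, P n := by
    obtain ⟨F, e, α, β, hc⟩ := hex
    exact ⟨_, F, e, α, β, hc, rfl⟩
  obtain ⟨F, e, α, β, hc, hn⟩ := Nat.find_spec hP
  have hmin : ∀ (F' : AddSubgroup V) (e' : ℕ → V) (α' β' : V), Conf1 A F' e' α' β' →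
      (QQ A F (α + β)).card ≤ (QQ A F' (α' + β')).card := by
    intro F' e' α' β' hc'
    rw [hn]
    exact Nat.find_min' hP ⟨F', e', α', β', hc', rfl⟩
  clear hn
  obtain ⟨hαF, hβF, hαβF⟩ := outs h2 h0 hc
  have hfr := hc.fr
  set Q := QQ A F (α + β) with hQ
  have hQ0 : (0 : V) ∉ Q := by
    rw [hQ, mem_QQ]
    rintro ⟨-, h⟩
    rw [add_zero] at h
    exact hc.no h
  have hQ16 : 16 ≤ Q.card := by
    by_contra hlt
    obtain ⟨R, -, hR, hRY⟩ := hCPF V h2 A F e hfr ⊥ Q bot_le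
      (fun i hi h => hfr.inj i hi (AddSubgroup.mem_bot.1 h))
      (fun y hy h => hQ0 (by rwa [AddSubgroup.mem_bot.1 h] at hy)) (by omega)
    exact hcon ⟨F, e, α, β, R, hc, hR, hRY⟩
  have h6 : ∀ v, 6 ≤ mm A F v := by
    intro v
    rw [← qq_mm A h2]
    exact (hSIX V h2 A h0 F e hfr v).1
  -- the large subgroup
  have hβ1 : β ∉ ext h2 F α := by
    rintro (h | h)
    · exact hβF h
    · rw [add_comm] at h
      exact hαβF h
  set U := ext h2 (ext h2 F α) β with hU
  have hUc : Nat.card U = 4 * Nat.card F := by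
    rw [hU, card_ext h2 _ β hβ1, card_ext h2 F α hαF]
    ring
  have hmm : ∀ v, mm A U v = mm A F v + mm A F (v + α) + (mm A F (v + β) + mm A F (v + β + α)) := by
    intro v
    rw [hU, mm_ext A h2 _ β v hβ1, mm_ext A h2 F α _ hαF, mm_ext A h2 F α _ hαF]
  obtain ⟨W, hW⟩ := exMaxAv A
  have hFW := hfr.big W hW
  obtain ⟨v, hv⟩ : ∃ v, mm A U v ≤ 27 := by
    by_contra hall
    push Not at hall
    have h1 : ∑ _v : V, 28 ≤ ∑ v : V, mm A U v := Finset.sum_le_sum fun v _ => hall v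
    rw [sum_mm h2 A U, Finset.sum_const, Finset.card_univ, smul_eq_mul, card_V W, hUc, hFW] at h1
    have h3 := hlight W hW
    have h4 : 0 < Nat.card W := Nat.card_pos
    have h5 : (7 * W.index) * (4 * Nat.card W) ≤ (4 * A.card) * (4 * Nat.card W) := by
      calc (7 * W.index) * (4 * Nat.card W) = W.index * Nat.card W * 28 := by ring
        _ ≤ A.card * (4 * (4 * Nat.card W)) := h1
        _ = (4 * A.card) * (4 * Nat.card W) := by ring
    have h7 := Nat.le_of_mul_le_mul_right h5 (by omega)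
    omega
  have hvU : v ∉ U := by
    intro h
    have h1 : mm A U v = mm A U 0 := mm_congr h2 A U (by rwa [add_zero])
    rw [h1, hmm, zero_add, zero_add] at hv
    have h3 : mm A F (β + α) = Q.card := by
      rw [hQ, qq_mm A h2, add_comm β α]
    have h4 := h6 0
    have h5 := h6 α
    have h7 := h6 β
    omega
  -- a centre outside of U
  obtain ⟨v', hv'U, hv'6⟩ : ∃ v', v' + v ∈ U ∧ mm A F v' = 6 := by
    rw [hmm] at hv
    have h4 := h6 v
    have h5 := h6 (v + α)
    have h7 := h6 (v + β)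
    have h8 := h6 (v + β + α)
    have hαU : α ∈ U := le_ext h2 _ β (self_mem_ext h2 F α)
    have hβU : β ∈ U := self_mem_ext h2 _ β
    have hc4 : mm A F v = 6 ∨ mm A F (v + α) = 6 ∨ mm A F (v + β) = 6 ∨
      mm A F (v + β + α) = 6 := by omega
    rcases hc4 with h | h | h | h
    · exact ⟨v, by rw [h2 v]; exact U.zero_mem, h⟩
    · refine ⟨v + α, ?_, h⟩
      have e1 : v + α + v = α + (v + v) := by abel
      rw [e1, h2 v, add_zero]
      exact hαU
    · refine ⟨v + β, ?_, h⟩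
      have e1 : v + β + v = β + (v + v) := by abel
      rw [e1, h2 v, add_zero]
      exact hβU
    · refine ⟨v + β + α, ?_, h⟩
      have e1 : v + β + α + v = β + α + (v + v) := by abel
      rw [e1, h2 v, add_zero]
      exact U.add_mem hβU hαU
  obtain ⟨γ, hγ, hγv⟩ := (hSIX V h2 A h0 F e hfr v').2 (by rw [qq_mm A h2]; exact hv'6)
  have hFU : F ≤ U := fun x hx => le_ext h2 _ β (le_ext h2 F α hx)
  have hγvU : γ + v ∈ U := by
    have h1 := U.add_mem (hFU hγv) hv'U
    have e1 : γ + v' + (v' + v) = γ + v + (v' + v') := by abel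
    rwa [e1, h2 v', add_zero] at h1
  have hγU : γ ∉ U := by
    intro h
    apply hvU
    have h1 := U.add_mem h hγvU
    rwa [h2.cancel] at h1
  have hγ6 : mm A F γ = 6 := by
    rw [← hv'6]
    exact mm_congr h2 A F hγv
  have hγ27 : mm A U γ ≤ 27 := by
    rw [mm_congr h2 A U hγvU]
    exact hv
  rw [hmm] at hγ27
  have hγF : γ ∉ F := fun h => hγU (hFU h)
  have hαγF : α + γ ∉ F := fun h => hγU (by
    have h1 := U.add_mem (hFU h) (le_ext h2 _ β (self_mem_ext h2 F α) : α ∈ U)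
    have e1 : α + γ + α = γ + (α + α) := by abel
    rwa [e1, h2 α, add_zero] at h1)
  have hβγF : β + γ ∉ F := fun h => hγU (by
    have h1 := U.add_mem (hFU h) (self_mem_ext h2 _ β : β ∈ U)
    have e1 : β + γ + β = γ + (β + β) := by abel
    rwa [e1, h2 β, add_zero] at h1)
  have e1 : γ + α = α + γ := add_comm _ _
  have e2 : γ + β = β + γ := add_comm _ _
  have e3 : γ + β + α = α + β + γ := by abel
  rw [hγ6, e1, e3, e2, ← qq_mm A h2, ← qq_mm A h2, ← qq_mm A h2] at hγ27
  set P1 := QQ A F (α + γ) with hP1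
  set P2 := QQ A F (β + γ) with hP2
  set P3 := QQ A F (α + β + γ) with hP3
  have h61 : 6 ≤ P1.card := (hSIX V h2 A h0 F e hfr _).1
  have h62 : 6 ≤ P2.card := (hSIX V h2 A h0 F e hfr _).1
  have h63 : 6 ≤ P3.card := (hSIX V h2 A h0 F e hfr _).1
  have hg1 := hLFR V h2 A h0 F e α γ hfr hc.ca hγ hαF hγF hαγF (by rw [← hP1]; omega)
  have hg2 := hLFR V h2 A h0 F e β γ hfr hc.cb hγ hβF hγF hβγF (by rw [← hP2]; omega)
  rw [← hP1] at hg1
  rw [← hP2] at hg2
  let E : Finset V := EE.image (fun i => gg e 4 i)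
  have hE : E.card = 6 := by
    rw [Finset.card_image_of_injOn, ee6]
    intro i hi j hj hij
    exact fin_ee h2 hfr (eelt i hi) (eelt j hj) hij
  have hE1 : E ⊆ P1 := by
    intro x hx
    obtain ⟨i, hi, rfl⟩ := Finset.mem_image.1 hx
    exact hg1 i hi
  have hE2 : E ⊆ P2 := by
    intro x hx
    obtain ⟨i, hi, rfl⟩ := Finset.mem_image.1 hx
    exact hg2 i hi
  have hY1 : (P1 \ E).card = P1.card - 6 := by rw [Finset.card_sdiff_of_subset hE1, hE]
  have hY2 : (P2 \ E).card = P2.card - 6 := by rw [Finset.card_sdiff_of_subset hE2, hE]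
  obtain ⟨K, hKc, hKY, hKF⟩ := span h2 ((P1 \ E) ∪ (P2 \ E))
  have hY : ((P1 \ E) ∪ (P2 \ E)).card ≤ P1.card + P2.card - 12 := by
    refine (Finset.card_union_le _ _).trans ?_
    omega
  have hqF : ∀ u, ∀ q ∈ QQ A F u, q ∈ F := fun u q hq => ((mem_QQ A F u q).1 hq).1
  have hKF1 : K ≤ F := by
    refine hKF F fun y hy => ?_
    rcases Finset.mem_union.1 hy with hy | hy
    · exact hqF _ y (Finset.mem_sdiff.1 hy).1
    · exact hqF _ y (Finset.mem_sdiff.1 hy).1
  have hlt : {p | p ∈ P3 ∧ p ∉ K}.ncard < {q | q ∈ Q ∧ q ∉ K}.ncard := by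
    have h1 : {p | p ∈ P3 ∧ p ∉ K}.ncard ≤ P3.card := by
      have h3 := split_card P3 K
      omega
    have h3 := split_card Q K
    have h4 := inK Q K hQ0
    obtain ⟨j, hj⟩ : ∃ j, j = P1.card + P2.card - 12 := ⟨_, rfl⟩
    have h5 : Nat.card K ≤ 2 ^ j := hKc.trans (Nat.pow_le_pow_right (by norm_num) (by omega))
    have h7 : j ≤ 3 := by omega
    have h8 : P3.card + j ≤ 9 := by omega
    interval_cases j <;> omega
  obtain ⟨F₁, w, hH, hKF₁, hlt1⟩ := hHYP V h2 F K P3 Q hKF1 (hqF _) (hqF _) hlt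
  obtain ⟨hfr', hcen', hcard'⟩ := hFLP V h2 A h0 F e γ hfr hγ hγF F₁ w hH
  have hcen : ∀ {δ : V} {P : Finset V}, Cen A F e δ → P = QQ A F (δ + γ) →
      (∀ m ∈ EE, gg e 4 m ∈ P) → (∀ y ∈ P \ E, y ∈ K) →
      Cen A (ext h2 F₁ (γ + w)) (fl F₁ γ e) δ := by
    intro δ P hδ hPd hg hPK
    refine hcen' δ hδ fun q => ?_
    rw [← hPd]
    constructor
    · rintro ⟨hq, hq1⟩
      by_cases hqE : q ∈ E
      · obtain ⟨i, hi, rfl⟩ := Finset.mem_image.1 hqE
        exact ⟨i, hi, hq1, rfl⟩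
      · exact absurd (hKF₁ (hPK q (Finset.mem_sdiff.2 ⟨hq, hqE⟩))) hq1
    · rintro ⟨i, hi, hi1, rfl⟩
      exact ⟨hg i hi, hi1⟩
  have hconf : Conf1 A (ext h2 F₁ (γ + w)) (fl F₁ γ e) α β :=
    ⟨hfr', hcen hc.ca hP1 hg1 (fun y hy => hKY y (Finset.mem_union_left _ hy)),
      hcen hc.cb hP2 hg2 (fun y hy => hKY y (Finset.mem_union_right _ hy)), hc.no⟩
  have h1 := hmin _ _ _ _ hconf
  rw [hcard' (α + β), ← hQ, ← hP3] at h1
  have h3 := split_card Q F₁
  omega

end Pool.Agent.Lib.MP_b63a06_co.FR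
end

section
set_option autoImplicit false

/-!
# MP_b63a06_co: a conflict with three elements (helper72)
-/

namespace Pool.Agent.Lib.MP_b63a06_co.FR

open Pool.Agent.Lib.MP_b63a06_co

namespace LTAM

theorem card_sup_le {V : Type} [AddCommGroup V] [Finite V] (S T : AddSubgroup V) :
    Nat.card (S ⊔ T : AddSubgroup V) ≤ Nat.card S * Nat.card T := by
  rw [← Nat.card_prod]
  refine Nat.card_le_card_of_surjective
    (fun p : S × T => (⟨(p.1 : V) + p.2, AddSubgroup.add_mem_sup p.1.2 p.2.2⟩ :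
      (S ⊔ T : AddSubgroup V))) ?_
  rintro ⟨x, hx⟩
  obtain ⟨a, ha, b, hb, rfl⟩ := AddSubgroup.mem_sup.1 hx
  exact ⟨(⟨a, ha⟩, ⟨b, hb⟩), rfl⟩

/-- a set with at most two elements in a small subgroup contains `0` -/
theorem zero_mem {V : Type} [AddCommGroup V] [Finite V] (S : AddSubgroup V) (Y : Finset V)
    (hY : ∀ y ∈ Y, y ∈ S) (h1 : 1 ≤ Y.card) (h2 : Y.card ≤ 2)
    (hS : Nat.card S ≤ 2 ^ (Y.card - 1)) : (0 : V) ∈ Y := by
  classical
  have h3 : Nat.card S ≤ Y.card := by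
    refine hS.trans ?_
    have h4 : Y.card = 1 ∨ Y.card = 2 := by omega
    rcases h4 with h4 | h4 <;> rw [h4] <;> norm_num
  have h5 : (Y : Set V) = (S : Set V) := by
    refine Set.eq_of_subset_of_ncard_le (fun y hy => hY y (by simpa using hy)) ?_ (Set.toFinite _)
    rw [Set.ncard_coe_finset]
    exact h3
  have h6 : (0 : V) ∈ (Y : Set V) := by
    rw [h5]
    exact S.zero_mem
  simpa using h6

variable {V : Type} [AddCommGroup V] [Fintype V] [DecidableEq V]
variable (h2 : Two V) (A : Finset V) (h0 : (0 : V) ∈ A)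

include h2 h0 in
/-- the span of the pattern of two single elements -/
theorem sp (hSPN : SpecSPN) (hMEE : SpecMEE) {W : AddSubgroup V} (hW : MaxAv A W) {a b : V}
    (ha : Sgl A W a) (haW : a ∉ W) (hb : Sgl A W b) : 1 ≤ (XX A W a b).card ∧
    ∃ S : AddSubgroup V, S ≤ W ∧ Nat.card S ≤ 2 ^ ((XX A W a b).card - 1) ∧
      ∀ p ∈ XX A W a b, p ∈ S := by
  have h1 : 1 ≤ (XX A W a b).card := by
    rw [card_XX h2 A]
    exact mm_pos h2 A h0 hW _
  refine ⟨h1, ?_⟩
  exact hSPN V h2 W (XX A W a b) (Finset.card_pos.1 h1) (fun y hy => ((mem_XX A W _ _ y).1 hy).1)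
    (hMEE V h2 A h0 W a b hW ha haW hb)

include h2 h0 in
/-- the final step -/
theorem fin (hEXH : SpecEXH) {W : AddSubgroup V} {s t : V} (hc : Conf A W s t)
    (hmin : ∀ (W' : AddSubgroup V) (s' t' : V), Conf A W' s' t' →
      (XX A W s t).card ≤ (XX A W' s' t').card) (hX : 4 ≤ (XX A W s t).card) {γ : V}
    (hγ : Sgl A W γ) (hγW : γ ∉ W) (S : AddSubgroup V) (hSW : S ≤ W) (hS : Nat.card S ≤ 4)
    (hP1 : ∀ p ∈ XX A W γ s, p ∈ S) (hP2 : ∀ p ∈ XX A W γ t, p ∈ S)
    (hP3 : ∀ p ∈ W, γ + s + t + p ∈ A → p ∈ S) : False := by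
  have hx : ∃ x ∈ XX A W s t, x ∉ S := by
    by_contra hcon
    push Not at hcon
    have h0X : (0 : V) ∉ XX A W s t := by
      rw [mem_XX]
      rintro ⟨-, h⟩
      rw [add_zero] at h
      exact hc.no h
    have h3 : ((insert 0 (XX A W s t) : Finset V) : Set V) ⊆ (S : Set V) := by
      intro v hv
      rw [Finset.coe_insert, Set.mem_insert_iff] at hv
      rcases hv with rfl | hv
      · exact S.zero_mem
      · exact hcon v (by simpa using hv)
    have h4 := Set.ncard_le_ncard h3 (Set.toFinite _)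
    rw [Set.ncard_coe_finset, Finset.card_insert_of_notMem h0X] at h4
    have h5 : (S : Set V).ncard = Nat.card S := rfl
    omega
  obtain ⟨x, hxX, hxS⟩ := hx
  have hxW := ((mem_XX A W s t x).1 hxX).1
  obtain ⟨W₁, hy, hSW₁⟩ := hEXH V h2 W S x hSW hxW hxS
  have key : ∀ p : V, (p ∈ W → p ∈ S) → p + x ∈ W₁ → False := by
    intro p hp hpx
    have h1 : p ∈ W := by
      have h3 := W.add_mem (hy.le hpx) hy.mem
      rwa [h2.cancel' x p] at h3
    have h3 := W₁.add_mem (hSW₁ (hp h1)) hpx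
    rw [h2.cancel p x] at h3
    exact hy.notMem h3
  have hc' : Conf A (ext h2 W₁ (γ + x)) s t := by
    refine ⟨flip h2 A hc.mx hγ hγW hy, ⟨hc.s1.1, ?_⟩, ⟨hc.t1.1, ?_⟩, hc.no⟩
    · rintro b hb (h | h)
      · exact hc.s1.2 b hb (hy.le h)
      · exfalso
        refine key (b + s + γ) (fun h1 => hP1 _ ?_) ?_
        · rw [mem_XX]
          refine ⟨h1, ?_⟩
          have e : γ + s + (b + s + γ) = b + (s + s) + (γ + γ) := by abel
          rw [e, h2 s, h2 γ, add_zero, add_zero]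
          exact hb
        · rw [← add_assoc] at h
          exact h
    · rintro b hb (h | h)
      · exact hc.t1.2 b hb (hy.le h)
      · exfalso
        refine key (b + t + γ) (fun h1 => hP2 _ ?_) ?_
        · rw [mem_XX]
          refine ⟨h1, ?_⟩
          have e : γ + t + (b + t + γ) = b + (t + t) + (γ + γ) := by abel
          rw [e, h2 t, h2 γ, add_zero, add_zero]
          exact hb
        · rw [← add_assoc] at h
          exact h
  have hsub : ∀ z ∈ XX A (ext h2 W₁ (γ + x)) s t, z ∈ W₁ := by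
    intro z hz
    rw [mem_XX] at hz
    rcases hz.1 with h | h
    · exact h
    · exfalso
      refine key (z + γ) (fun h1 => hP3 _ h1 ?_) ?_
      · have e : γ + s + t + (z + γ) = s + t + z + (γ + γ) := by abel
        rw [e, h2 γ, add_zero]
        exact hz.2
      · rw [← add_assoc] at h
        exact h
  have h5 := hmin _ _ _ hc'
  have h6 : XX A (ext h2 W₁ (γ + x)) s t ⊂ XX A W s t := by
    rw [Finset.ssubset_iff_of_subset]
    · exact ⟨x, hxX, fun h => hy.notMem (hsub x h)⟩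
    · intro v hv
      have h7 := hsub v hv
      rw [mem_XX] at hv
      rw [mem_XX]
      exact ⟨hy.le h7, hv.2⟩
  have h7 := Finset.card_lt_card h6
  omega

include h2 in
/-- the single element of a coset with `m = 1` -/
theorem exSgl {W : AddSubgroup V} {y : V} (m1 : mm A W y = 1) :
    ∃ γ : V, Sgl A W γ ∧ γ + y ∈ W := by
  obtain ⟨α, hα⟩ := Finset.card_eq_one.1 m1
  have hα1 := (mem_ms A W y α).1 (by rw [hα]; exact Finset.mem_singleton_self α)
  refine ⟨α, ⟨hα1.1, ?_⟩, hα1.2⟩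
  intro b hb hbα
  have h1 : b ∈ ms A W y := by
    rw [mem_ms]
    refine ⟨hb, ?_⟩
    have h3 := W.add_mem hbα hα1.2
    have e : b + α + (α + y) = b + y + (α + α) := by abel
    rwa [e, h2 α, add_zero] at h3
  rw [hα, Finset.mem_singleton] at h1
  exact h1

include h2 in
/-- an element of a coset with `m = 1` is single -/
theorem sgl_of {W : AddSubgroup V} {y γ : V} (m1 : mm A W y = 1) (hγ : γ ∈ A) (hγy : γ + y ∈ W) :
    Sgl A W γ := by
  obtain ⟨δ, hδ, hδy⟩ := exSgl h2 A m1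
  have h1 : γ + δ ∈ W := by
    have h3 := W.add_mem hγy hδy
    have e : γ + y + (δ + y) = γ + δ + (y + y) := by abel
    rwa [e, h2 y, add_zero] at h3
  rw [hδ.2 γ hγ h1]
  exact hδ

include h2 h0 in
/-- two adjacent single cosets -/
theorem caseA (hEXH : SpecEXH) (hSPN : SpecSPN) (hMEE : SpecMEE) {W : AddSubgroup V} {s t : V}
    (hc : Conf A W s t)
    (hmin : ∀ (W' : AddSubgroup V) (s' t' : V), Conf A W' s' t' →
      (XX A W s t).card ≤ (XX A W' s' t').card) (hX : 4 ≤ (XX A W s t).card) (y : V)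
    (y1 : y ∉ W) (y2 : y + s ∉ W)
    (m1 : mm A W y = 1) (m2 : mm A W (y + s) = 1)
    (hs : mm A W (y + t) + mm A W (y + s + t) ≤ 4) : False := by
  have hW := hc.mx
  obtain ⟨γ, hγ, hγy⟩ := exSgl h2 A m1
  have hγW : γ ∉ W := by
    intro h
    apply y1
    have h3 := W.add_mem h hγy
    rwa [h2.cancel γ y] at h3
  have hγs : γ + s + (y + s) ∈ W := by
    have e : γ + s + (y + s) = γ + y + (s + s) := by abel
    rw [e, h2 s, add_zero]
    exact hγy
  obtain ⟨-, S₁, hS₁, hS₁c, hP₁⟩ := sp h2 A h0 hSPN hMEE hW hγ hγW hc.s1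
  have c1 : (XX A W γ s).card = 1 := by
    rw [card_XX h2 A, mm_congr h2 A W hγs, m2]
  have z1 : (0 : V) ∈ XX A W γ s :=
    zero_mem S₁ _ hP₁ (by omega) (by omega) hS₁c
  have hγsA : γ + s ∈ A := by
    have h3 := ((mem_XX A W γ s 0).1 z1).2
    rwa [add_zero] at h3
  have hγsS : Sgl A W (γ + s) := sgl_of h2 A m2 hγsA hγs
  have hγsW : γ + s ∉ W := by
    intro h
    apply y2
    have h3 := W.add_mem h hγs
    rwa [h2.cancel (γ + s) (y + s)] at h3
  obtain ⟨p2, S₂, hS₂, hS₂c, hP₂⟩ := sp h2 A h0 hSPN hMEE hW hγ hγW hc.t1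
  obtain ⟨p3, S₃, hS₃, hS₃c, hP₃⟩ := sp h2 A h0 hSPN hMEE hW hγsS hγsW hc.t1
  have c2 : (XX A W γ t).card = mm A W (y + t) := by
    rw [card_XX h2 A]
    refine mm_congr h2 A W ?_
    have e : γ + t + (y + t) = γ + y + (t + t) := by abel
    rw [e, h2 t, add_zero]
    exact hγy
  have c3 : (XX A W (γ + s) t).card = mm A W (y + s + t) := by
    rw [card_XX h2 A]
    refine mm_congr h2 A W ?_
    have e : γ + s + t + (y + s + t) = γ + y + (s + s) + (t + t) := by abel
    rw [e, h2 s, h2 t, add_zero, add_zero]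
    exact hγy
  refine fin h2 A h0 hEXH hc hmin hX hγ hγW (S₂ ⊔ S₃) (sup_le hS₂ hS₃) ?_ ?_ ?_ ?_
  · refine (card_sup_le S₂ S₃).trans ((Nat.mul_le_mul hS₂c hS₃c).trans ?_)
    rw [← pow_add]
    have h4 : (XX A W γ t).card - 1 + ((XX A W (γ + s) t).card - 1) ≤ 2 := by omega
    exact (Nat.pow_le_pow_right (by norm_num) h4).trans (by norm_num)
  · intro p hp
    obtain ⟨q, hq⟩ := Finset.card_eq_one.1 c1
    rw [hq, Finset.mem_singleton] at hp z1
    rw [hp, ← z1]
    exact AddSubgroup.zero_mem _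
  · intro p hp
    exact AddSubgroup.mem_sup_left (hP₂ p hp)
  · intro p hpW hp
    refine AddSubgroup.mem_sup_right (hP₃ p ?_)
    rw [mem_XX]
    exact ⟨hpW, hp⟩

include h2 h0 in
/-- two opposite single cosets -/
theorem caseB (hEXH : SpecEXH) (hSPN : SpecSPN) (hMEE : SpecMEE) {W : AddSubgroup V} {s t : V}
    (hc : Conf A W s t)
    (hmin : ∀ (W' : AddSubgroup V) (s' t' : V), Conf A W' s' t' →
      (XX A W s t).card ≤ (XX A W' s' t').card) (hX : 4 ≤ (XX A W s t).card) (y : V)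
    (y1 : y ∉ W) (y4 : y + s + t ∉ W)
    (m1 : mm A W y = 1) (m4 : mm A W (y + s + t) = 1)
    (m2 : mm A W (y + s) ≤ 2) (m3 : mm A W (y + t) ≤ 2) : False := by
  have hW := hc.mx
  obtain ⟨γ, hγ, hγy⟩ := exSgl h2 A m1
  have hγW : γ ∉ W := by
    intro h
    apply y1
    have h3 := W.add_mem h hγy
    rwa [h2.cancel γ y] at h3
  obtain ⟨δ, hδ, hδy⟩ := exSgl h2 A m4
  have hδW : δ ∉ W := by
    intro h
    apply y4
    have h3 := W.add_mem h hδy
    rwa [h2.cancel δ (y + s + t)] at h3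
  -- `w = δ + γ + s + t`
  have hw : δ + γ + s + t ∈ W := by
    have h3 := W.add_mem hδy hγy
    have e : δ + (y + s + t) + (γ + y) = δ + γ + s + t + (y + y) := by abel
    rwa [e, h2 y, add_zero] at h3
  obtain ⟨p1, S₁, hS₁, hS₁c, hP₁⟩ := sp h2 A h0 hSPN hMEE hW hγ hγW hc.s1
  obtain ⟨p2, S₂, hS₂, hS₂c, hP₂⟩ := sp h2 A h0 hSPN hMEE hW hγ hγW hc.t1
  obtain ⟨p3, S₃, hS₃, hS₃c, hP₃⟩ := sp h2 A h0 hSPN hMEE hW hδ hδW hc.t1
  have c1 : (XX A W γ s).card = mm A W (y + s) := by
    rw [card_XX h2 A]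
    refine mm_congr h2 A W ?_
    have e : γ + s + (y + s) = γ + y + (s + s) := by abel
    rw [e, h2 s, add_zero]
    exact hγy
  have c2 : (XX A W γ t).card = mm A W (y + t) := by
    rw [card_XX h2 A]
    refine mm_congr h2 A W ?_
    have e : γ + t + (y + t) = γ + y + (t + t) := by abel
    rw [e, h2 t, add_zero]
    exact hγy
  have c3 : (XX A W δ t).card = mm A W (y + s) := by
    rw [card_XX h2 A]
    refine mm_congr h2 A W ?_
    have e : δ + t + (y + s) = δ + (y + s + t) := by abel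
    rw [e]
    exact hδy
  have z3 : (0 : V) ∈ XX A W δ t := zero_mem S₃ _ hP₃ p3 (by omega) hS₃c
  have hδt : δ + t ∈ A := by
    have h3 := ((mem_XX A W δ t 0).1 z3).2
    rwa [add_zero] at h3
  have hwP : δ + γ + s + t ∈ XX A W γ s := by
    rw [mem_XX]
    refine ⟨hw, ?_⟩
    have e : γ + s + (δ + γ + s + t) = δ + t + (γ + γ) + (s + s) := by abel
    rw [e, h2 γ, h2 s, add_zero, add_zero]
    exact hδt
  refine fin h2 A h0 hEXH hc hmin hX hγ hγW (S₁ ⊔ S₂) (sup_le hS₁ hS₂) ?_ ?_ ?_ ?_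
  · refine (card_sup_le S₁ S₂).trans ((Nat.mul_le_mul hS₁c hS₂c).trans ?_)
    rw [← pow_add]
    have h4 : (XX A W γ s).card - 1 + ((XX A W γ t).card - 1) ≤ 2 := by omega
    exact (Nat.pow_le_pow_right (by norm_num) h4).trans (by norm_num)
  · intro p hp
    exact AddSubgroup.mem_sup_left (hP₁ p hp)
  · intro p hp
    exact AddSubgroup.mem_sup_right (hP₂ p hp)
  · intro p hpW hp
    -- `p = w`
    have h5 : γ + s + t + p + δ ∈ W := by
      have h6 := W.add_mem hw hpW
      have e : δ + γ + s + t + p = γ + s + t + p + δ := by abel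
      rwa [e] at h6
    have h6 := hδ.2 _ hp h5
    have h7 : p = δ + γ + s + t := by
      rw [← h6]
      have e : γ + s + t + p + γ + s + t = p + (γ + γ) + (s + s) + (t + t) := by abel
      rw [e, h2 γ, h2 s, h2 t, add_zero, add_zero, add_zero]
    rw [h7]
    exact AddSubgroup.mem_sup_left (hP₁ _ hwP)

end LTAM

theorem specLTA (hEXH : SpecEXH) (hSPN : SpecSPN) (hMEE : SpecMEE) : SpecLTA := by
  intro V _ _ _ h2 A h0 h7 hex
  obtain ⟨W, s, t, hc, hmin⟩ := exMin h2 A h0 hex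
  refine ⟨W, s, t, hc, ?_⟩
  have hX3 := hc.X3 h2 A h0
  by_contra hcon
  have hX : 4 ≤ (XX A W s t).card := by omega
  have hW := hc.mx
  have hpos : 0 < Nat.card W := Nat.card_pos
  -- the element `y`
  have hy : ∃ y : V, mm A W y + mm A W (y + s) + mm A W (y + t) + mm A W (y + s + t) ≤ 6 := by
    by_contra hcon
    push Not at hcon
    have hs : ∀ u : V, ∑ v : V, mm A W (v + u) = A.card * Nat.card W := by
      intro u
      rw [← sum_mm h2 A W]
      exact Equiv.sum_comp (Equiv.addRight u) (fun v => mm A W v)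
    have h1 : ∑ _v : V, 7 ≤ ∑ v : V, (mm A W v + mm A W (v + s) + mm A W (v + t) +
        mm A W (v + s + t)) := Finset.sum_le_sum fun v _ => hcon v
    rw [Finset.sum_const, Finset.sum_add_distrib, Finset.sum_add_distrib, Finset.sum_add_distrib,
      sum_mm h2 A W, hs s, hs t] at h1
    have h3 : ∑ v : V, mm A W (v + s + t) = A.card * Nat.card W := by
      rw [← hs (s + t)]
      refine Finset.sum_congr rfl fun v _ => ?_
      rw [add_assoc]
    rw [h3, Finset.card_univ, card_V W, smul_eq_mul] at h1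
    have h4 : (7 * W.index) * Nat.card W ≤ (4 * A.card) * Nat.card W := by
      have e1 : W.index * Nat.card W * 7 = (7 * W.index) * Nat.card W := by ring
      have e2 : A.card * Nat.card W + A.card * Nat.card W + A.card * Nat.card W +
        A.card * Nat.card W = (4 * A.card) * Nat.card W := by ring
      rw [e1, e2] at h1
      exact h1
    have h5 := Nat.le_of_mul_le_mul_right h4 hpos
    have h6 := h7 W hW
    omega
  obtain ⟨y, hy6⟩ := hy
  have p1 := mm_pos h2 A h0 hW y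
  have p2 := mm_pos h2 A h0 hW (y + s)
  have p3 := mm_pos h2 A h0 hW (y + t)
  have p4 := mm_pos h2 A h0 hW (y + s + t)
  have hst : mm A W (s + t) = (XX A W s t).card := (card_XX h2 A W s t).symm
  have y1 : y ∉ W := by
    intro h
    have e : y + s + t + (s + t) ∈ W := by
      have e1 : y + s + t + (s + t) = y + (s + s) + (t + t) := by abel
      rw [e1, h2 s, h2 t, add_zero, add_zero]
      exact h
    have h1 := mm_congr h2 A W e
    omega
  have y2 : y + s ∉ W := by
    intro h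
    have e : y + t + (s + t) ∈ W := by
      have e1 : y + t + (s + t) = y + s + (t + t) := by abel
      rw [e1, h2 t, add_zero]
      exact h
    have h1 := mm_congr h2 A W e
    omega
  have y3 : y + t ∉ W := by
    intro h
    have e : y + s + (s + t) ∈ W := by
      have e1 : y + s + (s + t) = y + t + (s + s) := by abel
      rw [e1, h2 s, add_zero]
      exact h
    have h1 := mm_congr h2 A W e
    omega
  have y4 : y + s + t ∉ W := by
    intro h
    have e : y + (s + t) ∈ W := by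
      rw [← add_assoc]
      exact h
    have h1 := mm_congr h2 A W e
    omega
  -- the symmetric conflict
  have hXX : XX A W t s = XX A W s t := by
    ext x
    rw [mem_XX, mem_XX, add_comm t s]
  have hc' : Conf A W t s := ⟨hc.mx, hc.t1, hc.s1, by rw [add_comm]; exact hc.no⟩
  have hmin' : ∀ (W' : AddSubgroup V) (s' t' : V), Conf A W' s' t' →
      (XX A W t s).card ≤ (XX A W' s' t').card := by
    rw [hXX]
    exact hmin
  have hX' : 4 ≤ (XX A W t s).card := by
    rw [hXX]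
    exact hX
  have e1 : y + t + s = y + s + t := by abel
  have e2 : y + s + s = y := h2.cancel' s y
  have e3 : y + t + t = y := h2.cancel' t y
  have e4 : y + s + t + t = y + s := h2.cancel' t (y + s)
  have e5 : y + s + t + s = y + t := by
    rw [← e1]
    exact h2.cancel' s (y + t)
  by_cases c1 : mm A W y = 1
  · by_cases c2 : mm A W (y + s) = 1
    · exact LTAM.caseA h2 A h0 hEXH hSPN hMEE hc hmin hX y y1 y2 c1 c2 (by omega)
    · by_cases c3 : mm A W (y + t) = 1
      · refine LTAM.caseA h2 A h0 hEXH hSPN hMEE hc' hmin' hX' y y1 y3 c1 c3 ?_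
        rw [e1]
        omega
      · exact LTAM.caseB h2 A h0 hEXH hSPN hMEE hc hmin hX y y1 y4 c1 (by omega) (by omega)
          (by omega)
  · by_cases c4 : mm A W (y + s + t) = 1
    · by_cases c2 : mm A W (y + s) = 1
      · -- `y + s`, `y + s + t`
        refine LTAM.caseA h2 A h0 hEXH hSPN hMEE hc' hmin' hX' (y + s) y2 y4 c2 c4 ?_
        rw [e2, e5]
        omega
      · -- `y + t`, `y + t + s`
        have c3 : mm A W (y + t) = 1 := by omega
        refine LTAM.caseA h2 A h0 hEXH hSPN hMEE hc hmin hX (y + t) y3 (by rw [e1]; exact y4) c3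
          (by rw [e1]; exact c4) ?_
        rw [e3, e1, e4]
        omega
    · -- `y + s`, `y + t`
      have c2 : mm A W (y + s) = 1 := by omega
      have c3 : mm A W (y + t) = 1 := by omega
      refine LTAM.caseB h2 A h0 hEXH hSPN hMEE hc hmin hX (y + s) y2 ?_ c2 ?_ ?_ ?_
      · rw [e2]
        exact y3
      · rw [e2]
        exact c3
      · rw [e2]
        omega
      · omega

end Pool.Agent.Lib.MP_b63a06_co.FR
end
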