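import Pool.Agent.Lib.MP_b63a06_co.FR.Spec
import Pool.Agent.Lib.MP_b63a06_co.FR.LTA

section
section
set_option autoImplicit false

/-!
# MP_b63a06_co, module MAI (helper59)
-/

namespace Pool.Agent.Lib.MP_b63a06_co.FR

open Pool.Agent.Lib.MP_b63a06_co

namespace MAIM

variable {V : Type} [AddCommGroup V] [Fintype V] [DecidableEq V]

theorem index_eq (A : Finset V) {U W : AddSubgroup V} (hU : MaxAv A U) (hW : MaxAv A W) :
    U.index = W.index := by
  have hcard : Nat.card U = Nat.card W := le_antisymm (hW.max U hU.av) (hU.max W hW.av)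
  have hpos : 0 < Nat.card W := Nat.card_pos
  have h1 := card_V U
  have h3 := card_V W
  rw [h3, hcard] at h1
  exact (Nat.eq_of_mul_eq_mul_right hpos h1).symm

theorem col_of {S : Set V} {G : SimpleGraph V} [DecidableRel G.Adj]
    (hG : ∀ x y, G.Adj x y ↔ x + y ∈ S) {k : ℕ} (h : ColA (nbh G) k) : G.Colorable k := by
  obtain ⟨c, hc⟩ := h
  refine ⟨SimpleGraph.Coloring.mk c ?_⟩
  intro x y hxy
  exact hc x y (G.ne_of_adj hxy) ((mem_nbh hG _).2 (Or.inr ((hG x y).1 hxy)))

theorem two_le (h2 : Two V) {S : Set V} {G : SimpleGraph V} [DecidableRel G.Adj]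
    (hG : ∀ x y, G.Adj x y ↔ x + y ∈ S) {W : AddSubgroup V} {s t : V}
    (hc : Conf (nbh G) W s t) : 2 ≤ G.cliqueNum := by
  have h0 : (0 : V) ∈ nbh G := (mem_nbh hG 0).2 (Or.inl rfl)
  obtain ⟨hs, -, -⟩ := hc.basic h2 _ h0
  have hs0 : s ≠ 0 := fun h => hs (by rw [h]; exact W.zero_mem)
  have hadj : G.Adj 0 s := by
    apply adj_of h2 hG (Ne.symm hs0)
    rw [zero_add]
    exact hc.s1.1
  have hcl : G.IsClique (({0, s} : Finset V) : Set V) := by
    simp only [Finset.coe_insert, Finset.coe_singleton]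
    rw [SimpleGraph.isClique_pair]
    intro _
    exact hadj
  have := hcl.card_le_cliqueNum
  rwa [Finset.card_pair (Ne.symm hs0)] at this

end MAIM

open MAIM in
theorem specMAI (hLTA : SpecLTA) (hFRM : SpecFRM) (hCNT : SpecCNT) (hLMB : SpecLMB)
    (hCTW : SpecCTW) (hSTP : SpecSTP) : SpecMAI := by
  intro V _ _ _ h2 S G _ hG
  have h0 : (0 : V) ∈ nbh G := (mem_nbh hG 0).2 (Or.inl rfl)
  have hc := card_nbh G
  obtain ⟨W, hW⟩ := exMaxAv (nbh G)
  have hcol : G.Colorable W.index := col h2 hG W (not_mem_of_mem hG hW)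
  have mono : ∀ k, G.Colorable k → 2 * k ≤ G.cliqueNum + G.maxDegree + 1 →
      G.Colorable ((G.cliqueNum + G.maxDegree + 1) / 2) := fun k hk hle => hk.mono (by omega)
  by_cases h : ∃ (W : AddSubgroup V) (s t : V), Conf (nbh G) W s t
  swap
  · have h1 := countA h2 (nbh G) h0 hW
    have hcl : G.IsClique (CC (nbh G) W : Set V) := by
      intro s hs t ht hst
      rw [Finset.mem_coe, mem_CC] at hs ht
      apply adj_of h2 hG hst
      by_contra hno
      exact h ⟨W, s, t, hW, hs, ht, hno⟩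
    have h3 := hcl.card_le_cliqueNum
    exact mono _ hcol (by omega)
  have hω : 2 ≤ G.cliqueNum := by
    obtain ⟨W', s, t, hc'⟩ := h
    exact two_le h2 hG hc'
  by_cases h3 : 2 * W.index ≤ (nbh G).card + 2
  · exact mono _ hcol (by omega)
  have hidx : ∀ U : AddSubgroup V, MaxAv (nbh G) U → U.index = W.index :=
    fun U hU => index_eq _ hU hW
  obtain ⟨m, hm, hcm⟩ := hSTP V h2 (nbh G) h0 (fun U hU => by
    rw [hidx U hU]
    omega) h W hW
  by_cases h4 : 14 * m ≤ (nbh G).card + G.cliqueNum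
  · exact mono _ (col_of hG hcm) (by omega)
  have h47 : ∀ U : AddSubgroup V, MaxAv (nbh G) U → 4 * (nbh G).card < 7 * U.index := by
    intro U hU
    rw [hidx U hU]
    omega
  obtain ⟨W', s, t, hc', hX⟩ := hLTA V h2 (nbh G) h0 h47 h
  obtain ⟨F, e, hF⟩ := hFRM V h2 _ h0 W' s t hc' hX
  have h5 := hCNT V h2 _ h0 F e hF W hW
  have h6 : ∃ α β, Conf1 (nbh G) F e α β := by
    by_contra hcon
    push Not at hcon
    have hcl : G.IsClique (CE (nbh G) F e : Set V) := by
      intro α hα β hβ hne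
      rw [Finset.mem_coe, mem_CE] at hα hβ
      apply adj_of h2 hG hne
      by_contra hno
      exact hcon α β ⟨hF, hα, hβ, hno⟩
    have := hcl.card_le_cliqueNum
    omega
  obtain ⟨α, β, hab⟩ := h6
  obtain ⟨F', e', α', β', R, hab', hR, hQ⟩ := hLMB V h2 _ h0 h47 ⟨F, e, α, β, hab⟩
  obtain ⟨m', hm', hcm'⟩ := hCTW V h2 _ h0 F' e' α' β' R hab' hR hQ W hW
  have h7 := many h2 (nbh G) h0 h W hW
  exact mono _ (col_of hG hcm') (by omega)

end Pool.Agent.Lib.MP_b63a06_co.FR
end

section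
set_option autoImplicit false

/-!
# MP_b63a06_co: the pattern of two single elements meets all hyperplanes (helper53)
-/

namespace Pool.Agent.Lib.MP_b63a06_co.FR

open Pool.Agent.Lib.MP_b63a06_co

theorem specMEE : SpecMEE := by
  intro V _ _ _ h2 A h0 W s t hW hs hsW ht W₁ w hy
  obtain ⟨a, ha, h | h⟩ := cov h2 A h0 (flip h2 A hW hs hsW hy) (t + w)
  · exfalso
    have h1 : a + t ∈ W := by
      have h3 := W.add_mem (hy.le h) hy.mem
      have e : a + (t + w) + w = a + t + (w + w) := by abel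
      rwa [e, h2 w, add_zero] at h3
    have h3 := ht.2 a ha h1
    rw [h3, h2.cancel t w] at h
    exact hy.notMem h
  · have e : a + (t + w) + (s + w) = a + (s + t) + (w + w) := by abel
    rw [e, h2 w, add_zero] at h
    refine ⟨a + (s + t), ?_, h⟩
    rw [mem_XX]
    refine ⟨hy.le h, ?_⟩
    have e1 : s + t + (a + (s + t)) = a := by
      have e2 : s + t + (a + (s + t)) = a + ((s + t) + (s + t)) := by abel
      rw [e2, h2 (s + t), add_zero]
    rw [e1]
    exact ha

end Pool.Agent.Lib.MP_b63a06_co.FR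
end

section
set_option autoImplicit false

/-!
# MP_b63a06_co, module PRJ (helper18): projection along an element
-/

namespace Pool.Agent.Lib.MP_b63a06_co.FR

open Pool.Agent.Lib.MP_b63a06_co

namespace PRJM

variable {V : Type} [AddCommGroup V] [Fintype V] [DecidableEq V]

omit [DecidableEq V] in
theorem le_iff (H K : AddSubgroup V) : Nat.card H ≤ Nat.card K ↔ K.index ≤ H.index := by
  have h1 := AddSubgroup.card_mul_index H
  have h3 := AddSubgroup.card_mul_index K
  have p1 : 0 < Nat.card H := Nat.card_pos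
  have p2 : 0 < Nat.card K := Nat.card_pos
  have p3 : 0 < Nat.card V := Nat.card_pos
  have q1 : 0 < H.index := by
    rcases Nat.eq_zero_or_pos H.index with h | h
    · rw [h, mul_zero] at h1
      omega
    · exact h
  constructor
  · intro h
    by_contra hcon
    push Not at hcon
    have h4 : Nat.card H * H.index < Nat.card K * K.index :=
      lt_of_le_of_lt (Nat.mul_le_mul_right _ h) (Nat.mul_lt_mul_of_pos_left hcon p2)
    omega
  · intro h
    by_contra hcon
    push Not at hcon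
    have h4 : Nat.card K * K.index < Nat.card H * H.index :=
      lt_of_le_of_lt (Nat.mul_le_mul_left _ h) (Nat.mul_lt_mul_of_pos_right hcon q1)
    omega

omit [DecidableEq V] in
theorem idx (A : Finset V) {U W : AddSubgroup V} (hU : MaxAv A U) (hW : MaxAv A W) :
    U.index = W.index :=
  le_antisymm ((le_iff W U).1 (hU.max W hW.av)) ((le_iff U W).1 (hW.max U hU.av))

variable {V' : Type} [AddCommGroup V'] [Fintype V'] [DecidableEq V']

omit [DecidableEq V] in
theorem prj (h2 : Two V) (A : Finset V) (h0 : (0 : V) ∈ A) (W : AddSubgroup V) (s t p : V)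
    (hc : Conf A W s t) (hp : p ∈ W) (hp0 : p ≠ 0) (hst : s + t + p ∉ A) (π : V →+ V')
    (hπ : Function.Surjective π) (hker : ∀ x, π x = 0 ↔ x = 0 ∨ x = p) :
    ∃ A' : Finset V', Two V' ∧ (0 : V') ∈ A' ∧ Fintype.card V' < Fintype.card V ∧
    A'.card ≤ A.card ∧ (∃ (W' : AddSubgroup V') (s' t' : V'), Conf A' W' s' t') ∧
    (∀ (U : AddSubgroup V) (U' : AddSubgroup V'), MaxAv A U → MaxAv A' U' → U'.index = U.index) ∧
    ∀ k, ColA A' k → ColA A k := by
  have hpA : p ∉ A := fun h => hp0 (hc.mx.av p h hp)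
  -- elements with the same image
  have hsame : ∀ x y, π x = π y → x = y ∨ x = y + p := by
    intro x y h
    have h1 : π (x + y) = 0 := by
      rw [map_add, h, ← map_add, h2 y, map_zero]
    rcases (hker _).1 h1 with h3 | h3
    · exact Or.inl (h2.eq_of_add h3)
    · right
      rw [← h3, add_comm x y, h2.cancel]
  have hmem : ∀ x, π x ∈ W.map π → x ∈ W := by
    intro x hx
    obtain ⟨w, hw, hwx⟩ := AddSubgroup.mem_map.1 hx
    rcases hsame x w hwx.symm with h | h
    · rw [h]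
      exact hw
    · rw [h]
      exact W.add_mem hw hp
  have hcm : (W.map π).comap π = W := by
    apply le_antisymm
    · intro x hx
      exact hmem x (AddSubgroup.mem_comap.1 hx)
    · exact AddSubgroup.le_comap_map π W
  have hiW : (W.map π).index = W.index := by
    rw [← AddSubgroup.index_comap_of_surjective (W.map π) hπ, hcm]
  have hW' : MaxAv (A.image π) (W.map π) := by
    constructor
    · intro a' ha' haW
      obtain ⟨a, ha, rfl⟩ := Finset.mem_image.1 ha'
      rw [hc.mx.av a ha (hmem a haW), map_zero]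
    · intro U' hU'
      rw [le_iff, hiW, ← AddSubgroup.index_comap_of_surjective U' hπ, ← le_iff]
      refine hc.mx.max _ fun a ha haU => ?_
      have h1 := hU' (π a) (Finset.mem_image_of_mem π ha) (AddSubgroup.mem_comap.1 haU)
      rcases (hker _).1 h1 with h3 | h3
      · exact h3
      · rw [h3] at ha
        exact absurd ha hpA
  refine ⟨A.image π, ?_, ?_, ?_, Finset.card_image_le, ⟨W.map π, π s, π t, hW', ?_, ?_, ?_⟩,
    ?_, ?_⟩
  · intro x
    obtain ⟨y, rfl⟩ := hπ x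
    rw [← map_add, h2 y, map_zero]
  · exact Finset.mem_image.2 ⟨0, h0, map_zero π⟩
  · refine Fintype.card_lt_of_surjective_not_injective π hπ fun h => hp0 ?_
    exact h (by rw [(hker p).2 (Or.inr rfl), map_zero])
  · refine ⟨Finset.mem_image_of_mem π hc.s1.1, fun b' hb' h => ?_⟩
    obtain ⟨b, hb, rfl⟩ := Finset.mem_image.1 hb'
    rw [← map_add] at h
    rw [hc.s1.2 b hb (hmem _ h)]
  · refine ⟨Finset.mem_image_of_mem π hc.t1.1, fun b' hb' h => ?_⟩
    obtain ⟨b, hb, rfl⟩ := Finset.mem_image.1 hb'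
    rw [← map_add] at h
    rw [hc.t1.2 b hb (hmem _ h)]
  · intro h
    obtain ⟨a, ha, hast⟩ := Finset.mem_image.1 h
    rw [← map_add] at hast
    rcases hsame _ _ hast with h1 | h1
    · rw [h1] at ha
      exact hc.no ha
    · rw [h1] at ha
      exact hst ha
  · intro U U' hU hU'
    rw [idx _ hU' hW', hiW, idx A hc.mx hU]
  · rintro k ⟨c, hcol⟩
    refine ⟨fun x => c (π x), fun x y hxy hA => hcol _ _ ?_ ?_⟩
    · intro h
      rcases hsame x y h with h1 | h1
      · exact hxy h1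
      · apply hpA
        have h3 : x + y = p := by
          rw [h1, add_comm (y + p) y, h2.cancel]
        rw [← h3]
        exact hA
    · rw [← map_add]
      exact Finset.mem_image_of_mem π hA

end PRJM

theorem specPRJ : SpecPRJ := by
  classical
  intro V _ _ _ h2 A h0 W s t p hc hp hp0 hst
  have hπ := QuotientAddGroup.mk'_surjective (ext h2 ⊥ p)
  have hF : Finite (V ⧸ ext h2 ⊥ p) := Finite.of_surjective _ hπ
  let _ : Fintype (V ⧸ ext h2 ⊥ p) := Fintype.ofFinite _
  refine ⟨V ⧸ ext h2 ⊥ p, inferInstance, inferInstance, inferInstance,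
    PRJM.prj h2 A h0 W s t p hc hp hp0 hst (QuotientAddGroup.mk' (ext h2 ⊥ p)) hπ ?_⟩
  intro x
  rw [QuotientAddGroup.mk'_apply, QuotientAddGroup.eq_zero_iff, mem_ext, AddSubgroup.mem_bot,
    AddSubgroup.mem_bot]
  constructor
  · rintro (h | h)
    · exact Or.inl h
    · exact Or.inr (h2.eq_of_add h)
  · rintro (h | h)
    · exact Or.inl h
    · right
      rw [h]
      exact h2 p

end Pool.Agent.Lib.MP_b63a06_co.FR
end

section
set_option autoImplicit false

/-!
# MP_b63a06_co, module SPN: a set which meets all hyperplanes has small span (helper62)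
-/

namespace Pool.Agent.Lib.MP_b63a06_co.FR

open Pool.Agent.Lib.MP_b63a06_co

namespace SPNM

theorem span {V : Type} [AddCommGroup V] [Finite V] (h2 : Two V) (W : AddSubgroup V)
    (Z : Finset V) : (∀ z ∈ Z, z ∈ W) →
    ∃ S : AddSubgroup V, S ≤ W ∧ Nat.card S ≤ 2 ^ Z.card ∧ ∀ z ∈ Z, z ∈ S := by
  classical
  induction Z using Finset.induction_on with
  | empty =>
      intro _
      refine ⟨⊥, bot_le, ?_, ?_⟩
      · simp
      · intro z hz
        simp at hz
  | insert z Z hz ih =>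
      intro h
      obtain ⟨S, hSW, hc, hS⟩ := ih fun y hy => h y (Finset.mem_insert_of_mem hy)
      have hzW : z ∈ W := h z (Finset.mem_insert_self z Z)
      rw [Finset.card_insert_of_notMem hz, pow_succ]
      by_cases hzS : z ∈ S
      · refine ⟨S, hSW, ?_, ?_⟩
        · have : 0 < 2 ^ Z.card := by positivity
          omega
        · intro y hy
          rcases Finset.mem_insert.1 hy with rfl | hy
          · exact hzS
          · exact hS y hy
      · refine ⟨ext h2 S z, ?_, ?_, ?_⟩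
        · rintro y (hy | hy)
          · exact hSW hy
          · have h5 := W.add_mem (hSW hy) hzW
            rwa [h2.cancel' z y] at h5
        · rw [card_ext h2 S z hzS]
          omega
        · intro y hy
          rcases Finset.mem_insert.1 hy with rfl | hy
          · exact self_mem_ext h2 S y
          · exact le_ext h2 S z (hS y hy)

end SPNM

theorem specSPN (hEXH : SpecEXH) : SpecSPN := by
  intro V _ _ h2 W Y hne hYW hmeet
  classical
  obtain ⟨y₀, hy₀⟩ := hne
  obtain ⟨S, hSW, hc, hS⟩ := SPNM.span h2 W ((Y.erase y₀).image fun y => y + y₀) (by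
    intro z hz
    obtain ⟨y, hy, rfl⟩ := Finset.mem_image.1 hz
    exact W.add_mem (hYW y (Finset.mem_of_mem_erase hy)) (hYW y₀ hy₀))
  have hcard : Nat.card S ≤ 2 ^ (Y.card - 1) := by
    refine hc.trans (Nat.pow_le_pow_right (by norm_num) ?_)
    refine Finset.card_image_le.trans ?_
    rw [Finset.card_erase_of_mem hy₀]
  have hadd : ∀ y ∈ Y, y ≠ y₀ → y + y₀ ∈ S := fun y hy hne =>
    hS _ (Finset.mem_image.2 ⟨y, Finset.mem_erase.2 ⟨hne, hy⟩, rfl⟩)
  by_cases h0 : y₀ ∈ S
  · refine ⟨S, hSW, hcard, fun y hy => ?_⟩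
    by_cases hne : y = y₀
    · rwa [hne]
    · have h5 := S.add_mem (hadd y hy hne) h0
      rwa [h2.cancel' y₀ y] at h5
  · exfalso
    obtain ⟨W₁, hW₁, hSW₁⟩ := hEXH V h2 W S y₀ hSW (hYW y₀ hy₀) h0
    obtain ⟨y, hy, hyW₁⟩ := hmeet W₁ y₀ hW₁
    by_cases hne : y = y₀
    · rw [hne] at hyW₁
      exact hW₁.notMem hyW₁
    · have h5 := W₁.add_mem hyW₁ (hSW₁ (hadd y hy hne))
      rw [h2.cancel y y₀] at h5
      exact hW₁.notMem h5

end Pool.Agent.Lib.MP_b63a06_co.FR
end

section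
set_option autoImplicit false

/-!
# MP_b63a06_co, module STP (helper59)
-/

namespace Pool.Agent.Lib.MP_b63a06_co.FR

open Pool.Agent.Lib.MP_b63a06_co

namespace STPM

section

variable {V : Type} [AddCommGroup V] [Finite V]

theorem four_dvd (h2 : Two V) (W : AddSubgroup V) (h : 3 ≤ Nat.card W) : 4 ∣ Nat.card W := by
  have hb : Nat.card (⊥ : AddSubgroup V) = 1 := AddSubgroup.card_bot
  have h1 : ∃ x ∈ W, x ∉ (⊥ : AddSubgroup V) := by
    by_contra hcon
    push Not at hcon
    have h3 : Nat.card W ≤ Nat.card (⊥ : AddSubgroup V) :=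
      Nat.card_mono (Set.toFinite _) (fun x hx => hcon x hx)
    omega
  obtain ⟨x, hx, hx0⟩ := h1
  have hU := card_ext h2 ⊥ x hx0
  rw [hb] at hU
  have h3 : ∃ y ∈ W, y ∉ ext h2 ⊥ x := by
    by_contra hcon
    push Not at hcon
    have h3 : Nat.card W ≤ Nat.card (ext h2 ⊥ x) :=
      Nat.card_mono (Set.toFinite _) (fun x hx => hcon x hx)
    omega
  obtain ⟨y, hy, hyU⟩ := h3
  have hZ := card_ext h2 _ y hyU
  have hle : ext h2 (ext h2 ⊥ x) y ≤ W := by
    have hle1 : ext h2 ⊥ x ≤ W := by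
      rintro z (hz | hz)
      · rw [AddSubgroup.mem_bot] at hz
        rw [hz]
        exact W.zero_mem
      · rw [AddSubgroup.mem_bot] at hz
        rw [h2.eq_of_add hz]
        exact hx
    rintro z (hz | hz)
    · exact hle1 hz
    · have h5 := W.add_mem (hle1 hz) hy
      rwa [h2.cancel' y z] at h5
  have h5 := AddSubgroup.card_dvd_of_le hle
  rw [hZ, hU] at h5
  exact h5

end

variable {V : Type} [AddCommGroup V] [Fintype V] [DecidableEq V]

theorem index_eq (A : Finset V) {U W : AddSubgroup V} (hU : MaxAv A U) (hW : MaxAv A W) :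
    U.index = W.index ∧ Nat.card U = Nat.card W := by
  have hcard : Nat.card U = Nat.card W := le_antisymm (hW.max U hU.av) (hU.max W hW.av)
  have hpos : 0 < Nat.card W := Nat.card_pos
  have h1 := card_V U
  have h3 := card_V W
  rw [h3, hcard] at h1
  exact ⟨(Nat.eq_of_mul_eq_mul_right hpos h1).symm, hcard⟩

theorem qq_mm (h2 : Two V) (A : Finset V) (F : AddSubgroup V) (v : V) :
    (QQ A F v).card = mm A F v := by
  unfold mm
  refine Finset.card_bij (fun q _ => v + q) ?_ ?_ ?_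
  · intro q hq
    rw [mem_QQ] at hq
    rw [mem_ms]
    refine ⟨hq.2, ?_⟩
    have e : v + q + v = q + (v + v) := by abel
    rw [e, h2 v, add_zero]
    exact hq.1
  · intro x _ y _ hxy
    exact add_left_cancel hxy
  · intro a ha
    rw [mem_ms] at ha
    refine ⟨a + v, ?_, ?_⟩
    · rw [mem_QQ]
      refine ⟨ha.2, ?_⟩
      have e : v + (a + v) = a + (v + v) := by abel
      rw [e, h2 v, add_zero]
      exact ha.1
    · have e : v + (a + v) = a + (v + v) := by abel
      rw [e, h2 v, add_zero]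

theorem ee16 : ∀ i ∈ EE, i < 16 := by decide

/-- a frame has six elements of `A` -/
theorem mm_frame (h2 : Two V) (A : Finset V) {F : AddSubgroup V} {e : ℕ → V} (hF : Frame A F e) :
    mm A F 0 = 6 := by
  have h1 : ms A F 0 = EE.image (fun i => gg e 4 i) := by
    ext a
    rw [mem_ms, add_zero, hF.cut a, Finset.mem_image]
    constructor
    · rintro ⟨i, hi, rfl⟩
      exact ⟨i, hi, rfl⟩
    · rintro ⟨i, hi, rfl⟩
      exact ⟨i, hi, rfl⟩
  unfold mm
  rw [h1, Finset.card_image_of_injOn]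
  · decide
  · intro i hi j hj hij
    exact gg_inj h2 e 4 hF.inj i j (ee16 i hi) (ee16 j hj) hij

/-- a light coset -/
theorem light (h2 : Two V) (A : Finset V) {F W : AddSubgroup V} {e : ℕ → V}
    (hF : Frame A F e) (hW : MaxAv A W) (hA : A.card + 3 ≤ 2 * W.index) :
    ∃ γ, γ ∉ F ∧ (QQ A F γ).card ≤ 7 := by
  classical
  by_contra hcon
  push Not at hcon
  have hbig := hF.big W hW
  have hpW : 0 < Nat.card W := Nat.card_pos
  have hidx : W.index = 4 * F.index := by
    have h1 := card_V W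
    have h3 := card_V F
    rw [h1, hbig] at h3
    have e1 : F.index * (4 * Nat.card W) = 4 * F.index * Nat.card W := by ring
    rw [e1] at h3
    exact Nat.eq_of_mul_eq_mul_right hpW h3
  have h1 : ∑ v : V, (8 - if v ∈ F then 2 else 0) ≤ ∑ v : V, mm A F v := by
    refine Finset.sum_le_sum fun v _ => ?_
    by_cases hv : v ∈ F
    · rw [if_pos hv, mm_congr h2 A F (v := 0) (by rwa [add_zero]), mm_frame h2 A hF]
    · rw [if_neg hv, ← qq_mm h2]
      have := hcon v hv
      omega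
  have h3 : ∑ v : V, (8 - if v ∈ F then 2 else 0) + 2 * Nat.card F = 8 * Fintype.card V := by
    have h4 : 2 * Nat.card F = ∑ v : V, if v ∈ F then 2 else 0 := by
      rw [Finset.sum_ite, Finset.sum_const_zero, add_zero, Finset.sum_const, smul_eq_mul,
        Nat.card_eq_fintype_card, Fintype.card_subtype, mul_comm]
    rw [h4, ← Finset.sum_add_distrib]
    have h5 : ∀ v ∈ (Finset.univ : Finset V), (8 - if v ∈ F then 2 else 0) +
        (if v ∈ F then 2 else 0) = 8 := by
      intro v _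
      split_ifs <;> rfl
    rw [Finset.sum_congr rfl h5, Finset.sum_const, Finset.card_univ, smul_eq_mul, mul_comm]
  rw [sum_mm h2 A F] at h1
  rw [card_V F] at h3
  have hpF : 0 < Nat.card F := Nat.card_pos
  have h5 : (8 * F.index) * Nat.card F ≤ (A.card + 2) * Nat.card F := by
    have e1 : (8 * F.index) * Nat.card F = 8 * (F.index * Nat.card F) := by ring
    have e2 : (A.card + 2) * Nat.card F = A.card * Nat.card F + 2 * Nat.card F := by ring
    rw [e1, e2, ← h3]
    omega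
  have h6 := Nat.le_of_mul_le_mul_right h5 hpF
  omega

end STPM

open STPM in
theorem specSTP (hPRJ : SpecPRJ) (hFUL : SpecFUL) (hFRM : SpecFRM) (hCSA : SpecCSA) :
    SpecSTP := by
  have main : ∀ n : ℕ, ∀ (V : Type) [AddCommGroup V] [Fintype V] [DecidableEq V],
      Fintype.card V = n → Two V → ∀ A : Finset V, (0 : V) ∈ A →
      (∀ W : AddSubgroup V, MaxAv A W → A.card + 3 ≤ 2 * W.index) →
      (∃ (W : AddSubgroup V) (s t : V), Conf A W s t) →
      ∀ W : AddSubgroup V, MaxAv A W → ∃ m : ℕ, W.index = 8 * m ∧ ColA A (7 * m) := by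
    intro n
    induction n using Nat.strong_induction_on with
    | _ n ih =>
    intro V _ _ _ hn h2 A h0 hA hconf W hW
    by_cases hfull : ∀ (W : AddSubgroup V) (s t : V), Conf A W s t → ∀ x ∈ W, x ≠ 0 →
        s + t + x ∈ A
    · obtain ⟨W', s, t, hc⟩ := hconf
      by_cases h8 : 8 ≤ Nat.card W'
      · exact (hFUL V h2 A h0 (fun U hU => by
          have := hA U hU
          omega) hfull W' s t hc h8).elim
      · have hX3 := hc.X3 h2 A h0
        have hXle : (XX A W' s t).card + 1 ≤ Nat.card W' := by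
          classical
          have h1 : insert 0 (XX A W' s t) ⊆ Finset.univ.filter (fun v => v ∈ W') := by
            intro x hx
            rw [Finset.mem_insert] at hx
            rw [Finset.mem_filter]
            refine ⟨Finset.mem_univ _, ?_⟩
            rcases hx with rfl | hx
            · exact W'.zero_mem
            · exact ((mem_XX A W' s t x).1 hx).1
          have h3 := Finset.card_le_card h1
          rw [Finset.card_insert_of_notMem (by
            rw [mem_XX]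
            rintro ⟨-, h⟩
            rw [add_zero] at h
            exact hc.no h)] at h3
          have h4 : (Finset.univ.filter (fun v => v ∈ W')).card = Nat.card W' := by
            rw [Nat.card_eq_fintype_card, Fintype.card_subtype]
          rw [h4] at h3
          exact h3
        have h4 := four_dvd h2 W' (by omega)
        have hX : (XX A W' s t).card = 3 := by omega
        obtain ⟨F, e, hF⟩ := hFRM V h2 A h0 W' s t hc hX
        obtain ⟨γ, hγ, hγQ⟩ := light h2 A hF hW (hA W hW)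
        exact hCSA V h2 A h0 F e γ hF hγ hγQ W hW
    · push Not at hfull
      obtain ⟨W', s, t, hc, p, hp, hp0, hpA⟩ := hfull
      obtain ⟨V', i1, i2, i3, A', h2', h0', hlt, hle, hconf', hidx, hcol⟩ :=
        hPRJ V h2 A h0 W' s t p hc hp hp0 hpA
      obtain ⟨U', hU'⟩ := exMaxAv A'
      have e1 := hidx W U' hW hU'
      obtain ⟨m, hm, hcm⟩ := ih (Fintype.card V') (by omega) V' rfl h2' A' h0' (fun U hU => by
        have h3 := hidx W U hW hU
        have h4 := hA W hW
        omega) hconf' U' hU'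
      exact ⟨m, by omega, hcol _ hcm⟩
  intro V _ _ _ h2 A h0 hA hconf W hW
  exact main _ V rfl h2 A h0 hA hconf W hW

end Pool.Agent.Lib.MP_b63a06_co.FR
end

section
/-!
# MP_b63a06_co: tables with 7 colours (helper65)
-/
set_option autoImplicit false

namespace Pool.Agent.Lib.MP_b63a06_co.FR

namespace TBAM

theorem getD_lt (k : ℕ) (hk : 0 < k) (tab : List ℕ) (h : tab.all (fun x => decide (x < k)) = true)
    (u : ℕ) : tab.getD u 0 < k := by
  rw [List.all_eq_true] at h
  by_cases hu : u < tab.length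
  · rw [List.getD_eq_getElem _ _ hu]
    exact of_decide_eq_true (h _ (List.getElem_mem hu))
  · rw [List.getD_eq_default _ _ (not_lt.1 hu)]
    exact hk

/-- The check of a table. -/
def chk (n : ℕ) (D tab : List ℕ) : Bool :=
  (List.range n).all fun u => D.all fun d => !(tab.getD u 0 == tab.getD (u ^^^ d) 0)

theorem chk_spec (n : ℕ) (D tab : List ℕ) (h : chk n D tab = true) (u v : ℕ) (hu : u < n)
    (hd : u ^^^ v ∈ D) : tab.getD u 0 ≠ tab.getD v 0 := by
  unfold chk at h
  rw [List.all_eq_true] at h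
  have h1 := h u (List.mem_range.2 hu)
  rw [List.all_eq_true] at h1
  have h3 := h1 _ hd
  rw [← Nat.xor_assoc, Nat.xor_self, Nat.zero_xor] at h3
  intro he
  rw [he] at h3
  simp at h3

theorem fin (T tab : List ℕ) (h1 : tab.all (fun x => decide (x < 7)) = true)
    (h3 : chk 32 ([1, 2, 4, 8, 15] ++ T.map fun k => 16 ^^^ k) tab = true) : ∃ c : ℕ → ℕ,
    (∀ u, c u < 7) ∧ ∀ u < 32, ∀ v < 32, u ≠ v →
      (u ^^^ v ∈ EE ∨ ∃ k ∈ T, u ^^^ v = 16 ^^^ k) → c u ≠ c v := by
  refine ⟨fun u => tab.getD u 0, getD_lt 7 (by norm_num) tab h1, ?_⟩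
  intro u hu v _ hne h
  refine chk_spec 32 _ tab h3 u v hu ?_
  rw [List.mem_append]
  rcases h with h | ⟨k, hk, h⟩
  · left
    have h0 : u ^^^ v ≠ 0 := fun h => hne (Nat.xor_eq_zero_iff.1 h)
    unfold EE at h
    simp only [Finset.mem_insert, Finset.mem_singleton] at h
    simp only [List.mem_cons, List.not_mem_nil, or_false]
    rcases h with h | h
    · exact absurd h h0
    · exact h
  · right
    rw [List.mem_map]
    exact ⟨k, hk, h.symm⟩

end TBAM

open TBAM in
theorem specTBA : SpecTBA := by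
  intro T hT
  simp only [TT, List.mem_cons, List.not_mem_nil, or_false] at hT
  rcases hT with rfl | rfl | rfl | rfl | rfl | rfl | rfl | rfl | rfl | rfl | rfl | rfl | rfl | rfl | rfl | rfl | rfl | rfl | rfl | rfl | rfl | rfl | rfl | rfl | rfl
  · exact fin _
      [0, 1, 6, 5, 4, 6, 1, 0, 3, 6, 1, 2, 1, 0, 0, 1,
       2, 3, 3, 4, 3, 5, 5, 2, 5, 4, 4, 0, 6, 2, 2, 3]
      (by decide) (by decide)
  · exact fin _
      [0, 1, 3, 5, 4, 6, 5, 0, 3, 4, 1, 0, 1, 0, 0, 1,
       2, 3, 6, 4, 3, 5, 1, 2, 5, 6, 4, 2, 6, 2, 2, 3]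
      (by decide) (by decide)
  · exact fin _
      [0, 1, 6, 0, 6, 0, 1, 5, 1, 2, 4, 1, 4, 1, 0, 4,
       2, 3, 3, 2, 5, 2, 4, 3, 6, 0, 5, 3, 3, 5, 2, 6]
      (by decide) (by decide)
  · exact fin _
      [0, 1, 6, 5, 1, 6, 5, 0, 1, 4, 4, 0, 3, 0, 0, 1,
       2, 3, 1, 4, 4, 5, 3, 2, 5, 6, 3, 2, 6, 2, 2, 3]
      (by decide) (by decide)
  · exact fin _
      [0, 1, 6, 5, 4, 5, 1, 0, 5, 4, 1, 0, 1, 0, 0, 1,
       2, 3, 3, 4, 3, 6, 5, 2, 3, 6, 4, 2, 6, 2, 2, 3]
      (by decide) (by decide)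
  · exact fin _
      [0, 1, 6, 2, 3, 5, 4, 1, 4, 2, 1, 5, 6, 1, 5, 4,
       2, 3, 5, 4, 1, 6, 0, 3, 5, 6, 3, 0, 0, 3, 2, 6]
      (by decide) (by decide)
  · exact fin _
      [0, 1, 6, 5, 6, 5, 5, 6, 5, 6, 4, 3, 4, 1, 6, 5,
       2, 3, 3, 0, 1, 2, 0, 3, 1, 4, 0, 2, 3, 0, 2, 4]
      (by decide) (by decide)
  · exact fin _
      [0, 1, 3, 0, 1, 6, 5, 4, 1, 4, 5, 6, 4, 2, 0, 1,
       2, 3, 1, 5, 3, 0, 6, 2, 3, 0, 4, 2, 6, 5, 2, 3]
      (by decide) (by decide)
  · exact fin _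
      [0, 1, 1, 5, 6, 4, 5, 2, 1, 6, 6, 0, 4, 0, 0, 1,
       2, 3, 4, 6, 1, 5, 3, 0, 5, 4, 3, 2, 3, 2, 2, 3]
      (by decide) (by decide)
  · exact fin _
      [0, 1, 3, 5, 5, 4, 4, 0, 4, 5, 5, 2, 1, 0, 0, 1,
       2, 3, 6, 4, 3, 6, 1, 2, 3, 6, 1, 0, 6, 2, 2, 3]
      (by decide) (by decide)
  · exact fin _
      [0, 1, 6, 4, 4, 6, 1, 2, 5, 0, 3, 2, 6, 2, 0, 1,
       3, 5, 5, 0, 5, 0, 2, 3, 4, 6, 1, 3, 1, 4, 4, 6]
      (by decide) (by decide)
  · exact fin _
      [0, 1, 1, 5, 1, 5, 6, 4, 1, 5, 0, 4, 6, 4, 4, 1,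
       2, 6, 3, 0, 5, 3, 0, 2, 3, 2, 2, 3, 2, 0, 3, 6]
      (by decide) (by decide)
  · exact fin _
      [0, 1, 1, 6, 5, 2, 2, 1, 4, 5, 5, 2, 1, 0, 0, 6,
       2, 3, 4, 5, 3, 6, 6, 3, 6, 4, 3, 0, 2, 3, 4, 5]
      (by decide) (by decide)
  · exact fin _
      [0, 1, 6, 5, 5, 6, 1, 0, 3, 5, 1, 2, 1, 2, 2, 1,
       2, 3, 3, 4, 3, 4, 4, 2, 4, 6, 5, 0, 6, 0, 0, 4]
      (by decide) (by decide)
  · exact fin _
      [0, 1, 6, 4, 3, 4, 1, 2, 4, 6, 1, 0, 1, 2, 2, 1,
       2, 3, 3, 5, 5, 6, 4, 0, 3, 5, 5, 2, 6, 0, 0, 4]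
      (by decide) (by decide)
  · exact fin _
      [0, 1, 1, 5, 6, 5, 5, 2, 5, 6, 6, 2, 3, 2, 0, 1,
       2, 3, 4, 6, 1, 4, 3, 0, 1, 4, 3, 0, 4, 0, 2, 4]
      (by decide) (by decide)
  · exact fin _
      [0, 1, 6, 5, 3, 6, 1, 0, 3, 4, 4, 0, 1, 2, 2, 3,
       2, 3, 3, 4, 4, 5, 5, 2, 5, 6, 1, 2, 6, 0, 0, 4]
      (by decide) (by decide)
  · exact fin _
      [0, 1, 3, 4, 5, 4, 1, 2, 4, 5, 1, 0, 1, 0, 2, 1,
       2, 3, 6, 5, 3, 6, 4, 0, 3, 6, 5, 2, 6, 2, 0, 4]
      (by decide) (by decide)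
  · exact fin _
      [0, 1, 4, 2, 2, 6, 5, 1, 4, 2, 5, 1, 5, 0, 0, 6,
       2, 3, 1, 6, 3, 4, 6, 3, 6, 0, 3, 4, 1, 3, 4, 5]
      (by decide) (by decide)
  · exact fin _
      [0, 1, 6, 4, 3, 5, 5, 0, 3, 6, 1, 0, 1, 2, 2, 3,
       2, 3, 3, 5, 4, 6, 1, 2, 5, 4, 4, 2, 6, 0, 0, 4]
      (by decide) (by decide)
  · exact fin _
      [0, 1, 3, 4, 4, 6, 1, 0, 3, 4, 1, 2, 1, 0, 2, 3,
       2, 3, 6, 5, 3, 5, 5, 2, 5, 6, 4, 0, 6, 2, 0, 4]
      (by decide) (by decide)
  · exact fin _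
      [0, 1, 5, 6, 6, 4, 0, 1, 5, 6, 6, 2, 1, 3, 5, 6,
       2, 3, 4, 0, 1, 5, 3, 2, 3, 4, 0, 5, 4, 0, 2, 4]
      (by decide) (by decide)
  · exact fin _
      [0, 1, 1, 6, 4, 6, 6, 4, 5, 4, 3, 5, 0, 5, 5, 6,
       2, 3, 4, 2, 3, 0, 2, 1, 6, 0, 2, 1, 1, 2, 4, 3]
      (by decide) (by decide)
  · exact fin _
      [0, 1, 5, 4, 1, 6, 3, 5, 3, 6, 4, 2, 6, 3, 2, 1,
       2, 3, 1, 0, 5, 4, 0, 2, 1, 5, 6, 3, 4, 2, 5, 0]
      (by decide) (by decide)
  · exact fin _
      [0, 1, 3, 4, 4, 6, 5, 0, 1, 6, 2, 3, 2, 4, 0, 5,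
       2, 3, 1, 5, 1, 5, 6, 3, 5, 2, 6, 0, 3, 0, 4, 1]
      (by decide) (by decide)

end Pool.Agent.Lib.MP_b63a06_co.FR
end

section
/-!
# MP_b63a06_co: a table with 12 colours (helper65)
-/
set_option autoImplicit false

namespace Pool.Agent.Lib.MP_b63a06_co.FR

namespace TBBM

theorem getD_lt (k : ℕ) (hk : 0 < k) (tab : List ℕ) (h : tab.all (fun x => decide (x < k)) = true)
    (u : ℕ) : tab.getD u 0 < k := by
  rw [List.all_eq_true] at h
  by_cases hu : u < tab.length
  · rw [List.getD_eq_getElem _ _ hu]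
    exact of_decide_eq_true (h _ (List.getElem_mem hu))
  · rw [List.getD_eq_default _ _ (not_lt.1 hu)]
    exact hk

/-- The check of a table. -/
def chk (n : ℕ) (D tab : List ℕ) : Bool :=
  (List.range n).all fun u => D.all fun d => !(tab.getD u 0 == tab.getD (u ^^^ d) 0)

theorem chk_spec (n : ℕ) (D tab : List ℕ) (h : chk n D tab = true) (u v : ℕ) (hu : u < n)
    (hd : u ^^^ v ∈ D) : tab.getD u 0 ≠ tab.getD v 0 := by
  unfold chk at h
  rw [List.all_eq_true] at h
  have h1 := h u (List.mem_range.2 hu)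
  rw [List.all_eq_true] at h1
  have h3 := h1 _ hd
  rw [← Nat.xor_assoc, Nat.xor_self, Nat.zero_xor] at h3
  intro he
  rw [he] at h3
  simp at h3

/-- The table. -/
def tab : List ℕ :=
  [0, 1, 7, 11, 7, 5, 1, 7, 4, 11, 1, 6, 1, 2, 7, 11,
   2, 3, 4, 2, 10, 4, 2, 10, 9, 7, 2, 4, 8, 9, 4, 1,
   5, 3, 6, 5, 11, 6, 5, 0, 6, 7, 11, 0, 8, 0, 0, 1,
   0, 8, 10, 9, 9, 5, 3, 8, 4, 10, 3, 8, 3, 2, 9, 3]

/-- The connection set. -/
def con : List ℕ := [1, 2, 4, 8, 15, 16, 17, 18, 20, 24, 31, 32, 33, 34, 36, 40, 47, 49, 50, 51, 52,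
  53, 54, 55, 56, 57, 58, 59, 60, 61, 62, 63]

end TBBM

open TBBM in
theorem specTBB : SpecTBB := by
  refine ⟨fun u => tab.getD u 0, getD_lt 12 (by norm_num) tab (by decide), ?_⟩
  intro u hu v _ hne h
  refine chk_spec 64 con tab (by decide) u v hu ?_
  rcases h with h | ⟨k, hk, h⟩ | ⟨k, hk, h⟩ | ⟨k, h0, hk, h⟩
  · have h0 : u ^^^ v ≠ 0 := fun h => hne (Nat.xor_eq_zero_iff.1 h)
    unfold EE at h
    simp only [Finset.mem_insert, Finset.mem_singleton] at h
    rcases h with h | h | h | h | h | h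
    · exact absurd h h0
    all_goals
      rw [h]
      decide
  · rw [h]
    unfold EE at hk
    simp only [Finset.mem_insert, Finset.mem_singleton] at hk
    rcases hk with rfl | rfl | rfl | rfl | rfl | rfl <;> decide
  · rw [h]
    unfold EE at hk
    simp only [Finset.mem_insert, Finset.mem_singleton] at hk
    rcases hk with rfl | rfl | rfl | rfl | rfl | rfl <;> decide
  · rw [h]
    interval_cases k <;> decide

end Pool.Agent.Lib.MP_b63a06_co.FR
end
end

section
section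
set_option autoImplicit false

/-!
# MP_b63a06_co, module SIX (helper77)
-/

namespace Pool.Agent.Lib.MP_b63a06_co.FR

open Pool.Agent.Lib.MP_b63a06_co

namespace SIXM

section

variable {V : Type} [AddCommGroup V]

/-- the number of the coset of `R` -/
theorem exPhi (h2 : Two V) {F R : AddSubgroup V} {e : ℕ → V} (hR : Cpl F e R) :
    ∃ f : V → ℕ, (∀ q ∈ F, f q < 16 ∧ q + gg e 4 (f q) ∈ R) ∧
      ∀ q ∈ F, ∀ i, i < 16 → q + gg e 4 i ∈ R → f q = i := by
  classical
  have h : ∀ q : V, ∃ i : ℕ, q ∈ F → i < 16 ∧ q + gg e 4 i ∈ R := by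
    intro q
    by_cases hq : q ∈ F
    · obtain ⟨i, hi, h1⟩ := hR.gen q hq
      exact ⟨i, fun _ => ⟨hi, h1⟩⟩
    · exact ⟨0, fun h => absurd h hq⟩
  choose f hf using h
  refine ⟨f, hf, fun q hq i hi h1 => ?_⟩
  obtain ⟨h3, h4⟩ := hf q hq
  refine KERM.eq_of_add_mem h2 hR h3 hi ?_
  have h5 := R.add_mem h4 h1
  have e1 : q + gg e 4 (f q) + (q + gg e 4 i) = gg e 4 (f q) + gg e 4 i + (q + q) := by abel
  rwa [e1, h2 q, add_zero] at h5

end

section

variable {V : Type} [AddCommGroup V] [Fintype V] [DecidableEq V]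

/-- the pattern meets all cosets of lines -/
theorem meets (hKER : SpecKER) (h2 : Two V) (A : Finset V) (h0 : (0 : V) ∈ A)
    {F R : AddSubgroup V} {e : ℕ → V} (hF : Frame A F e) (hR : Cpl F e R) (v : V) (f : V → ℕ)
    (hf : ∀ q ∈ F, ∀ i, i < 16 → q + gg e 4 i ∈ R → f q = i) :
    ∀ i ∈ NF, ∀ j ∈ NF, i ^^^ j ∈ NF → ∀ c < 16,
      c ∈ (QQ A F v).image f ∨ c ^^^ i ∈ (QQ A F v).image f ∨ c ^^^ j ∈ (QQ A F v).image f ∨
        c ^^^ i ^^^ j ∈ (QQ A F v).image f := by
  intro i hi j hj hij c hc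
  obtain ⟨-, hi16⟩ := KERM.nf0 i hi
  obtain ⟨-, hj16⟩ := KERM.nf0 j hj
  have hZ := hKER V h2 A h0 F e R hF hR i hi j hj hij
  obtain ⟨a, ha, haZ⟩ := cov h2 A h0 hZ (v + gg e 4 c)
  have hg : ∀ k, gg e 4 k ∈ F := fun k => KERM.gg_mem F e 4 k hF.mem
  have key : ∀ k, k < 16 → a + v + gg e 4 k ∈ R → k ∈ (QQ A F v).image f := by
    intro k hk h
    have hq : a + v ∈ F := by
      have h1 := F.add_mem (hR.le h) (hg k)
      rwa [h2.cancel'] at h1
    rw [Finset.mem_image]
    refine ⟨a + v, ?_, hf _ hq k hk h⟩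
    rw [mem_QQ]
    refine ⟨hq, ?_⟩
    have e1 : v + (a + v) = a + (v + v) := by abel
    rwa [e1, h2 v, add_zero]
  have l1 : c ^^^ i < 16 := Nat.xor_lt_two_pow (n := 4) hc hi16
  have l2 : c ^^^ j < 16 := Nat.xor_lt_two_pow (n := 4) hc hj16
  have l3 : c ^^^ i ^^^ j < 16 := Nat.xor_lt_two_pow (n := 4) l1 hj16
  rcases haZ with (h | h) | (h | h)
  · left
    refine key c hc ?_
    rwa [add_assoc]
  · right; left
    refine key _ l1 ?_
    rw [gg_xor h2]
    have e1 : a + v + (gg e 4 c + gg e 4 i) = a + (v + gg e 4 c) + gg e 4 i := by abel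
    rwa [e1]
  · right; right; left
    refine key _ l2 ?_
    rw [gg_xor h2]
    have e1 : a + v + (gg e 4 c + gg e 4 j) = a + (v + gg e 4 c) + gg e 4 j := by abel
    rwa [e1]
  · right; right; right
    refine key _ l3 ?_
    rw [gg_xor h2, gg_xor h2]
    have e1 : a + v + (gg e 4 c + gg e 4 i + gg e 4 j) =
        a + (v + gg e 4 c) + gg e 4 j + gg e 4 i := by abel
    rwa [e1]

end

end SIXM

open SIXM in
theorem specSIX (hCPF : SpecCPF) (hKER : SpecKER) (hFNA : SpecFNA) : SpecSIX := by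
  intro V _ _ _ h2 A h0 F e hF v
  have hg : ∀ k, gg e 4 k ∈ F := fun k => KERM.gg_mem F e 4 k hF.mem
  have hpat : ∀ (R : AddSubgroup V) (f : V → ℕ), Cpl F e R →
      (∀ q ∈ F, f q < 16 ∧ q + gg e 4 (f q) ∈ R) →
      (∀ q ∈ F, ∀ i, i < 16 → q + gg e 4 i ∈ R → f q = i) →
      6 ≤ ((QQ A F v).image f).card ∧ (((QQ A F v).image f).card = 6 →
        ∃ c < 16, ∀ i, i ∈ (QQ A F v).image f ↔ ∃ k ∈ EE, i = c ^^^ k) := by
    intro R f hR hf1 hf3
    obtain ⟨h1, h3, -⟩ := hFNA ((QQ A F v).image f) (by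
      intro i hi
      obtain ⟨q, hq, rfl⟩ := Finset.mem_image.1 hi
      exact (hf1 q ((mem_QQ A F v q).1 hq).1).1) (meets hKER h2 A h0 hF hR v f hf3)
    exact ⟨h1, h3⟩
  obtain ⟨R, -, hR, -⟩ := hCPF V h2 A F e hF ⊥ ∅ bot_le
    (fun i hi h => hF.inj i hi (AddSubgroup.mem_bot.1 h)) (fun y hy => by simp at hy) (by simp)
  obtain ⟨f, hf1, hf3⟩ := exPhi h2 hR
  obtain ⟨p1, p3⟩ := hpat R f hR hf1 hf3
  have hle : ((QQ A F v).image f).card ≤ (QQ A F v).card := Finset.card_image_le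
  refine ⟨p1.trans hle, fun h6 => ?_⟩
  -- all sums are in `DD e`
  have hsum : ∀ p ∈ QQ A F v, ∀ q ∈ QQ A F v, ∃ i, i < 16 ∧ p + q = gg e 4 i := by
    intro p hp q hq
    by_contra hcon
    push Not at hcon
    have hpF := ((mem_QQ A F v p).1 hp).1
    have hqF := ((mem_QQ A F v q).1 hq).1
    have hpqF := F.add_mem hpF hqF
    obtain ⟨R', hle', hR', -⟩ := hCPF V h2 A F e hF (ext h2 ⊥ (p + q)) ∅ (by
        rintro x (hx | hx)
        · rw [AddSubgroup.mem_bot.1 hx]
          exact F.zero_mem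
        · rw [h2.eq_of_add (AddSubgroup.mem_bot.1 hx)]
          exact hpqF) (by
        rintro i hi (hx | hx)
        · exact hF.inj i hi (AddSubgroup.mem_bot.1 hx)
        · exact absurd (h2.eq_of_add (AddSubgroup.mem_bot.1 hx)).symm (hcon i hi))
      (fun y hy => by simp at hy) (by simp)
    obtain ⟨f', hf1', hf3'⟩ := exPhi h2 hR'
    obtain ⟨q1, -⟩ := hpat R' f' hR' hf1' hf3'
    have hcard : ((QQ A F v).image f').card = (QQ A F v).card := by
      have h7 : ((QQ A F v).image f').card ≤ (QQ A F v).card := Finset.card_image_le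
      omega
    have hinj := Finset.card_image_iff.1 hcard
    have hpq : p + q ∈ R' := hle' (self_mem_ext h2 ⊥ (p + q))
    have h8 : f' q = f' p := by
      refine hf3' q hqF _ (hf1' p hpF).1 ?_
      have h9 := R'.add_mem (hf1' p hpF).2 hpq
      have e1 : p + gg e 4 (f' p) + (p + q) = q + gg e 4 (f' p) + (p + p) := by abel
      rwa [e1, h2 p, add_zero] at h9
    have h9 : q = p := hinj (Finset.mem_coe.2 hq) (Finset.mem_coe.2 hp) h8
    refine hcon 0 (by norm_num) ?_
    rw [h9, h2 p, gg_zero]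
  have hne : (QQ A F v).Nonempty := Finset.card_pos.1 (by omega)
  obtain ⟨p, hp⟩ := hne
  have hpF := ((mem_QQ A F v p).1 hp).1
  obtain ⟨c, hc, hcE⟩ := p3 (by omega)
  obtain ⟨hk, hr⟩ := hf1 p hpF
  -- `q = r + gg (f q)`
  have hq : ∀ q ∈ QQ A F v, q = p + gg e 4 (f p) + gg e 4 (f q) := by
    intro q hq
    have hqF := ((mem_QQ A F v q).1 hq).1
    obtain ⟨i, hi, hpq⟩ := hsum p hp q hq
    have h1 : f q = i ^^^ f p := by
      refine hf3 q hqF _ (Nat.xor_lt_two_pow (n := 4) hi hk) ?_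
      rw [gg_xor h2, ← hpq]
      have e1 : q + (p + q + gg e 4 (f p)) = p + gg e 4 (f p) + (q + q) := by abel
      rw [e1, h2 q, add_zero]
      exact hr
    rw [h1, gg_xor h2, ← hpq]
    have e1 : p + gg e 4 (f p) + (p + q + gg e 4 (f p)) =
        q + (p + p) + (gg e 4 (f p) + gg e 4 (f p)) := by abel
    rw [e1, h2 p, h2 (gg e 4 (f p)), add_zero, add_zero]
  have hrF := hR.le hr
  set r := p + gg e 4 (f p) with hrdef
  refine ⟨v + r + gg e 4 c, ?_, ?_⟩
  · intro a
    constructor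
    · rintro ⟨ha, haF⟩
      have hqF : a + v ∈ F := by
        have h1 := F.add_mem haF (F.add_mem hrF (hg c))
        have e1 : a + (v + r + gg e 4 c) + (r + gg e 4 c) =
            a + v + (r + r) + (gg e 4 c + gg e 4 c) := by abel
        rwa [e1, h2 r, h2 (gg e 4 c), add_zero, add_zero] at h1
      have hqQ : a + v ∈ QQ A F v := by
        rw [mem_QQ]
        refine ⟨hqF, ?_⟩
        have e1 : v + (a + v) = a + (v + v) := by abel
        rwa [e1, h2 v, add_zero]
      obtain ⟨k, hkE, hfk⟩ := (hcE (f (a + v))).1 (Finset.mem_image_of_mem f hqQ)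
      refine ⟨k, hkE, ?_⟩
      have h1 := hq (a + v) hqQ
      rw [hfk, gg_xor h2] at h1
      have h3 : a = a + v + v := (h2.cancel' v a).symm
      rw [h3, h1]
      abel
    · rintro ⟨k, hkE, rfl⟩
      obtain ⟨q, hqQ, hfq⟩ := Finset.mem_image.1 ((hcE (c ^^^ k)).2 ⟨k, hkE, rfl⟩)
      have h1 := hq q hqQ
      rw [hfq, gg_xor h2] at h1
      have h3 := ((mem_QQ A F v q).1 hqQ).2
      constructor
      · have e1 : v + r + gg e 4 c + gg e 4 k = v + q := by
          rw [h1]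
          abel
        rw [e1]
        exact h3
      · have e1 : v + r + gg e 4 c + gg e 4 k + (v + r + gg e 4 c) =
            gg e 4 k + ((v + r + gg e 4 c) + (v + r + gg e 4 c)) := by abel
        rw [e1, h2, add_zero]
        exact hg k
  · have e1 : v + r + gg e 4 c + v = r + gg e 4 c + (v + v) := by abel
    rw [e1, h2 v, add_zero]
    exact F.add_mem hrF (hg c)

end Pool.Agent.Lib.MP_b63a06_co.FR
end

section
set_option autoImplicit false

/-!
# MP_b63a06_co: Reed's bound for all cubelike graphs: assembly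

The plan of the proof is in `FR/Spec.lean`.
-/

namespace Pool.Agent.Lib.MP_b63a06_co.FR

open Pool.Agent.Lib.MP_b63a06_co

theorem cSPN : SpecSPN := specSPN specEXH
theorem cCPF : SpecCPF := specCPF specCPL
theorem cCSA : SpecCSA := specCSA cCPF specKER specFNA specTBA specCOL
theorem cCTW : SpecCTW := specCTW specTBB specCOL
theorem cSIX : SpecSIX := specSIX cCPF specKER specFNA
theorem cCNT : SpecCNT := specCNT cSIX
theorem cLFR : SpecLFR := specLFR cCPF specFNB
theorem cLMB : SpecLMB := specLMB specHYP cCPF cSIX cLFR specFLP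
theorem cLTA : SpecLTA := specLTA specEXH cSPN specMEE
theorem cFRM : SpecFRM := specFRM cSPN
theorem cFUL : SpecFUL := specFUL specEXH cSPN specMEE
theorem cSTP : SpecSTP := specSTP specPRJ cFUL cFRM cCSA
theorem cMAI : SpecMAI := specMAI cLTA cFRM cCNT cLMB cCTW cSTP

end Pool.Agent.Lib.MP_b63a06_co.FR
end
end
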