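import Pool.Agent.Lib.MP_b63a06_co.FR.Defs

set_option autoImplicit false

/-!
# MP_b63a06_co: Reed's bound for ALL cubelike graphs: specifications (helper65)

TARGET: `V` a finite abelian group with `x + x = 0`, `G` a Cayley graph of `V`. Then
`χ(G) ≤ ⌊(ω + Δ + 1) / 2⌋` (Reed's conjecture, with the floor), without any restriction on `ω`.

PLAN. `A = S ∪ {0}`, `|A| = Δ + 1`, `W` a subgroup of maximal order avoiding `S`, `M` its index. The
cosets of `W` are `M` colour classes. If there is no conflict, then `2 M ≤ ω + |A|` (known, `main1`).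
If there is a conflict, then `3 M ≤ 2 |A|` (known, `many`). New:
(STP) if there is a conflict and `|A| + 3 ≤ 2 M` then `7 M / 8` colours suffice;
(LTA, FRM) if moreover `4 |A| < 7 M` then there is a frame `F`; (CNT) it has at least `7 M / 4 - |A|`
centres; if they are a clique then `2 * 7 M / 8 ≤ ω + |A|`; if not, there is a conflict of two centres,
then (LMB) a conflict of centres with a complement `R` avoiding the pattern `QQ`, and then (C12)
`3 M / 4` colours suffice, and `2 * 3 M / 4 ≤ |A|`.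

Module `XXX` = file `FR/XXX.lean`, `import Pool.Agent.Lib.MP_b63a06_co.FR.Spec`, namespace
`Pool.Agent.Lib.MP_b63a06_co.FR`, own lemmas in the namespace `...FR.XXXM`, theorem
`specXXX (hYYY : SpecYYY) .. : SpecXXX`; any Spec may be a hypothesis. The lemmas of `Cube.lean`,
`Count.lean`, `Graph.lean` (`ext`, `card_ext`, `flip`, `cov`, `exHyp`, `mem_XX`, `mem_ms`, `mm_congr`,
`card_XX`, `sum_mm`, `card_V`, `many`, `countA`, ...) and of `FR/Defs.lean` (`gg_xor`, `gg_inj`, ...)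
may be used.

`ext h2 W₁ v` is the subgroup `W₁ ∪ (v + W₁)`. THE FLIP: `γ` single, `γ ∉ W`, `W₁` a hyperplane of `W`,
`x ∈ W ∖ W₁`: `ext h2 W₁ (γ + x)` is again `MaxAv` (`flip` in `Cube.lean`).
-/

namespace Pool.Agent.Lib.MP_b63a06_co.FR

open Pool.Agent.Lib.MP_b63a06_co

/-! ## Part 1: groups -/

/-- EXH [70 lines]. A hyperplane that contains a given subgroup.

Proof. As `exHyp` in `Cube.lean`: take `U` of maximal order with `S ≤ U ≤ W`, `x ∉ U`. -/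
def SpecEXH : Prop := ∀ (V : Type) [AddCommGroup V] [Finite V], Two V → ∀ (W S : AddSubgroup V)
  (x : V), S ≤ W → x ∈ W → x ∉ S → ∃ W₁ : AddSubgroup V, Hyp W W₁ x ∧ S ≤ W₁

/-- SPN [100 lines]. A set which meets all hyperplanes has small span (EXH).

Proof. Let `y₀ ∈ Y` and let `S` be generated by the `|Y| - 1` elements `y + y₀`, `y ∈ Y ∖ {y₀}`; so
`|S| ≤ 2 ^ (|Y| - 1)` (induction over the number of generators, `card_ext`). If `y₀ ∉ S` then EXH gives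
a hyperplane `W₁ ≥ S` with `y₀ ∉ W₁`, so `y ∉ W₁` for all `y ∈ Y`, a contradiction. So `y₀ ∈ S` and `Y ⊆ S`. -/
def SpecSPN : Prop := ∀ (V : Type) [AddCommGroup V] [Finite V], Two V → ∀ (W : AddSubgroup V)
  (Y : Finset V), Y.Nonempty → (∀ y ∈ Y, y ∈ W) →
  (∀ (W₁ : AddSubgroup V) (w : V), Hyp W W₁ w → ∃ y ∈ Y, y ∈ W₁) →
  ∃ S : AddSubgroup V, S ≤ W ∧ Nat.card S ≤ 2 ^ (Y.card - 1) ∧ ∀ y ∈ Y, y ∈ S

/-- MEE [60 lines]. The pattern of two single elements meets all hyperplanes.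

Proof. Copy of `Conf.meet` (the hypothesis `s + t ∉ A` is only used there for `s ∉ W`). -/
def SpecMEE : Prop := ∀ (V : Type) [AddCommGroup V] [Fintype V] [DecidableEq V], Two V →
  ∀ A : Finset V, (0 : V) ∈ A → ∀ (W : AddSubgroup V) (s t : V), MaxAv A W → Sgl A W s → s ∉ W →
  Sgl A W t → ∀ (W₁ : AddSubgroup V) (w : V), Hyp W W₁ w → ∃ x ∈ XX A W s t, x ∈ W₁

/-- HYP [120 lines]. A hyperplane outside of which `Q` has more elements than `P`.

Proof. Let `H` be a subgroup of maximal order with `K ≤ H ≤ F`, `H ≠ F` and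
`|P ∖ H| < |Q ∖ H|` (`K` is one: `Q ∖ K` is nonempty). If `H` is not a hyperplane of `F`: for `v ∈ F ∖ H` put
`H_v = ext H v` (`≠ F`, larger), so `|Q ∖ H_v| ≤ |P ∖ H_v|` by maximality, and
`|Q ∖ H_v| = |Q ∖ H| - |Q ∩ (v + H)|`. Sum over `v ∈ F ∖ H`:
`∑_v |Q ∩ (v + H)| = |H| |Q ∖ H|` (every `q ∈ Q ∖ H` is counted for the `|H|` elements `v ∈ q + H`). So
`(|F| - 2 |H|) |Q ∖ H| ≤ (|F| - 2 |H|) |P ∖ H|` with `|F| ≥ 4 |H|`, a contradiction. -/
def SpecHYP : Prop := ∀ (V : Type) [AddCommGroup V] [Fintype V] [DecidableEq V], Two V →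
  ∀ (F K : AddSubgroup V) (P Q : Finset V), K ≤ F → (∀ p ∈ P, p ∈ F) → (∀ q ∈ Q, q ∈ F) →
  {p | p ∈ P ∧ p ∉ K}.ncard < {q | q ∈ Q ∧ q ∉ K}.ncard →
  ∃ (F₁ : AddSubgroup V) (w : V), Hyp F F₁ w ∧ K ≤ F₁ ∧
    {p | p ∈ P ∧ p ∉ F₁}.ncard < {q | q ∈ Q ∧ q ∉ F₁}.ncard

/-- CPL [120 lines]. Complements avoiding a small set.

Proof. Let `R` be of maximal order with `R₀ ≤ R ≤ F`, `R ∩ D = 0`, `R ∩ Y = ∅`. Suppose that `x ∈ F` and
`x + d ∉ R` for all `d ∈ D`. The sets `x + d + R`, `d ∈ D`, are disjoint, so by `|Y| < |D|` there is a `d`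
with `(x + d + R) ∩ Y = ∅`. Then `ext R (x + d)` is larger, avoids `Y`, is in `F` and meets `D` only in
`0` (`r + x + d = d' ∈ D` would imply `x + (d + d') ∈ R`): a contradiction. -/
def SpecCPL : Prop := ∀ (V : Type) [AddCommGroup V] [Finite V], Two V →
  ∀ (D F R₀ : AddSubgroup V) (Y : Finset V), D ≤ F → R₀ ≤ F → (∀ x ∈ R₀, x ∈ D → x = 0) →
  (∀ y ∈ Y, y ∉ R₀) → Y.card < Nat.card D →
  ∃ R : AddSubgroup V, R₀ ≤ R ∧ R ≤ F ∧ (∀ x ∈ R, x ∈ D → x = 0) ∧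
    (∀ x ∈ F, ∃ d ∈ D, x + d ∈ R) ∧ ∀ y ∈ Y, y ∉ R

/-- CPF [60 lines]. Complements in a frame (CPL).

Proof. CPL with `D = DD h2 e`, which has 16 elements (`gg_inj`, `Frame.inj`). -/
def SpecCPF : Prop := ∀ (V : Type) [AddCommGroup V] [Fintype V] [DecidableEq V], Two V →
  ∀ (A : Finset V) (F : AddSubgroup V) (e : ℕ → V), Frame A F e → ∀ (R₀ : AddSubgroup V)
  (Y : Finset V), R₀ ≤ F → (∀ i, i < 16 → gg e 4 i ∈ R₀ → i = 0) → (∀ y ∈ Y, y ∉ R₀) →
  Y.card ≤ 15 → ∃ R : AddSubgroup V, R₀ ≤ R ∧ Cpl F e R ∧ ∀ y ∈ Y, y ∉ R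

/-! ## Part 2: finite computations -/

/-- FNA [150 lines]. Patterns with at most seven elements.

Proof. Computation. `c, c ^ i, c ^ j, c ^ i ^ j` are the 40 cosets of the 10 lines; `P` meets all of
them. For instance a branching: as long as a coset is not met by the elements chosen so far, choose
one of its four elements (depth at most 7, at most `4 ^ 7` branches); all leaves with at most 7
elements are translates of `EE` (with 6 elements) or contained in a translate of an element of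
`TT`. (There are 16 patterns with 6 elements and 400 with 7 elements, checked by computer. All
translates `c + EE ∪ {x}` are in translates of the first ten elements of `TT`.) -/
def SpecFNA : Prop := ∀ P : Finset ℕ, (∀ i ∈ P, i < 16) →
  (∀ i ∈ NF, ∀ j ∈ NF, i ^^^ j ∈ NF → ∀ c < 16,
    c ∈ P ∨ c ^^^ i ∈ P ∨ c ^^^ j ∈ P ∨ c ^^^ i ^^^ j ∈ P) →
  6 ≤ P.card ∧
  (P.card = 6 → ∃ c < 16, ∀ i, i ∈ P ↔ ∃ k ∈ EE, i = c ^^^ k) ∧
  (P.card ≤ 7 → ∃ c < 16, ∃ T ∈ TT, ∀ i ∈ P, i ^^^ c ∈ T)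

/-- FNB [60 lines]. Patterns of sums of two centres.

Proof. For `m = 0`: every `l ∈ NF` is possible, for `m = e_a` the `l = e_p + e_q`, `p, q ≠ a` (six).
If `0 ∉ P` then `NF ⊆ P`, 10 elements. If `0 ∈ P` and two of the five `e_a` are not in `P`: 6 + 6 - 3 = 9
elements of `NF`, together at least 10. If exactly one is missing: `1 + 4 + 6 = 11` elements. (Or by
computation.) -/
def SpecFNB : Prop := ∀ P : Finset ℕ, (∀ i ∈ P, i < 16) →
  (∀ m ∈ EE, ∀ l ∈ NF, l ^^^ m ∈ NF → m ∈ P ∨ l ∈ P) → P.card ≤ 9 → ∀ m ∈ EE, m ∈ P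

/-- TBA [100 lines]. Tables with 7 colours for the 32 elements `u = i + 16 b`.

Proof. The tables (list `c`, for the elements of `TT` in their order) are in the file
`/team-store/MP_b63a06_tables.txt`; check by `decide`. -/
def SpecTBA : Prop := ∀ T ∈ TT, ∃ c : ℕ → ℕ, (∀ u, c u < 7) ∧
  ∀ u < 32, ∀ v < 32, u ≠ v → (u ^^^ v ∈ EE ∨ ∃ k ∈ T, u ^^^ v = 16 ^^^ k) → c u ≠ c v

/-- TBB [60 lines]. A table with 12 colours for the 64 elements.

Proof. The table is in `/team-store/MP_b63a06_tables.txt`; check by `decide`. -/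
def SpecTBB : Prop := ∃ c : ℕ → ℕ, (∀ u, c u < 12) ∧
  ∀ u < 64, ∀ v < 64, u ≠ v → (u ^^^ v ∈ EE ∨ (∃ k ∈ EE, u ^^^ v = 16 ^^^ k) ∨
    (∃ k ∈ EE, u ^^^ v = 32 ^^^ k) ∨ ∃ k, 0 < k ∧ k < 16 ∧ u ^^^ v = 48 ^^^ k) → c u ≠ c v

/-! ## Part 3: colourings -/

/-- COL [80 lines]. From a subgroup to the group.

Proof. Colour `v` by the coset of `v` and `c (v + r)`, where `r` is a fixed representative of the coset.
If `x + y ∈ A` and `x`, `y` are in the same coset then `(x + r) + (y + r) = x + y ∈ A`. The number of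
cosets is `U.index`. -/
def SpecCOL : Prop := ∀ (V : Type) [AddCommGroup V] [Fintype V] [DecidableEq V], Two V →
  ∀ (A : Finset V) (U : AddSubgroup V) (k : ℕ) (c : V → ℕ), (∀ x ∈ U, c x < k) →
  (∀ x ∈ U, ∀ y ∈ U, x ≠ y → x + y ∈ A → c x ≠ c y) → ColA A (k * U.index)

/-- CSA [150 lines]. `7 M / 8` colours from a frame and a light coset (CPF, KER, FNA, TBA, COL).

Proof. `R` a complement (CPF, `R₀ = 0`, `Y = ∅`). Let `P = {i < 16 | ∃ q ∈ QQ A F γ, q + g_i ∈ R}`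
(`g_i = gg e 4 i`). `|P| ≤ 7`, and `P` meets the 40 cosets of lines: for `i, j, i ^ j ∈ NF` and `c < 16`
KER gives `a ∈ A` with `a + (γ + g_c) ∈ ext (ext R g_i) g_j`, so `q = a + γ ∈ QQ A F γ` and
`q + g_c + g_k ∈ R` with `k ∈ {0, i, j, i ^ j}`. FNA: `c`, `T`. Replace `γ` by `γ' = γ + g_c`. Let
`U = ext F γ'`. Every `x ∈ U` is uniquely `r + g_i + b γ'`, `r ∈ R`, `i < 16`, `b ∈ {0, 1}`; let
`u(x) = i + 16 b`. If `x + y = a ∈ A` is in `F` then `a = g_k`, `k ∈ EE`, so `u(x) ^ u(y) = k` (and `x ≠ y`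
gives `k ≠ 0`); if `a ∈ γ' + F` then `a = γ' + q'`, `q' = q + g_c`, and `u(x) ^ u(y) = 16 ^ k` with
`k ^ c ∈ P`, so `k ∈ T`. Colour `x` by `c_T (u(x))` and use COL; `2 |F| = |U|` and `|F| = 4 |W|`, so
`index W = 8 * index U`. -/
def SpecCSA : Prop := ∀ (V : Type) [AddCommGroup V] [Fintype V] [DecidableEq V], Two V →
  ∀ A : Finset V, (0 : V) ∈ A → ∀ (F : AddSubgroup V) (e : ℕ → V) (γ : V), Frame A F e → γ ∉ F →
  (QQ A F γ).card ≤ 7 → ∀ W : AddSubgroup V, MaxAv A W → ∃ m : ℕ, W.index = 8 * m ∧ ColA A (7 * m)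

/-- CTW [150 lines]. `3 M / 4` colours from a light conflict of centres (TBB, COL).

Proof. `α, β, α + β ∉ F` (if `α ∈ F` then `α + EE`-pattern `= A ∩ F`, which implies `α = 0`, but then
`α + β = β ∈ A`; `α + β ∈ F` would imply that both are the centre of the same coset, `α = β`, `α + β = 0 ∈ A`).
`U = ext (ext F α) β`, 4 |F| elements; every `x ∈ U` is uniquely `r + g_i + b α + b' β`, `r ∈ R`; let
`u(x) = i + 16 b + 32 b'`. For `x + y = a ∈ A`: `a ∈ F`: `u(x) ^ u(y) ∈ EE`; `a ∈ α + F`: `a = α + g_k`, `k ∈ EE`,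
`u ^ u' = 16 ^ k`; `a ∈ β + F`: `32 ^ k`; `a ∈ α + β + F`: `a = α + β + q`, `q ∈ QQ A F (α + β)`, `q + g_k ∈ R` with
`k ≠ 0` because `q ∉ R`, `u ^ u' = 48 ^ k`. TBB, COL; `|U| = 16 |W|`. -/
def SpecCTW : Prop := ∀ (V : Type) [AddCommGroup V] [Fintype V] [DecidableEq V], Two V →
  ∀ A : Finset V, (0 : V) ∈ A → ∀ (F : AddSubgroup V) (e : ℕ → V) (α β : V) (R : AddSubgroup V),
  Conf1 A F e α β → Cpl F e R → (∀ q ∈ QQ A F (α + β), q ∉ R) →
  ∀ W : AddSubgroup V, MaxAv A W → ∃ m : ℕ, W.index = 16 * m ∧ ColA A (12 * m)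

/-! ## Part 4: frames -/

/-- KER [100 lines]. The maximal avoiding subgroups inside a frame.

Proof. `Z = ext (ext R g_i) g_j`. `a ∈ A ∩ Z`: `Z ≤ F`, so `a = g_k`, `k ∈ EE`, and
`a + g_l ∈ R` with `l ∈ {0, i, j, i ^ j}`, so `k = l` (`Cpl.dj`), and `EE ∩ (NF ∪ {0}) = {0}`. Order:
`|Z| = 4 |R|` (`card_ext`; `g_i ∉ R`, `g_j ∉ ext R g_i`) and `|F| = 16 |R|` (`F` is the disjoint union of
the `g_i + R`), `|F| = 4 |W|` for a maximal avoiding `W` (`exMaxAv`), so `|Z| = |W|`. -/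
def SpecKER : Prop := ∀ (V : Type) [AddCommGroup V] [Fintype V] [DecidableEq V], ∀ h2 : Two V,
  ∀ A : Finset V, (0 : V) ∈ A → ∀ (F : AddSubgroup V) (e : ℕ → V) (R : AddSubgroup V),
  Frame A F e → Cpl F e R → ∀ i ∈ NF, ∀ j ∈ NF, i ^^^ j ∈ NF →
  MaxAv A (ext h2 (ext h2 R (gg e 4 i)) (gg e 4 j))

/-- SIX [150 lines]. Every coset of `F` has at least six elements of `A` (CPF, KER, FNA).

Proof. Let `Q = QQ A F v`. For a complement `R` let `P_R = {i < 16 | ∃ q ∈ Q, q + g_i ∈ R}`;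
`|P_R| ≤ |Q|` and `P_R` meets the cosets of lines (see CSA; `cov` for the subgroups of KER). So
`|Q| ≥ 6` by FNA. Let `|Q| = 6`. Then `|P_R| = 6` for every complement `R`, and the map `Q → P_R` is
injective. Let `p, q ∈ Q`. If `p + q ∉ DD e` then there is a complement `R` with `p + q ∈ R` (CPF with
`R₀ = {0, p + q}`), and `p`, `q` have the same image, a contradiction. So all `p + q` are in
`DD e`. Fix `R`, `p₀ ∈ Q`, `p₀ + g_k ∈ R`, `r = p₀ + g_k`; then all `q ∈ Q` are `r + g_i`, `i ∈ P_R`. FNA: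
`P_R = c + EE`, so `Q = r + g_c + {g_k | k ∈ EE}` and `α = v + r + g_c` is a centre. -/
def SpecSIX : Prop := ∀ (V : Type) [AddCommGroup V] [Fintype V] [DecidableEq V], Two V →
  ∀ A : Finset V, (0 : V) ∈ A → ∀ (F : AddSubgroup V) (e : ℕ → V), Frame A F e → ∀ v : V,
  6 ≤ (QQ A F v).card ∧ ((QQ A F v).card = 6 → ∃ α, Cen A F e α ∧ α + v ∈ F)

/-- CNT [100 lines]. The number of centres (SIX).

Proof. `∑_v |QQ A F v| = |A| |F|`, and `|QQ A F v| ≥ 7` for all `v` which are not in `α + F` for a centre `α`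
(at most `|CE| |F|` elements `v`), `≥ 6` for these. So `|A| |F| + |CE| |F| ≥ 7 |V|`, `|V| = |W| * index W`,
`|F| = 4 |W|`. -/
def SpecCNT : Prop := ∀ (V : Type) [AddCommGroup V] [Fintype V] [DecidableEq V], Two V →
  ∀ A : Finset V, (0 : V) ∈ A → ∀ (F : AddSubgroup V) (e : ℕ → V), Frame A F e →
  ∀ W : AddSubgroup V, MaxAv A W → 7 * W.index ≤ 4 * (A.card + (CE A F e).card)

/-- LFR [200 lines]. The coset of the sum of two centres (CPF, KER, FNB).

Proof. `Q = QQ A F (α + β)`. Suppose `g_m ∉ Q`, `m ∈ EE`. CPF with `Y = {q + g_m | q ∈ Q}` (`0 ∉ Y`, at most 9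
elements) gives a complement `R` with `q + g_m ∉ R` for all `q ∈ Q`. Let
`P = {i < 16 | ∃ q ∈ Q, q + g_i ∈ R}`, `|P| ≤ 9`, `m ∉ P`. FNB gives a contradiction if: for `m' ∈ EE`, `l ∈ NF`
with `d = l ^ m' ∈ NF` one of `m'`, `l` is in `P`. There are `f, g < 16` with `f ^ g = l`, none of `f`, `f ^ d`, `g`,
`g ^ d` in `EE` (`decide`). The subgroup `Z` generated by `R`, `g_d`, `α + g_f`, `β + g_g` has the order
`8 |R| = 2 |W|`, so it contains an element `a ≠ 0` of `A` (`MaxAv.max`). If `a ∈ F`: `a ∈ ext R g_d`, `a = g_k`,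
`k ∈ {0, d} ∩ EE`, `a = 0`. If `a ∈ α + F`: `a = α + g_k`, `k ∈ EE`, and
`a + α + g_f ∈ ext R g_d`, so `k ∈ {f, f ^ d}`, a contradiction; the same for `β + F`. So `a = α + β + q`,
`q ∈ Q`, `q + g_l ∈ ext R g_d`: `q + g_l ∈ R` or `q + g_(l ^ d) ∈ R`, `l ^ d = m'`. -/
def SpecLFR : Prop := ∀ (V : Type) [AddCommGroup V] [Fintype V] [DecidableEq V], Two V →
  ∀ A : Finset V, (0 : V) ∈ A → ∀ (F : AddSubgroup V) (e : ℕ → V) (α β : V), Frame A F e →
  Cen A F e α → Cen A F e β → α ∉ F → β ∉ F → α + β ∉ F → (QQ A F (α + β)).card ≤ 9 →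
  ∀ m ∈ EE, gg e 4 m ∈ QQ A F (α + β)

/-- FLP [150 lines]. The flip of a frame.

Proof. `F' = ext F₁ (γ + w) = F₁ ∪ (γ + (F ∖ F₁))`. `gg (fl F₁ γ e) 4 i = g_i` or `γ + g_i` according to `g_i ∈ F₁` or
not (all `i < 16`, by `gg_xor` or from the definition). (1) `mem`, `inj` (`γ ∉ F`), `cut`:
`A ∩ F' = (A ∩ F₁) ∪ (A ∩ (γ + (F ∖ F₁)))` and `γ` is a centre; `big`: `|F'| = 2 |F₁| = |F|`. (2)
`A ∩ (α + F') = (A ∩ (α + F₁)) ∪ (A ∩ (α + γ + (F ∖ F₁)))`; the second part is by hypothesis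
`α + γ + {g_i | i ∈ EE, g_i ∉ F₁}`. (3)
`QQ A F' v` is the disjoint union of `{q ∈ QQ A F v | q ∈ F₁}` and `γ + {q ∈ QQ A F (v + γ) | q ∉ F₁}`. -/
def SpecFLP : Prop := ∀ (V : Type) [AddCommGroup V] [Fintype V] [DecidableEq V], ∀ h2 : Two V,
  ∀ A : Finset V, (0 : V) ∈ A → ∀ (F : AddSubgroup V) (e : ℕ → V) (γ : V), Frame A F e →
  Cen A F e γ → γ ∉ F → ∀ (F₁ : AddSubgroup V) (w : V), Hyp F F₁ w →
  Frame A (ext h2 F₁ (γ + w)) (fl F₁ γ e) ∧
  (∀ α, Cen A F e α → (∀ q, q ∈ QQ A F (α + γ) ∧ q ∉ F₁ ↔ ∃ i ∈ EE, gg e 4 i ∉ F₁ ∧ q = gg e 4 i) →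
    Cen A (ext h2 F₁ (γ + w)) (fl F₁ γ e) α) ∧
  ∀ v, (QQ A (ext h2 F₁ (γ + w)) v).card =
    {q | q ∈ QQ A F v ∧ q ∈ F₁}.ncard + {q | q ∈ QQ A F (v + γ) ∧ q ∉ F₁}.ncard

/-- LMB [250 lines]. A light conflict of centres (HYP, CPF, SIX, LFR, FLP).

Proof. Let `(F, e, α, β)` be a conflict of centres with minimal `|Q|`, `Q = QQ A F (α + β)`. Suppose that every
complement `R` meets `Q`. Then `|Q| ≥ 16` (CPF with `R₀ = 0`; `0 ∉ Q`). `α, β, α + β ∉ F` (see CTW);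
`U = ext (ext F α) β`, `|U| = 16 |W|`. `|QQ A U v| = ` the sum of `|QQ A F (v + x)|`, `x ∈ {0, α, β, α + β}`; for `v ∈ U` it
is `18 + |Q| ≥ 34`. `∑_v |QQ A U v| = |A| |U| < 28 |V|`, so there is a `v` with `|QQ A U v| ≤ 27`,
`v ∉ U`. All four `|QQ A F (v + x)|` are at least 6 (SIX), so one is 6. Let `γ` be the centre of this
coset `v + x₀ + F`; `γ ∉ U`. Replace `v` by `γ`: `P₀ = QQ A F γ` (6 elements), `P₁ = QQ A F (γ + α)`,
`P₂ = QQ A F (γ + β)`, `P₃ = QQ A F (γ + α + β)` (the four cosets are permuted) have together at most 27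
elements, so `|P₁|, |P₂| ≤ 9`, and LFR for `(α, γ)`, `(β, γ)`: `g_m ∈ P₁`, `g_m ∈ P₂` for `m ∈ EE`. Let `K` be
generated by `P₁ ∖ {g_m}` and `P₂ ∖ {g_m}`: these are `j ≤ 3` elements, `|K| ≤ 2 ^ j`, `K ≤ F`, and
`|P₃| ≤ 9 - j`. `|Q ∖ K| ≥ 16 - (2 ^ j - 1) > 9 - j ≥ |P₃ ∖ K|` (`0 ∉ Q`). HYP: a hyperplane `F₁ ≥ K` of `F`
with `|P₃ ∖ F₁| < |Q ∖ F₁|`. FLP with `γ`: `α` and `β` are centres for `F' = ext F₁ (γ + w)` because the elements
of `P₁ ∖ F₁`, `P₂ ∖ F₁` are the `g_m ∉ F₁`, `m ∈ EE`; `α + β ∉ A`; and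
`|QQ A F' (α + β)| = |Q ∩ F₁| + |P₃ ∖ F₁| < |Q|`, a contradiction. -/
def SpecLMB : Prop := ∀ (V : Type) [AddCommGroup V] [Fintype V] [DecidableEq V], Two V →
  ∀ A : Finset V, (0 : V) ∈ A → (∀ W : AddSubgroup V, MaxAv A W → 4 * A.card < 7 * W.index) →
  (∃ (F : AddSubgroup V) (e : ℕ → V) (α β : V), Conf1 A F e α β) →
  ∃ (F : AddSubgroup V) (e : ℕ → V) (α β : V) (R : AddSubgroup V), Conf1 A F e α β ∧ Cpl F e R ∧
    ∀ q ∈ QQ A F (α + β), q ∉ R

/-! ## Part 5: conflicts -/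

/-- LTA [250 lines]. A conflict with three elements (EXH, SPN, MEE).

Proof. Let `(W, s, t)` be a conflict with minimal `|X|`, `X = XX A W s t` (`exMin`); `|X| ≥ 3` (`Conf.X3`). Suppose
`|X| ≥ 4`. `∑_v (mm v + mm (v + s) + mm (v + t) + mm (v + s + t)) = 4 |A| |W| < 7 |V|`, so there is a `y`
with sum at most `6`. `y ∉ F = W ∪ (s + W) ∪ (t + W) ∪ (s + t + W)`, because there the sum is `3 + |X| ≥ 7`. All four
numbers are at least 1, so at least two of them are 1.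
CLAIM: (after a permutation of the four cosets, i.e. replacing `y` by `y + s`, `y + t`, `y + s + t`) there is a
single `γ ∈ y + W` such that with `P₁ = XX A W γ s`, `P₂ = XX A W γ t`, `P₃ = {p ∈ W | γ + s + t + p ∈ A}` there is
a subgroup `S ≤ W` with `|S| ≤ 4` that contains `P₁, P₂, P₃`. (a) If two adjacent cosets are single, say
`y + W` and `y + s + W` (or with `t`; symmetric): `P₁` has one element and meets all hyperplanes (MEE), so
`P₁ = {0}` (SPN). `P₂` and `P₃` meet all hyperplanes (MEE for the singles `γ, t` and `γ + s, t`) and have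
together at most 4 elements: with SPN each spans a group of order at most `2 ^ (|P| - 1)`, so
together at most `4`. (b) Otherwise exactly two opposite cosets are single and the
other two have two elements: `y + W`, `y + s + t + W` single. `P₁ = {0, w₁}`, `P₂ = {0, w₂}` (MEE, SPN), `P₃ = {w}`;
`γ' = γ + s + t + w` is single and MEE for `γ', t` says that `w + P₁` meets all hyperplanes, so `0 ∈ w + P₁`
(SPN) and `w ∈ P₁`. `S = {0, w₁, w₂, w₁ + w₂}`.
Let `x ∈ X ∖ S` (`|X| ≥ 4`, `0 ∉ X`), `W₁ ≥ S` a hyperplane with `x ∉ W₁` (EXH), `W' = ext W₁ (γ + x)`, `MaxAv` by `flip`.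
`s` is single for `W'`: `b ∈ A`, `b + s + γ + x ∈ W₁` gives `p = b + s + γ ∈ P₁ ≤ W₁`, so `x ∈ W₁`, a contradiction. The
same for `t`. So `(W', s, t)` is a conflict. `XX A W' s t ⊆ X ∖ {x}`: if `z ∈ W₁` then `z ∈ X`, `z ≠ x`; if
`z + γ + x ∈ W₁` then `p = z + γ ∈ P₃ ≤ W₁`, so `x ∈ W₁`, a contradiction. This contradicts the minimality. -/
def SpecLTA : Prop := ∀ (V : Type) [AddCommGroup V] [Fintype V] [DecidableEq V], Two V →
  ∀ A : Finset V, (0 : V) ∈ A → (∀ W : AddSubgroup V, MaxAv A W → 4 * A.card < 7 * W.index) →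
  (∃ (W : AddSubgroup V) (s t : V), Conf A W s t) →
  ∃ (W : AddSubgroup V) (s t : V), Conf A W s t ∧ (XX A W s t).card = 3

/-- FRM [150 lines]. A conflict with three elements gives a frame (SPN, MEE).

Proof. `X = {x₁, x₂, x₃}` meets all hyperplanes (`Conf.meet`), so it is contained in a subgroup of order at most 4
(SPN); `0 ∉ X`, so `x₃ = x₁ + x₂`. `F = ext (ext W s) t`, `e 0 = s`, `e 1 = t`, `e 2 = s + t + x₁`,
`e 3 = s + t + x₂`; `e 0 + e 1 + e 2 + e 3 = s + t + x₃`. (`s ∉ W`, `t ∉ W`, `s + t ∉ W`: `Conf.basic`; if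
`s + t ∈ W` then `t = s`, `s + t = 0 ∈ A`.) `A ∩ F`: `a ∈ W` gives `a = 0`, `a ∈ s + W` gives `a = s`, `a ∈ t + W` gives
`a = t`, `a ∈ s + t + W` gives `a + s + t ∈ X`. All maximal avoiding subgroups have the same order. -/
def SpecFRM : Prop := ∀ (V : Type) [AddCommGroup V] [Fintype V] [DecidableEq V], Two V →
  ∀ A : Finset V, (0 : V) ∈ A → ∀ (W : AddSubgroup V) (s t : V), Conf A W s t →
  (XX A W s t).card = 3 → ∃ (F : AddSubgroup V) (e : ℕ → V), Frame A F e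

/-- PRJ [200 lines]. Projection along an element.

Proof. `V' = V ⧸ {0, p}`, `A'` the image of `A`. `π(W')`, `W' ≥ {0, p}` are compared by `AddSubgroup.map`, `comap`: for a
subgroup `U'` of `V'` avoiding `A'`, the preimage avoids `A` (`a ∈ A`, `π a ∈ U'`, so `π a = 0`, `a ∈ {0, p}`, and
`p ∉ A` because `p ∈ W`) and has twice the order; so `|U'| ≤ |W| / 2 = |π W|`, `π W` is `MaxAv` for `A'`
(`π a ∈ π W` gives `a ∈ W`, `a = 0`). The index is the same. `π s`, `π t` are single, `π (s + t) ∉ A'` because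
`s + t ∉ A`, `s + t + p ∉ A`. Colourings are pulled back: `x ≠ y`, `x + y ∈ A` implies `π x ≠ π y`. -/
def SpecPRJ : Prop := ∀ (V : Type) [AddCommGroup V] [Fintype V] [DecidableEq V], Two V →
  ∀ A : Finset V, (0 : V) ∈ A → ∀ (W : AddSubgroup V) (s t p : V), Conf A W s t → p ∈ W → p ≠ 0 →
  s + t + p ∉ A → ∃ (V' : Type) (_ : AddCommGroup V') (_ : Fintype V') (_ : DecidableEq V')
    (A' : Finset V'), Two V' ∧ (0 : V') ∈ A' ∧ Fintype.card V' < Fintype.card V ∧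
    A'.card ≤ A.card ∧ (∃ (W' : AddSubgroup V') (s' t' : V'), Conf A' W' s' t') ∧
    (∀ (U : AddSubgroup V) (U' : AddSubgroup V'), MaxAv A U → MaxAv A' U' → U'.index = U.index) ∧
    ∀ k, ColA A' k → ColA A k

/-- FUL [300 lines]. There are not only full conflicts (EXH, SPN, MEE).

Proof. Let `(W, s, t)` be a conflict, `X = XX A W s t = W ∖ {0}`. By `hfull` all conflicts are full.
`∑_v (mm v + mm (v + s) + mm (v + t) + mm (v + s + t)) = 4 |A| |W| < 8 |V|`, so there is a `y` with sum at most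
`7`; for `y ∈ F` (see LTA) the sum is `2 + |W| ≥ 10`, so `y ∉ F`. Write `n₀₀, n₁₀, n₀₁, n₁₁` for the four
numbers `mm y, mm (y + s), mm (y + t), mm (y + s + t)`, all at least 1.
(1) Let `γ ∈ y + W` be single (`n₀₀ = 1`), `P₁ = XX A W γ s`, `P₂ = XX A W γ t`, `P₃` as in LTA. CLAIM:
`n₁₀ + n₀₁ ≥ 5` (so `= 5`, `n₁₁ = 1`) and `|W| = 8`, and no hyperplane contains `P₁ ∪ P₂`. Proof: let `W₁` be a
hyperplane of `W` that contains `P₁ ∪ P₂`, `x ∈ W ∖ W₁`, `W' = ext W₁ (γ + x)`; then `(W', s, t)` is a conflict (see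
LTA), so it is full: `γ + w ∈ W'` for `w ∈ W ∖ W₁`, so `s + t + γ + w ∈ A`, i.e. `W ∖ W₁ ⊆ P₃`. So
`|P₃| ≥ |W| / 2 ≥ 4`, so `n₁₁ = 4`, `P₃ = W ∖ W₁`, `n₁₀ = n₀₁ = 1`, `P₁ = P₂ = {0}` (MEE, SPN); but now the same
conclusion holds for every hyperplane, e.g. for one that contains an element of `P₃`: a contradiction
(`P₃ = W ∖ W₁` for two different `W₁`). So `P₁ ∪ P₂` is in no hyperplane and generates `W` (EXH), and by
SPN (MEE) `8 ≤ |W| ≤ 2 ^ (n₁₀ - 1 + n₀₁ - 1)`, so `n₁₀ + n₀₁ ≥ 5`.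
(2) (1) holds for each of the four cosets that is single (with its two neighbours). If `n₀₀ = 1` and
`(n₁₀, n₀₁) = (1, 4)`: then `n₁₀ = 1` is single with the neighbours `n₀₀ = n₁₁ = 1`, a contradiction; the same for
`(4, 1)`. So after exchanging `s`, `t` and the cosets: `n₀₀ = n₁₁ = 1`, `n₁₀ = 2`, `n₀₁ = 3`.
(3) `P₁ = {0, w₁}` (MEE, SPN), `w₁ ≠ 0`; `P₂ ⊆ S₂`, `|S₂| ≤ 4`, and `w₁ ∉ S₂` because `P₁ ∪ P₂` generates `W`.
`P₃ = {w}`, `γ' = γ + s + t + w` is single; MEE for `γ', t`: `w + P₁` meets all hyperplanes, so `w ∈ {0, w₁}`; MEE for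
`γ', s`: `w + P₂` meets all hyperplanes; if `w = w₁`, take a hyperplane `W₁ ≥ S₂` with `w₁ ∉ W₁`: no element of
`w₁ + P₂` is in `W₁`, a contradiction. So `w = 0`: `γ + s + t ∈ A`.
(4) `0 ∉ P₂`: `P₂ = {x, y', x + y'}` (three elements of `S₂ ∖ {0}`). Let `W₁` be a hyperplane with `w₁, x ∈ W₁`,
`y' ∉ W₁`, `W' = ext W₁ (s + y')` (flip with `s`). `γ` is single for `W'` (`b = γ + s + p`, `p ∈ P₁ ≤ W₁`,
`b + γ + s + y' ∉ W₁`), and so is `γ + t + x` (`b = γ + t + p`, `p ∈ P₂ ∩ W₁ = {x}`; `b = γ + s + t` gives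
`x + y' ∈ W₁`, no). `t + x ∉ A` (`t` single, `x ≠ 0`), so `(W', γ, γ + t + x)` is a conflict. It is not full: take
`z ∈ W₁`, `z ≠ 0, x` (`|W₁| = 4`): `t + x + z ∉ A`. Contradiction.
(5) `0 ∈ P₂`: `P₂ = {0, x, y'}` with `x, y'` independent. Let `W₁` be a hyperplane that contains none of
`w₁, x, y'` (EXH for the subgroup generated by `w₁ + x`, `w₁ + y'`), `W' = ext W₁ (s + w₁)`. `γ + s` is single for
`W'` (`b = γ + s + p`, `p ∈ P₁ ∩ W₁ = {0}`; `b = γ` gives `w₁ ∈ W₁`) and `γ + t` is single (`b = γ + t + p`,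
`p ∈ P₂ ∩ W₁ = {0}`; `b = γ + s + t` gives `w₁ ∈ W₁`). `s + t ∉ A`, so `(W', γ + s, γ + t)` is a conflict. It is not
full: `z = s + w₁ ∈ W'`, `s + t + z = t + w₁ ∉ A`. Contradiction. -/
def SpecFUL : Prop := ∀ (V : Type) [AddCommGroup V] [Fintype V] [DecidableEq V], Two V →
  ∀ A : Finset V, (0 : V) ∈ A → (∀ W : AddSubgroup V, MaxAv A W → A.card < 2 * W.index) →
  (∀ (W : AddSubgroup V) (s t : V), Conf A W s t → ∀ x ∈ W, x ≠ 0 → s + t + x ∈ A) →
  ∀ (W : AddSubgroup V) (s t : V), Conf A W s t → 8 ≤ Nat.card W → False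

/-- STP [150 lines]. `7 M / 8` colours if there is a conflict (PRJ, FUL, FRM, CSA).

Proof. Strong induction over `|V|`. If there is a conflict `(W, s, t)` and `p ∈ W`, `p ≠ 0` with `s + t + p ∉ A`: PRJ
and the induction hypothesis. Otherwise all conflicts are full. If `|W| ≥ 8`: FUL. `|W|` is a
power of two; `|X| ≥ 3` (`Conf.X3`), `X ⊆ W ∖ {0}`, so `|W| = 4` and `|X| = 3`: FRM gives a frame `F`,
`|F| = 4 |W|`. There is a `γ ∉ F` with `|QQ A F γ| ≤ 7`: `∑_{v ∉ F} |QQ A F v| = (|A| - 6) |F|`,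
`|A| - 6 ≤ 2 M - 9 < 8 (M / 4 - 1)`, where `|V| = (M / 4) |F|`. CSA. -/
def SpecSTP : Prop := ∀ (V : Type) [AddCommGroup V] [Fintype V] [DecidableEq V], Two V →
  ∀ A : Finset V, (0 : V) ∈ A → (∀ W : AddSubgroup V, MaxAv A W → A.card + 3 ≤ 2 * W.index) →
  (∃ (W : AddSubgroup V) (s t : V), Conf A W s t) →
  ∀ W : AddSubgroup V, MaxAv A W → ∃ m : ℕ, W.index = 8 * m ∧ ColA A (7 * m)

/-- MAI [200 lines]. Reed's bound for all cubelike graphs (LTA, FRM, CNT, LMB, CTW, STP).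

Proof. `A = nbh G`, `|A| ≤ Δ + 1` (`card_nbh`), `W` maximal avoiding, `M = W.index`, `G` is `M`-colourable (`col`), and
`ColA A k` implies that `G` is `k`-colourable. No conflict: `2 M ≤ ω + |A|` (proof of `main1`). Conflict: `3 M ≤ 2 |A|`
(`many`), and `ω ≥ 2` (a conflict has `s ∈ A`, `s ≠ 0`). If `2 M ≤ |A| + 2`: done. Otherwise STP: `M = 8 m`, `7 m` colours.
If `14 m ≤ |A| + ω`: done. Otherwise `4 |A| < 7 M`: LTA, FRM, CNT: `14 m ≤ |A| + |CE A F e|`, so `|CE A F e| > ω` and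
`CE A F e` is not a clique (`IsClique.card_le_cliqueNum`; `adj_of`): a conflict of centres; LMB, CTW: `M = 16 m'`, `12 m'`
colours, `24 m' ≤ |A|` by `many`. -/
def SpecMAI : Prop := ∀ (V : Type) [AddCommGroup V] [Fintype V] [DecidableEq V], Two V →
  ∀ (S : Set V) (G : SimpleGraph V) [DecidableRel G.Adj], (∀ x y : V, G.Adj x y ↔ x + y ∈ S) →
  G.Colorable ((G.cliqueNum + G.maxDegree + 1) / 2)

end Pool.Agent.Lib.MP_b63a06_co.FR
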